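import Pool.Agent.KDir.Types
import Pool.Agent.KBT.Chl
import Pool.Agent.KBT.Gen

set_option autoImplicit false

namespace KD

open Filter KBT

variable {W : Type*} {R : W → W → Prop}

/-- Almost all rows are not constant. -/
theorem arr_rows {p q : Ultrafilter W} (h : Arr R p q) {Q : Set W} (hQ : Q ∈ q) :
    {x | (∃ y ∈ Q, R x y) ∧ ∃ y ∈ Q, ¬ R x y} ∈ p := by
  by_contra hcon
  have h1 : ∀ᶠ x in (p : Filter W), ¬ ((∃ y ∈ Q, R x y) ∧ ∃ y ∈ Q, ¬ R x y) := by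
    rw [← ev_not]
    exact hcon
  have h2 : ∀ᶠ x in (p : Filter W), (∀ y ∈ Q, ¬ R x y) ∨ (∀ y ∈ Q, R x y) := by
    filter_upwards [h1] with x hx
    by_cases h3 : ∃ y ∈ Q, R x y
    · right
      intro y hy
      by_contra h4
      exact hx ⟨h3, y, hy, h4⟩
    · left
      intro y hy h4
      exact h3 ⟨y, hy, h4⟩
  rw [Ultrafilter.eventually_or] at h2
  rcases h2 with h2 | h2
  · obtain ⟨⟨x, hx, y, hy, hxy⟩, _⟩ := h _ h2 _ hQ
    exact hx y hy hxy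
  · obtain ⟨_, ⟨x, hx, y, hy, hxy⟩⟩ := h _ h2 _ hQ
    exact hxy (hx y hy)

/-- Two nontrivial cuts have a common edge. -/
theorem two_cuts {Q : Set W} {f g : W → Prop} (hf : (∃ y ∈ Q, f y) ∧ ∃ y ∈ Q, ¬ f y)
    (hg : (∃ y ∈ Q, g y) ∧ ∃ y ∈ Q, ¬ g y) :
    ∃ v ∈ Q, ∃ w ∈ Q, (f v ↔ ¬ f w) ∧ (g v ↔ ¬ g w) := by
  obtain ⟨⟨x, hx, fx⟩, y, hy, fy⟩ := hf
  obtain ⟨⟨z, hz, gz⟩, z', hz', gz'⟩ := hg
  by_cases h1 : g x ↔ ¬ g y
  · exact ⟨x, hx, y, hy, by tauto, h1⟩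
  · -- g x = g y
    by_cases h2 : g x
    · have h3 : g y := by tauto
      by_cases h4 : f z'
      · exact ⟨y, hy, z', hz', by tauto, by tauto⟩
      · exact ⟨x, hx, z', hz', by tauto, by tauto⟩
    · have h3 : ¬ g y := by tauto
      by_cases h4 : f z
      · exact ⟨y, hy, z, hz, by tauto, by tauto⟩
      · exact ⟨x, hx, z, hz, by tauto, by tauto⟩

/-- the sets of points with nontrivial rows -/
def QQ (R : W → W → Prop) (P : ℕ → Set W) : ℕ → Set W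
  | 0 => P 0
  | a+1 => {x | x ∈ P (a+1) ∧ (∃ y ∈ QQ R P a, R x y) ∧ ∃ y ∈ QQ R P a, ¬ R x y}

theorem QQ_sub (P : ℕ → Set W) (a : ℕ) : QQ R P a ⊆ P a := by
  cases a with
  | zero => exact Set.Subset.refl _
  | succ a => exact fun x hx => hx.1

theorem QQ_mem (u : ℕ → Ultrafilter W) (s : ℕ) (hA : ∀ a < s, Arr R (u (a+1)) (u a))
    (P : ℕ → Set W) (hP : ∀ a ≤ s, P a ∈ u a) : ∀ a ≤ s, QQ R P a ∈ u a := by
  intro a
  induction a with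
  | zero => intro h; exact hP 0 h
  | succ a ih =>
    intro h
    exact Filter.inter_mem (hP (a+1) h) (arr_rows (hA a (by omega)) (ih (by omega)))

theorem block_pts (P : ℕ → Set W) (s : ℕ) : ∀ x ∈ QQ R P s, ∀ y ∈ QQ R P s,
    ∃ v w : ℕ → W, v s = x ∧ w s = y ∧ (∀ a ≤ s, v a ∈ QQ R P a ∧ w a ∈ QQ R P a) ∧
    ∀ a < s, (R (v (a+1)) (v a) ↔ ¬ R (v (a+1)) (w a)) ∧
      (R (w (a+1)) (v a) ↔ ¬ R (w (a+1)) (w a)) := by
  induction s with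
  | zero =>
    intro x hx y hy
    refine ⟨fun _ => x, fun _ => y, rfl, rfl, ?_, fun a ha => absurd ha (Nat.not_lt_zero a)⟩
    intro a ha
    have : a = 0 := by omega
    subst this
    exact ⟨hx, hy⟩
  | succ s ih =>
    intro x hx y hy
    obtain ⟨v', hv', w', hw', h1, h2⟩ := two_cuts hx.2 hy.2
    obtain ⟨v, w, h3, h4, h5, h6⟩ := ih v' hv' w' hw'
    refine ⟨fun a => if a = s + 1 then x else v a, fun a => if a = s + 1 then y else w a,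
      by simp, by simp, ?_, ?_⟩
    · intro a ha
      by_cases h7 : a = s + 1
      · subst h7
        simp only [if_true]
        exact ⟨hx, hy⟩
      · simp only [h7, if_false]
        exact h5 a (by omega)
    · intro a ha
      have h7 : a ≠ s + 1 := by omega
      by_cases h8 : a = s
      · subst h8
        simp only [h7, if_false, if_true, h3, h4]
        exact ⟨h1, h2⟩
      · have h9 : a + 1 ≠ s + 1 := by omega
        simp only [h7, h9, if_false]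
        exact h6 a (by omega)

/-- An ultrafilter on blocks. -/
theorem blockU (u : ℕ → Ultrafilter W) (s : ℕ) (hA : ∀ a < s, Arr R (u (a+1)) (u a)) :
    ∃ 𝒢 : Ultrafilter ((ℕ → W) × (ℕ → W)),
      (∀ a ≤ s, 𝒢.map (fun β => β.1 a) = u a ∧ 𝒢.map (fun β => β.2 a) = u a) ∧
      ∀ᶠ β in (𝒢 : Filter ((ℕ → W) × (ℕ → W))), ∀ a < s,
        (R (β.1 (a+1)) (β.1 a) ↔ ¬ R (β.1 (a+1)) (β.2 a)) ∧
        (R (β.2 (a+1)) (β.1 a) ↔ ¬ R (β.2 (a+1)) (β.2 a)) := by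
  classical
  obtain ⟨𝒢, h𝒢⟩ := fip (K := (ℕ → W) × (ℕ → W)) (Γ := ℕ × Set W)
    (fun γ => {β | (γ.1 ≤ s → γ.2 ∈ u γ.1 → β.1 γ.1 ∈ γ.2 ∧ β.2 γ.1 ∈ γ.2) ∧ ∀ a < s,
        (R (β.1 (a+1)) (β.1 a) ↔ ¬ R (β.1 (a+1)) (β.2 a)) ∧
        (R (β.2 (a+1)) (β.1 a) ↔ ¬ R (β.2 (a+1)) (β.2 a))}) (by
      intro F
      let P : ℕ → Set W := fun a => {x | ∀ γ ∈ F, γ.1 = a → γ.2 ∈ u a → x ∈ γ.2}
      have hP : ∀ a, P a ∈ u a := by
        intro a
        show ∀ᶠ x in (u a : Filter W), ∀ γ ∈ F, γ.1 = a → γ.2 ∈ u a → x ∈ γ.2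
        rw [eventually_all_finset]
        intro γ _
        by_cases h1 : γ.1 = a ∧ γ.2 ∈ u a
        · have h2 : ∀ᶠ x in (u a : Filter W), x ∈ γ.2 := h1.2
          exact h2.mono fun x hx _ _ => hx
        · exact Eventually.of_forall fun x h2 h3 => absurd ⟨h2, h3⟩ h1
      have hQ := QQ_mem (R := R) u s hA P (fun a _ => hP a)
      obtain ⟨x, hx⟩ := (u s).nonempty_of_mem (hQ s le_rfl)
      obtain ⟨v, w, _, _, h1, h2⟩ := block_pts (R := R) P s x hx x hx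
      refine ⟨(v, w), fun γ hγ => ⟨fun h3 h4 => ?_, h2⟩⟩
      exact ⟨QQ_sub P _ (h1 γ.1 h3).1 γ hγ rfl h4, QQ_sub P _ (h1 γ.1 h3).2 γ hγ rfl h4⟩)
  refine ⟨𝒢, ?_, ?_⟩
  · intro a ha
    refine ⟨Ultrafilter.eq_of_le ?_, Ultrafilter.eq_of_le ?_⟩
    · intro P hP
      exact (h𝒢 (a, P)).mono fun β hβ => (hβ.1 ha hP).1
    · intro P hP
      exact (h𝒢 (a, P)).mono fun β hβ => (hβ.1 ha hP).2
  · exact (h𝒢 (0, ∅)).mono fun β hβ => hβ.2

/-- Pairs of types which do not see each other. -/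
theorem const_of_not_arr {p q : Ultrafilter W} (h : ¬ Arr R p q) :
    ∃ P ∈ p, ∃ Q ∈ q, ∃ c : Prop, ∀ x ∈ P, ∀ y ∈ Q, (R x y ↔ c) := by
  unfold Arr at h
  push Not at h
  obtain ⟨P, hP, Q, hQ, h1⟩ := h
  by_cases h2 : ∃ x ∈ P, ∃ y ∈ Q, R x y
  · exact ⟨P, hP, Q, hQ, True, fun x hx y hy => ⟨fun _ => trivial, fun _ => h1 h2 x hx y hy⟩⟩
  · exact ⟨P, hP, Q, hQ, False, fun x hx y hy => ⟨fun h3 => h2 ⟨x, hx, y, hy, h3⟩,
      fun h3 => absurd h3 id⟩⟩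

/-- Blocks with the complete in-block property. -/
theorem blockU' (u : ℕ → Ultrafilter W) (s : ℕ) (hA : ∀ a < s, Arr R (u (a+1)) (u a))
    (hN : ∀ a b, a + 2 ≤ b → b ≤ s → ¬ Arr R (u b) (u a)) :
    ∃ 𝒢 : Ultrafilter ((ℕ → W) × (ℕ → W)),
      (∀ a ≤ s, 𝒢.map (fun β => β.1 a) = u a ∧ 𝒢.map (fun β => β.2 a) = u a) ∧
      ∀ᶠ β in (𝒢 : Filter ((ℕ → W) × (ℕ → W))), (∀ a < s,
        (R (β.1 (a+1)) (β.1 a) ↔ ¬ R (β.1 (a+1)) (β.2 a)) ∧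
        (R (β.2 (a+1)) (β.1 a) ↔ ¬ R (β.2 (a+1)) (β.2 a))) ∧
        ∀ a b, a + 2 ≤ b → b ≤ s → (R (β.1 b) (β.1 a) ↔ R (β.1 b) (β.2 a)) ∧
          (R (β.2 b) (β.1 a) ↔ R (β.2 b) (β.2 a)) := by
  classical
  obtain ⟨𝒢, h1, h2⟩ := blockU (R := R) u s hA
  refine ⟨𝒢, h1, h2.and ?_⟩
  have h3 : ∀ᶠ β in (𝒢 : Filter ((ℕ → W) × (ℕ → W))), ∀ a ∈ Finset.range (s+1),
      ∀ b ∈ Finset.range (s+1), a + 2 ≤ b → (R (β.1 b) (β.1 a) ↔ R (β.1 b) (β.2 a)) ∧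
          (R (β.2 b) (β.1 a) ↔ R (β.2 b) (β.2 a)) := by
    rw [eventually_all_finset]
    intro a ha
    rw [eventually_all_finset]
    intro b hb
    rw [Finset.mem_range] at ha hb
    by_cases hab : a + 2 ≤ b
    · obtain ⟨P, hP, Q, hQ, c, hc⟩ := const_of_not_arr (hN a b hab (by omega))
      obtain ⟨e1, e2⟩ := h1 a (by omega)
      obtain ⟨e3, e4⟩ := h1 b (by omega)
      have f1 : ∀ᶠ β in (𝒢 : Filter ((ℕ → W) × (ℕ → W))), β.1 a ∈ Q := by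
        rw [← e1] at hQ
        exact hQ
      have f2 : ∀ᶠ β in (𝒢 : Filter ((ℕ → W) × (ℕ → W))), β.2 a ∈ Q := by
        rw [← e2] at hQ
        exact hQ
      have f3 : ∀ᶠ β in (𝒢 : Filter ((ℕ → W) × (ℕ → W))), β.1 b ∈ P := by
        rw [← e3] at hP
        exact hP
      have f4 : ∀ᶠ β in (𝒢 : Filter ((ℕ → W) × (ℕ → W))), β.2 b ∈ P := by
        rw [← e4] at hP
        exact hP
      filter_upwards [f1, f2, f3, f4] with β g1 g2 g3 g4 _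
      exact ⟨(hc _ g3 _ g1).trans (hc _ g3 _ g2).symm, (hc _ g4 _ g1).trans (hc _ g4 _ g2).symm⟩
    · exact Eventually.of_forall fun β h => absurd h hab
  filter_upwards [h3] with β hβ a b hab hb
  exact hβ a (Finset.mem_range.mpr (by omega)) b (Finset.mem_range.mpr (by omega)) hab

/-- Type level pattern. -/
theorem xpt (u : ℕ → Ultrafilter W) (s : ℕ) (hA : ∀ a < s, Arr R (u (a+1)) (u a))
    (hN : ∀ a b, a + 2 ≤ b → b ≤ s → ¬ Arr R (u b) (u a)) : XP R s := by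
  obtain ⟨𝒢, _, h2⟩ := blockU' u s hA hN
  obtain ⟨β, h3, h4⟩ := h2.exists
  exact ⟨β.1, β.2, h3, h4⟩

theorem xp_mono {m n : ℕ} (h : m ≤ n) (hX : XP R n) : XP R m := by
  obtain ⟨v, w, h1, h2⟩ := hX
  exact ⟨v, w, fun a ha => h1 a (by omega), fun a b hab hb => h2 a b hab (by omega)⟩

/-- Reachable types are reachable by short paths. -/
theorem short {m : ℕ} (hX : ¬ XP R m) (T : Set (Ultrafilter W)) {p q : Ultrafilter W}
    (h : Relation.ReflTransGen (fun p q => Arr R p q ∧ p ∈ T ∧ q ∈ T) p q) :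
    ∃ n ≤ m, ∃ u : ℕ → Ultrafilter W, u 0 = p ∧ u n = q ∧
      (∀ a < n, Arr R (u a) (u (a+1)) ∧ u a ∈ T ∧ u (a+1) ∈ T) ∧
      ∀ i j, i + 2 ≤ j → j ≤ n → ¬ Arr R (u i) (u j) := by
  obtain ⟨n, u, h0, hn, h1, h2⟩ := chordless h
  have hT : ∀ i ≤ n, 1 ≤ n → u i ∈ T := by
    intro i hi hn1
    by_cases h3 : i < n
    · exact (h1 i h3).2.1
    · have h4 : i = (n-1) + 1 := by omega
      rw [h4]
      exact (h1 (n-1) (by omega)).2.2
  have h3 : ∀ i j, i + 2 ≤ j → j ≤ n → ¬ Arr R (u i) (u j) := by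
    intro i j hij hj hA
    exact h2 i j hij hj ⟨hA, hT i (by omega) (by omega), hT j hj (by omega)⟩
  refine ⟨n, ?_, u, h0, hn, h1, h3⟩
  by_contra hcon
  apply hX
  refine xp_mono (by omega : m ≤ n) (xpt (fun a => u (n - a)) n ?_ ?_)
  · intro a ha
    have e : n - a = n - (a+1) + 1 := by omega
    have h4 := (h1 (n-(a+1)) (by omega)).1
    rw [← e] at h4
    exact h4
  · intro a b hab hb
    exact h3 (n-b) (n-a) (by omega) (by omega)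

end KD
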