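import Pool.Agent.KDir.Hf
import Pool.Agent.KBT.Wlu

set_option autoImplicit false

namespace KD

open Filter KBT

variable {W : Type*} {R : W → W → Prop}

/-- An ultrafilter on generic sequences. -/
theorem genU {A : Type*} (𝒜 : Ultrafilter A) (K : ℕ) :
    ∃ 𝒢 : Ultrafilter (ℕ → A), ∀ Q : A → A → A → A → Prop,
      (∀ᶠ a in (𝒜 : Filter A), ∀ᶠ b in (𝒜 : Filter A), ∀ᶠ c in (𝒜 : Filter A),
        ∀ᶠ d in (𝒜 : Filter A), Q a b c d) →
      ∀ᶠ β in (𝒢 : Filter (ℕ → A)), ∀ i j k l, i < j → j < k → k < l → l < K →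
        Q (β i) (β j) (β k) (β l) := by
  classical
  obtain ⟨𝒢, h𝒢⟩ := fip (K := ℕ → A) (Γ := {Q : A → A → A → A → Prop //
      ∀ᶠ a in (𝒜 : Filter A), ∀ᶠ b in (𝒜 : Filter A), ∀ᶠ c in (𝒜 : Filter A),
        ∀ᶠ d in (𝒜 : Filter A), Q a b c d})
    (fun Q => {β | ∀ i j k l, i < j → j < k → k < l → l < K →
        Q.1 (β i) (β j) (β k) (β l)}) (by
      intro F
      obtain ⟨β, _, h2⟩ := gen4 𝒜 (fun _ _ => True) (fun a b c d => ∀ Q ∈ F, Q.1 a b c d)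
        (Eventually.of_forall fun _ => Eventually.of_forall fun _ => trivial)
        (by
          simp only [eventually_all_finset]
          exact fun Q _ => Q.2) K
      exact ⟨β, fun Q hQ i j k l hij hjk hkl hl => h2 i j k l hij hjk hkl hl Q hQ⟩)
  exact ⟨𝒢, fun Q hQ => h𝒢 ⟨Q, hQ⟩⟩

/-- A chordless path of exceptional pairs without half graphs gives the pattern. -/
theorem xp_eg {J : Type*} (𝒥 : Ultrafilter J) (f : ℕ → J → W) (n : ℕ)
    (h1 : ∀ i < n, Eg 𝒥 R (f i) (f (i+1)))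
    (h2 : ∀ i j, i + 2 ≤ j → j ≤ n → ¬ Eg 𝒥 R (f i) (f j))
    (h3 : ∀ i j, i < j → j ≤ n → ¬ Hh R (𝒥.map (f i)) (𝒥.map (f j))) : XP R n := by
  classical
  have hgen : ∀ᶠ x in (𝒥 : Filter J), ∀ᶠ y in (𝒥 : Filter J), ∀ τ : Fin (n+1) × Fin (n+1),
      ((R (f τ.1 x) (f τ.2 x) ↔ ∀ᶠ j in (𝒥 : Filter J), R (f τ.1 j) (f τ.2 j)) ∧
       (R (f τ.1 y) (f τ.2 y) ↔ ∀ᶠ j in (𝒥 : Filter J), R (f τ.1 j) (f τ.2 j))) ∧
      ((R (f τ.1 x) (f τ.2 y) ↔ Dlt R (𝒥.map (f τ.1)) (𝒥.map (f τ.2))) ∧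
       (R (f τ.1 y) (f τ.2 x) ↔ Dgt R (𝒥.map (f τ.1)) (𝒥.map (f τ.2)))) := by
    simp only [eventually_all]
    rintro ⟨i, j⟩
    have e1 := ev_dec 𝒥 (fun x => R (f i x) (f j x))
    have e2 := ev_dec2 𝒥 𝒥 (fun x y => R (f i x) (f j y))
    have e3 := ev_dec2 𝒥 𝒥 (fun x y => R (f i y) (f j x))
    filter_upwards [e1, e2, e3] with x g1 g2 g3
    filter_upwards [e1, g2, g3] with y g4 g5 g6
    exact ⟨⟨g1, g4⟩, g5, g6⟩
  obtain ⟨x, hx⟩ := hgen.exists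
  obtain ⟨y, hy⟩ := hx.exists
  refine ⟨fun a => f (n - a) x, fun a => f (n - a) y, ?_, ?_⟩
  · intro a ha
    obtain ⟨⟨g1, g2⟩, g3, g4⟩ := hy (⟨n-(a+1), by omega⟩, ⟨n-a, by omega⟩)
    have e : n - a = n - (a+1) + 1 := by omega
    have g5 := h1 (n-(a+1)) (by omega)
    have g6 := h3 (n-(a+1)) (n-a) (by omega) (by omega)
    rw [← e] at g5
    unfold Eg at g5
    unfold Hh at g6
    dsimp only at g1 g2 g3 g4 ⊢
    constructor <;> tauto
  · intro a b hab hb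
    obtain ⟨⟨g1, g2⟩, g3, g4⟩ := hy (⟨n-b, by omega⟩, ⟨n-a, by omega⟩)
    have g5 := h2 (n-b) (n-a) (by omega) (by omega)
    have g6 := h3 (n-b) (n-a) (by omega) (by omega)
    unfold Eg at g5
    unfold Hh at g6
    dsimp only at g1 g2 g3 g4 ⊢
    constructor <;> tauto

/-- Two independent copies of an element are never connected. -/
theorem wlud {A : Type*} {m : ℕ} (hG : Good R m) (𝒜 : Ultrafilter A) (X : A → W)
    (hT : Relation.TransGen (Eg (prodU 𝒜 𝒜) R) (X ∘ Prod.snd) (X ∘ Prod.fst) ∨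
      Relation.TransGen (Eg (prodU 𝒜 𝒜) R) (X ∘ Prod.fst) (X ∘ Prod.snd)) : False := by
  classical
  have hpath : ∃ (s : ℕ) (p : ℕ → (A × A → W)), 1 ≤ s ∧
      ((p 0 = X ∘ Prod.snd ∧ p s = X ∘ Prod.fst) ∨ (p 0 = X ∘ Prod.fst ∧ p s = X ∘ Prod.snd)) ∧
      ∀ i < s, Eg (prodU 𝒜 𝒜) R (p i) (p (i+1)) := by
    rcases hT with hT | hT
    · obtain ⟨s, p, hs, h0, hsn, hp⟩ := path_of_transGen hT
      exact ⟨s, p, hs, Or.inl ⟨h0, hsn⟩, hp⟩
    · obtain ⟨s, p, hs, h0, hsn, hp⟩ := path_of_transGen hT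
      exact ⟨s, p, hs, Or.inr ⟨h0, hsn⟩, hp⟩
  obtain ⟨s, p, hs, hend, hp⟩ := hpath
  set 𝒩 := prodU 𝒜 𝒜 with h𝒩
  have hfst : 𝒩.map (X ∘ Prod.fst) = 𝒜.map X := by
    refine (Ultrafilter.eq_of_le ?_).symm
    intro P hP
    have h1 : ∀ᶠ a in (𝒜 : Filter A), ∀ᶠ _b in (𝒜 : Filter A), X a ∈ P := hP
    exact h1.mono fun a ha => (eventually_const.mp ha : X a ∈ P)
  have hsnd : 𝒩.map (X ∘ Prod.snd) = 𝒜.map X := by
    refine (Ultrafilter.eq_of_le ?_).symm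
    intro P hP
    have h1 : ∀ᶠ _a in (𝒜 : Filter A), ∀ᶠ b in (𝒜 : Filter A), X b ∈ P := hP
    exact eventually_const.mp h1
  have hτ0s : 𝒩.map (p 0) = 𝒩.map (p s) := by
    rcases hend with ⟨e1, e2⟩ | ⟨e1, e2⟩
    · rw [e1, e2, hfst, hsnd]
    · rw [e1, e2, hfst, hsnd]
  have harr : ∀ t < s, Arr R (𝒩.map (p t)) (𝒩.map (p (t+1))) := fun t ht => arr_of_eg 𝒩 (hp t ht)
  have hfw : ∀ t t', t ≤ t' → t' ≤ s →
      Relation.ReflTransGen (Arr R) (𝒩.map (p t)) (𝒩.map (p t')) := by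
    intro t t' htt
    induction htt with
    | refl => intro _; exact Relation.ReflTransGen.refl
    | @step t'' _ ih => intro h; exact (ih (by omega)).tail (harr t'' (by omega))
  have hcyc : ∀ t t', t ≤ s → t' ≤ s →
      Relation.ReflTransGen (Arr R) (𝒩.map (p t)) (𝒩.map (p t')) := by
    intro t t' ht ht'
    have h1 := hfw t s ht le_rfl
    have h2 := hfw 0 t' (Nat.zero_le _) ht'
    rw [hτ0s] at h2
    exact h1.trans h2
  have hnoH : ∀ t t', t ≤ s → t' ≤ s → ¬ Hh R (𝒩.map (p t)) (𝒩.map (p t')) :=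
    fun t t' ht ht' => hf hG (hcyc t' t ht' ht)
  obtain ⟨𝒢, h𝒢⟩ := genU 𝒜 (m + 10)
  let φ : ℕ → (ℕ → A) → A × A := fun k β => (β k, β (k+1))
  have hφ : ∀ k ≤ m + 3, 𝒢.map (φ k) = 𝒩 := by
    intro k hk
    refine Ultrafilter.eq_of_le ?_
    intro P hP
    have h1 : ∀ᶠ a in (𝒜 : Filter A), ∀ᶠ b in (𝒜 : Filter A), ∀ᶠ _c in (𝒜 : Filter A),
        ∀ᶠ _d in (𝒜 : Filter A), (a, b) ∈ P := by
      have h2 : ∀ᶠ a in (𝒜 : Filter A), ∀ᶠ b in (𝒜 : Filter A), (a, b) ∈ P := hP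
      filter_upwards [h2] with a ha
      filter_upwards [ha] with b hb
      exact Eventually.of_forall fun _ => Eventually.of_forall fun _ => hb
    exact (h𝒢 (fun a b _ _ => (a, b) ∈ P) h1).mono fun β hβ =>
      hβ k (k+1) (k+2) (k+3) (by omega) (by omega) (by omega) (by omega)
  have hs0 : 0 < s := hs
  let Z : Type := Fin (m+3) × Fin s
  let F : Z → (ℕ → A) → W := fun z => p z.2.1 ∘ φ z.1.1
  let EZ : Z → Z → Prop := fun z z' => Eg 𝒢 R (F z) (F z')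
  have hF : ∀ z : Z, 𝒢.map (F z) = 𝒩.map (p z.2.1) := by
    intro z
    have e1 : 𝒢.map (F z) = (𝒢.map (φ z.1.1)).map (p z.2.1) := rfl
    rw [e1, hφ _ (by have := z.1.2; omega)]
  have hlink1 : ∀ (k : Fin (m+3)) (σ : ℕ) (hσ : σ + 1 < s),
      EZ (k, ⟨σ, by omega⟩) (k, ⟨σ+1, hσ⟩) := by
    intro k σ hσ
    exact (marg_eg 𝒩 𝒢 (φ k.1) (hφ _ (by have := k.2; omega)) (p σ) (p (σ+1))).mpr
      (hp σ (by omega))
  have hlast : ∀ (k : Fin (m+3)), Eg 𝒢 R (F (k, ⟨s-1, by omega⟩)) (p s ∘ φ k.1) := by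
    intro k
    have h1 := hp (s-1) (by omega)
    have e : s - 1 + 1 = s := by omega
    rw [e] at h1
    exact (marg_eg 𝒩 𝒢 (φ k.1) (hφ _ (by have := k.2; omega)) (p (s-1)) (p s)).mpr h1
  have hreach1 : ∀ (k : Fin (m+3)) (σ : ℕ) (hσ : σ < s),
      Relation.ReflTransGen EZ (k, ⟨0, hs0⟩) (k, ⟨σ, hσ⟩) := by
    intro k σ
    induction σ with
    | zero => intro _; exact Relation.ReflTransGen.refl
    | succ σ ih => intro hσ; exact (ih (by omega)).tail (hlink1 k σ hσ)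
  -- blocks at distance at least two
  have hfar : ∀ z z' : Z, (z.1.1 + 2 ≤ z'.1.1 ∨ z'.1.1 + 2 ≤ z.1.1) → ¬ EZ z z' := by
    rintro ⟨⟨k, hk⟩, ⟨t, ht⟩⟩ ⟨⟨k', hk'⟩, ⟨t', ht'⟩⟩ hz
    show ¬ Eg 𝒢 R _ _
    unfold Eg
    rw [not_not, hF, hF]
    have hno := hnoH t t' (by omega) (by omega)
    unfold Hh at hno
    rw [not_not] at hno
    dsimp only at hz ⊢
    rcases hz with hz | hz
    · rw [← hno]
      have e1 : ∀ᶠ q in (𝒩 : Filter (A × A)), ∀ᶠ r in (𝒩 : Filter (A × A)),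
          (R (p t q) (p t' r) ↔ Dlt R (𝒩.map (p t)) (𝒩.map (p t'))) :=
        ev_dec2 𝒩 𝒩 (fun q r => R (p t q) (p t' r))
      have e2 := h𝒢 (fun a b c d => (R (p t (a, b)) (p t' (c, d)) ↔
        Dlt R (𝒩.map (p t)) (𝒩.map (p t')))) e1
      have e3 : (∀ᶠ β in (𝒢 : Filter (ℕ → A)), R (p t (β k, β (k+1))) (p t' (β k', β (k'+1)))) ↔
          ∀ᶠ _β in (𝒢 : Filter (ℕ → A)), Dlt R (𝒩.map (p t)) (𝒩.map (p t')) :=
        eventually_congr (e2.mono fun β hβ => hβ k (k+1) k' (k'+1) (by omega) (by omega)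
          (by omega) (by omega))
      rw [eventually_const] at e3
      exact e3
    · have e1 : ∀ᶠ q in (𝒩 : Filter (A × A)), ∀ᶠ r in (𝒩 : Filter (A × A)),
          (R (p t r) (p t' q) ↔ Dgt R (𝒩.map (p t)) (𝒩.map (p t'))) :=
        ev_dec2 𝒩 𝒩 (fun q r => R (p t r) (p t' q))
      have e2 := h𝒢 (fun a b c d => (R (p t (c, d)) (p t' (a, b)) ↔
        Dgt R (𝒩.map (p t)) (𝒩.map (p t')))) e1
      have e3 : (∀ᶠ β in (𝒢 : Filter (ℕ → A)), R (p t (β k, β (k+1))) (p t' (β k', β (k'+1)))) ↔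
          ∀ᶠ _β in (𝒢 : Filter (ℕ → A)), Dgt R (𝒩.map (p t)) (𝒩.map (p t')) :=
        eventually_congr (e2.mono fun β hβ => hβ k' (k'+1) k (k+1) (by omega) (by omega)
          (by omega) (by omega))
      rw [eventually_const] at e3
      exact e3
  have fin : ∀ z0 z1 : Z, Relation.ReflTransGen EZ z0 z1 →
      (z0.1.1 + m ≤ z1.1.1 ∨ z1.1.1 + m ≤ z0.1.1) → False := by
    intro z0 z1 hr hz
    obtain ⟨n, q, hq0, hqn, hq1, hq2⟩ := chordless hr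
    have hstep : ∀ i < n, (q (i+1)).1.1 ≤ (q i).1.1 + 1 ∧ (q i).1.1 ≤ (q (i+1)).1.1 + 1 := by
      intro i hi
      by_contra hcn
      exact hfar (q i) (q (i+1)) (by omega) (hq1 i hi)
    have hall : ∀ i ≤ n, (q i).1.1 ≤ z0.1.1 + i ∧ z0.1.1 ≤ (q i).1.1 + i := by
      intro i
      induction i with
      | zero => intro _; rw [hq0]; omega
      | succ i ih =>
        intro hi
        have h1 := hstep i (by omega)
        have h2 := ih (by omega)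
        omega
    have h5 := hall n le_rfl
    rw [hqn] at h5
    apply hG.1
    refine xp_mono (by omega : m ≤ n) (xp_eg 𝒢 (fun i => F (q i)) n hq1 hq2 ?_)
    intro i j hij hj
    rw [hF, hF]
    exact hnoH _ _ (by have := (q i).2.2; omega) (by have := (q j).2.2; omega)
  rcases hend with ⟨e1, e2⟩ | ⟨e1, e2⟩
  · -- going down
    have hlink2 : ∀ (k : ℕ) (hk : k + 1 < m + 3),
        EZ (⟨k+1, hk⟩, ⟨s-1, by omega⟩) (⟨k, by omega⟩, ⟨0, hs0⟩) := by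
      intro k hk
      have h1 := hlast ⟨k+1, hk⟩
      rw [e2] at h1
      show Eg 𝒢 R (F (⟨k+1, hk⟩, ⟨s-1, by omega⟩)) (p 0 ∘ φ k)
      rw [e1]
      exact h1
    have hreach2 : ∀ (k : ℕ) (hk : k < m + 3),
        Relation.ReflTransGen EZ (⟨k, hk⟩, ⟨0, hs0⟩) (⟨0, by omega⟩, ⟨0, hs0⟩) := by
      intro k
      induction k with
      | zero => intro _; exact Relation.ReflTransGen.refl
      | succ k ih =>
        intro hk
        exact ((hreach1 ⟨k+1, hk⟩ (s-1) (by omega)).tail (hlink2 k hk)).trans (ih (by omega))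
    exact fin _ _ (hreach2 (m+2) (by omega)) (Or.inr (by dsimp only; omega))
  · have hlink2 : ∀ (k : ℕ) (hk : k + 1 < m + 3),
        EZ (⟨k, by omega⟩, ⟨s-1, by omega⟩) (⟨k+1, hk⟩, ⟨0, hs0⟩) := by
      intro k hk
      have h1 := hlast ⟨k, by omega⟩
      rw [e2] at h1
      show Eg 𝒢 R (F (⟨k, by omega⟩, ⟨s-1, by omega⟩)) (p 0 ∘ φ (k+1))
      rw [e1]
      exact h1
    have hreach2 : ∀ (k : ℕ) (hk : k < m + 3),
        Relation.ReflTransGen EZ (⟨0, by omega⟩, ⟨0, hs0⟩) (⟨k, hk⟩, ⟨0, hs0⟩) := by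
      intro k
      induction k with
      | zero => intro _; exact Relation.ReflTransGen.refl
      | succ k ih =>
        intro hk
        exact ((ih (by omega)).trans (hreach1 ⟨k, by omega⟩ (s-1) (by omega))).tail (hlink2 k hk)
    exact fin _ _ (hreach2 (m+2) (by omega)) (Or.inl (by dsimp only; omega))

end KD
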