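import Pool.Agent.KDir.Reach
import Pool.Agent.KDir.Wlud

set_option autoImplicit false

namespace KD

open Filter KBT

variable {W : Type*} {R : W → W → Prop}

theorem coreA1 {A A0 : Type*} {m : ℕ} (hG : Good R m) (𝒜 : Ultrafilter A) (𝒱 : Ultrafilter A0)
    (q : A0 → Ultrafilter W) (n0 : ℕ) (u : A0 → ℕ → Ultrafilter W)
    (𝒥 : A0 → Ultrafilter (ℕ → W))
    (hJ1 : ∀ᶠ a in (𝒱 : Filter A0), ∀ t ≤ n0, (𝒥 a).map (fun x => x t) = u a t)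
    (hJ2 : ∀ᶠ a in (𝒱 : Filter A0), ∀ t < n0, Eg (𝒥 a) R (fun x => x t) (fun x => x (t+1)))
    (hq : ∀ᶠ a in (𝒱 : Filter A0), u a n0 = q a)
    (C0 : Set W) (hC0 : ∀ᶠ a in (𝒱 : Filter A0), ∀ t ≤ n0, C0 ∈ u a t)
    (D : ℕ → Set W) (hD : ∀ t < n0, ∀ᶠ a in (𝒱 : Filter A0), DD R (u a t) ∩ C0 = D t)
    (e : ℕ) (𝒥' : Ultrafilter (ℕ → W))
    (hJ' : ∀ t < e, Eg 𝒥' R (fun x => x t) (fun x => x (t+1)))
    (𝒦 : Ultrafilter ((ℕ → W) × (A0 → (ℕ → W))))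
    (hK1 : 𝒦.map Prod.fst = 𝒥') (hK2 : ∀ a, 𝒦.map (fun k => k.2 a) = 𝒥 a)
    (hK3 : ∀ a, ∀ᶠ k in (𝒦 : Filter ((ℕ → W) × (A0 → (ℕ → W)))), k.1 e = k.2 a 0)
    (κ : A → (ℕ → W) × (A0 → (ℕ → W))) (α : A → A0) (hκ : 𝒜.map κ = 𝒦) (hα : 𝒜.map α = 𝒱)
    (hρ : ¬ ((∀ᶠ β in (𝒜 : Filter A), (κ β).1 0 ∈ DD R (q (α β))) ↔
      ∀ᶠ w in ((𝒥'.map (fun x => x 0) : Ultrafilter W) : Filter W),
        ∀ᶠ a in (𝒱 : Filter A0), w ∈ DD R (q a))) : False := by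
  classical
  set 𝒩 := prodU 𝒜 𝒜 with h𝒩
  let X : A → W := fun β => (κ β).1 0
  let G : ℕ → A × A → W := fun i b => (κ b.2).1 i
  let H : ℕ → A × A → W := fun t b => (κ b.2).2 (α b.1) t
  have hφ : 𝒩.map (fun b => (κ b.2).1) = 𝒥' := by
    refine Ultrafilter.eq_of_le ?_
    intro P hP
    rw [← hK1, ← hκ] at hP
    have h1 : ∀ᶠ β in (𝒜 : Filter A), (κ β).1 ∈ P := hP
    show ∀ᶠ b in (𝒩 : Filter (A × A)), (κ b.2).1 ∈ P
    rw [h𝒩, ev_prodU]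
    exact Eventually.of_forall fun _ => h1
  have hGe : ∀ i < e, Eg 𝒩 R (G i) (G (i+1)) := by
    intro i hi
    exact (marg_eg 𝒥' 𝒩 (fun b => (κ b.2).1) hφ (fun x => x i) (fun x => x (i+1))).mpr (hJ' i hi)
  have hGH : G e =ᶠ[(𝒩 : Filter (A × A))] H 0 := by
    show ∀ᶠ b in (𝒩 : Filter (A × A)), (κ b.2).1 e = (κ b.2).2 (α b.1) 0
    rw [h𝒩, ev_prodU]
    refine Eventually.of_forall fun β => ?_
    have h1 := hK3 (α β)
    rw [← hκ] at h1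
    exact h1
  have M1 : ∀ (a : A0) (S : (ℕ → W) → Prop), (∀ᶠ β in (𝒜 : Filter A), S ((κ β).2 a)) ↔
      ∀ᶠ j in (𝒥 a : Filter (ℕ → W)), S j := by
    intro a S
    rw [← hK2 a, ← hκ]
    exact Iff.rfl
  have M2 : ∀ S : A0 → Prop, (∀ᶠ β in (𝒜 : Filter A), S (α β)) ↔
      ∀ᶠ a in (𝒱 : Filter A0), S a := by
    intro S
    rw [← hα]
    exact Iff.rfl
  have M3 : ∀ S : A0 → (ℕ → W) → Prop, (∀ᶠ b in (𝒩 : Filter (A × A)), S (α b.1)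
      ((κ b.2).2 (α b.1))) ↔ ∀ᶠ a in (𝒱 : Filter A0), ∀ᶠ j in (𝒥 a : Filter (ℕ → W)), S a j := by
    intro S
    rw [h𝒩, ev_prodU]
    have h1 : (∀ᶠ β in (𝒜 : Filter A), ∀ᶠ β' in (𝒜 : Filter A), S (α β) ((κ β').2 (α β))) ↔
        ∀ᶠ β in (𝒜 : Filter A), ∀ᶠ j in (𝒥 (α β) : Filter (ℕ → W)), S (α β) j :=
      eventually_congr (Eventually.of_forall fun β => M1 (α β) (S (α β)))
    rw [h1]
    exact M2 (fun a => ∀ᶠ j in (𝒥 a : Filter (ℕ → W)), S a j)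
  have hrow : ∀ t ≤ n0, ∀ w : W, (∀ᶠ b in (𝒩 : Filter (A × A)), R (H t b) w) ↔
      ∀ᶠ a in (𝒱 : Filter A0), w ∈ DD R (u a t) := by
    intro t ht w
    rw [M3 (fun _ j => R (j t) w)]
    refine eventually_congr ?_
    filter_upwards [hJ1] with a ha
    rw [← ha t ht]
    exact Iff.rfl
  have hHe : ∀ t < n0, Eg 𝒩 R (H t) (H (t+1)) := by
    intro t ht
    have E1 : (∀ᶠ b in (𝒩 : Filter (A × A)), R (H t b) (H (t+1) b)) ↔
        ∀ᶠ a in (𝒱 : Filter A0), ∀ᶠ j in (𝒥 a : Filter (ℕ → W)), R (j t) (j (t+1)) :=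
      M3 (fun _ j => R (j t) (j (t+1)))
    have E2 : (∀ᶠ a in (𝒱 : Filter A0), ∀ᶠ j in (𝒥 a : Filter (ℕ → W)), R (j t) (j (t+1))) ↔
        ∀ᶠ a in (𝒱 : Filter A0), ¬ Dgt R (u a t) (u a (t+1)) := by
      refine eventually_congr ?_
      filter_upwards [hJ1, hJ2] with a h1 h2
      have h3 := h2 t ht
      unfold Eg at h3
      rw [h1 t ht.le, h1 (t+1) ht] at h3
      tauto
    have hin : ∀ᶠ b in (𝒩 : Filter (A × A)), H (t+1) b ∈ C0 := by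
      rw [M3 (fun _ j => j (t+1) ∈ C0)]
      filter_upwards [hJ1, hC0] with a h1 h2
      have h3 := h2 (t+1) ht
      rw [← h1 (t+1) ht] at h3
      exact h3
    have E3 : Dgt R (𝒩.map (H t)) (𝒩.map (H (t+1))) ↔
        ∀ᶠ a in (𝒱 : Filter A0), Dgt R (u a t) (u a (t+1)) := by
      have g1 : Dgt R (𝒩.map (H t)) (𝒩.map (H (t+1))) ↔ ∀ᶠ b1 in (𝒩 : Filter (A × A)),
        ∀ᶠ b in (𝒩 : Filter (A × A)), R (H t b) (H (t+1) b1) := Iff.rfl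
      have g2 : (∀ᶠ b1 in (𝒩 : Filter (A × A)), ∀ᶠ b in (𝒩 : Filter (A × A)),
          R (H t b) (H (t+1) b1)) ↔ ∀ᶠ b1 in (𝒩 : Filter (A × A)), H (t+1) b1 ∈ D t := by
        refine eventually_congr ?_
        filter_upwards [hin] with b1 hb1
        rw [hrow t ht.le]
        have g3 : (∀ᶠ a in (𝒱 : Filter A0), H (t+1) b1 ∈ DD R (u a t)) ↔
            ∀ᶠ _a in (𝒱 : Filter A0), H (t+1) b1 ∈ D t := by
          refine eventually_congr ?_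
          filter_upwards [hD t ht] with a ha
          rw [← ha]
          exact ⟨fun h => ⟨h, hb1⟩, fun h => h.1⟩
        rw [g3, eventually_const]
      have g4 : (∀ᶠ b1 in (𝒩 : Filter (A × A)), H (t+1) b1 ∈ D t) ↔
          ∀ᶠ a in (𝒱 : Filter A0), ∀ᶠ j in (𝒥 a : Filter (ℕ → W)), j (t+1) ∈ D t :=
        M3 (fun _ j => j (t+1) ∈ D t)
      rw [g1, g2, g4]
      refine eventually_congr ?_
      filter_upwards [hJ1, hC0, hD t ht] with a h1 h2 h3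
      have h4 : (∀ᶠ j in (𝒥 a : Filter (ℕ → W)), j (t+1) ∈ D t) ↔
          ∀ᶠ w in (((𝒥 a).map (fun x => x (t+1)) : Ultrafilter W) : Filter W), w ∈ D t := Iff.rfl
      rw [h4, h1 (t+1) ht]
      unfold Dgt
      refine eventually_congr ?_
      have h5 : ∀ᶠ w in (u a (t+1) : Filter W), w ∈ C0 := h2 (t+1) ht
      filter_upwards [h5] with w hw
      rw [← h3]
      exact ⟨fun h => h.1, fun h => ⟨h, hw⟩⟩
    unfold Eg
    rw [E1, E2, E3, ← ev_not]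
    tauto
  have hlast : Eg 𝒩 R (H n0) (X ∘ Prod.fst) := by
    have L1 : (∀ᶠ b in (𝒩 : Filter (A × A)), R (H n0 b) ((X ∘ Prod.fst) b)) ↔
        ∀ᶠ β in (𝒜 : Filter A), X β ∈ DD R (q (α β)) := by
      rw [h𝒩, ev_prodU]
      have h1 : ∀ᶠ β in (𝒜 : Filter A), u (α β) n0 = q (α β) ∧
          ∀ t ≤ n0, (𝒥 (α β)).map (fun x => x t) = u (α β) t :=
        (M2 (fun a => u a n0 = q a ∧ ∀ t ≤ n0, (𝒥 a).map (fun x => x t) = u a t)).mpr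
          (hq.and hJ1)
      refine eventually_congr ?_
      filter_upwards [h1] with β hβ
      rw [← hβ.1, ← hβ.2 n0 le_rfl]
      exact M1 (α β) (fun j => R (j n0) (X β))
    have L2 : Dgt R (𝒩.map (H n0)) (𝒩.map (X ∘ Prod.fst)) ↔
        ∀ᶠ w in ((𝒥'.map (fun x => x 0) : Ultrafilter W) : Filter W),
          ∀ᶠ a in (𝒱 : Filter A0), w ∈ DD R (q a) := by
      have g1 : Dgt R (𝒩.map (H n0)) (𝒩.map (X ∘ Prod.fst)) ↔ ∀ᶠ b1 in (𝒩 : Filter (A × A)),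
        ∀ᶠ b in (𝒩 : Filter (A × A)), R (H n0 b) (X b1.1) := Iff.rfl
      have g2 : ∀ w : W, (∀ᶠ b in (𝒩 : Filter (A × A)), R (H n0 b) w) ↔
          ∀ᶠ a in (𝒱 : Filter A0), w ∈ DD R (q a) := by
        intro w
        rw [hrow n0 le_rfl]
        refine eventually_congr ?_
        filter_upwards [hq] with a ha
        rw [ha]
      have g3 : (∀ᶠ b1 in (𝒩 : Filter (A × A)), ∀ᶠ b in (𝒩 : Filter (A × A)),
          R (H n0 b) (X b1.1)) ↔ ∀ᶠ b1 in (𝒩 : Filter (A × A)),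
          ∀ᶠ a in (𝒱 : Filter A0), X b1.1 ∈ DD R (q a) :=
        eventually_congr (Eventually.of_forall fun b1 => g2 (X b1.1))
      rw [g1, g3, h𝒩, ev_prodU]
      have g4 : (∀ᶠ β in (𝒜 : Filter A), ∀ᶠ _β' in (𝒜 : Filter A),
          ∀ᶠ a in (𝒱 : Filter A0), X β ∈ DD R (q a)) ↔
          ∀ᶠ β in (𝒜 : Filter A), ∀ᶠ a in (𝒱 : Filter A0), X β ∈ DD R (q a) :=
        eventually_congr (Eventually.of_forall fun β => eventually_const)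
      rw [← hK1, ← hκ]
      exact g4
    unfold Eg
    rw [L1, L2]
    exact hρ
  have c1 : ∀ i ≤ e, ConnG 𝒩 R (X ∘ Prod.snd) (G i) := by
    intro i
    induction i with
    | zero => intro _; exact Relation.ReflTransGen.refl
    | succ i ih => intro hi; exact connG_trans 𝒩 (ih (by omega)) (connG_of_eg 𝒩 (hGe i hi))
  have c2 : ∀ t ≤ n0, ConnG 𝒩 R (X ∘ Prod.snd) (H t) := by
    intro t
    induction t with
    | zero => intro _; exact connG_trans 𝒩 (c1 e le_rfl) (connG_of_eq 𝒩 hGH)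
    | succ t ih => intro ht; exact connG_trans 𝒩 (ih (by omega)) (connG_of_eg 𝒩 (hHe t ht))
  have c3 : Relation.TransGen (Eg 𝒩 R) (X ∘ Prod.snd) (X ∘ Prod.fst) := by
    rcases connG_cases 𝒩 (c2 n0 le_rfl) with h1 | h1
    · exact Relation.TransGen.single ((Eg_congr 𝒩 h1 (EventuallyEq.refl _ _)).mpr hlast)
    · exact h1.tail hlast
  exact wlud hG 𝒜 X (Or.inl c3)

/-- The amalgamation argument. -/
theorem coreA {A0 : Type*} {m : ℕ} (hG : Good R m) (𝒱 : Ultrafilter A0) (x : A0 → W)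
    (q : A0 → Ultrafilter W) (p : Ultrafilter W) (n0 : ℕ) (u : A0 → ℕ → Ultrafilter W)
    (hu : ∀ᶠ a in (𝒱 : Filter A0), u a 0 = p ∧ u a n0 = q a ∧
      ∀ t < n0, Arr R (u a t) (u a (t+1)))
    (C0 : Set W) (hC0 : ∀ᶠ a in (𝒱 : Filter A0), ∀ t ≤ n0, C0 ∈ u a t)
    (D : ℕ → Set W) (hD : ∀ t < n0, ∀ᶠ a in (𝒱 : Filter A0), DD R (u a t) ∩ C0 = D t)
    (hx : ∀ᶠ a in (𝒱 : Filter A0), ¬ (x a ∈ DD R (q a) ↔
      ∀ᶠ b in (𝒱 : Filter A0), x b ∈ DD R (q a)))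
    (hret : Relation.ReflTransGen (Arr R) (𝒱.map x) p) : False := by
  classical
  have hch : ∀ a, ∃ 𝒥 : Ultrafilter (ℕ → W), 𝒥.map (fun x => x 0) = p ∧
      ((u a 0 = p ∧ u a n0 = q a ∧ ∀ t < n0, Arr R (u a t) (u a (t+1))) →
        (∀ t ≤ n0, 𝒥.map (fun x => x t) = u a t) ∧
        ∀ t < n0, Eg 𝒥 R (fun x => x t) (fun x => x (t+1))) := by
    intro a
    by_cases ha : u a 0 = p ∧ u a n0 = q a ∧ ∀ t < n0, Arr R (u a t) (u a (t+1))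
    · obtain ⟨𝒥, h1, h2⟩ := pathreal (u a) n0 ha.2.2
      exact ⟨𝒥, (h1 0 (Nat.zero_le _)).trans ha.1, fun _ => ⟨h1, h2⟩⟩
    · refine ⟨p.map (fun w _ => w), ?_, fun h => absurd h ha⟩
      rw [Ultrafilter.map_map]
      exact Ultrafilter.map_id p
  choose 𝒥 hJ0 hJ using hch
  obtain ⟨e, w, hw0, hwe, hw1, _⟩ := chordless hret
  obtain ⟨𝒥', hJ'1, hJ'2⟩ := pathreal w e hw1
  obtain ⟨𝒦, hK1, hK2, hK3⟩ := amalg 𝒥' (fun x => x e) 𝒥 (fun _ x => x 0)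
    (fun a => by rw [hJ0 a, hJ'1 e le_rfl, hwe])
  have hgJ1 : ∀ᶠ a in (𝒱 : Filter A0), ∀ t ≤ n0, (𝒥 a).map (fun x => x t) = u a t :=
    hu.mono fun a ha => (hJ a ha).1
  have hgJ2 : ∀ᶠ a in (𝒱 : Filter A0), ∀ t < n0,
      Eg (𝒥 a) R (fun x => x t) (fun x => x (t+1)) := hu.mono fun a ha => (hJ a ha).2
  have hq : ∀ᶠ a in (𝒱 : Filter A0), u a n0 = q a := hu.mono fun a ha => ha.2.1
  have hq0 : 𝒥'.map (fun x => x 0) = 𝒱.map x := (hJ'1 0 (Nat.zero_le _)).trans hw0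
  set ρ1 : Prop := ∀ᶠ w in ((𝒥'.map (fun x => x 0) : Ultrafilter W) : Filter W),
        ∀ᶠ a in (𝒱 : Filter A0), w ∈ DD R (q a) with hρ1
  set ρ0 : Prop := ∀ᶠ a in (𝒱 : Filter A0), x a ∈ DD R (q a) with hρ0
  set ρ2 : Prop := ∀ᶠ a in (𝒱 : Filter A0), ∀ᶠ b in (𝒱 : Filter A0), x b ∈ DD R (q a) with hρ2
  have h02 : ¬ (ρ0 ↔ ρ2) := by
    obtain ⟨a, ⟨h1, h2⟩, h3⟩ := ((hx.and (ev_dec 𝒱 (fun a => x a ∈ DD R (q a)))).and
      (ev_dec 𝒱 (fun a => ∀ᶠ b in (𝒱 : Filter A0), x b ∈ DD R (q a)))).exists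
    intro h4
    apply h1
    rw [h2, h3]
    exact h4
  by_cases h21 : ρ2 ↔ ρ1
  · -- the first copy knows x
    have h01 : ¬ (ρ0 ↔ ρ1) := fun h => h02 (h.trans h21.symm)
    obtain ⟨𝒜, hA1, hA2, hA3⟩ := amalg 𝒦 (fun k => k.1 0) (fun _ : Unit => 𝒱) (fun _ => x)
      (fun _ => by
        have e1 : 𝒦.map (fun k => k.1 0) = (𝒦.map Prod.fst).map (fun x => x 0) := rfl
        rw [e1, hK1, hq0])
    refine coreA1 hG 𝒜 𝒱 q n0 u 𝒥 hgJ1 hgJ2 hq C0 hC0 D hD e 𝒥' hJ'2 𝒦 hK1 hK2 hK3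
      Prod.fst (fun β => β.2 ()) hA1 (hA2 ()) ?_
    have e2 : (∀ᶠ β in (𝒜 : Filter (((ℕ → W) × (A0 → (ℕ → W))) × (Unit → A0))),
        (Prod.fst β).1 0 ∈ DD R (q (β.2 ()))) ↔ ρ0 := by
      have e3 : (∀ᶠ β in (𝒜 : Filter (((ℕ → W) × (A0 → (ℕ → W))) × (Unit → A0))),
        (Prod.fst β).1 0 ∈ DD R (q (β.2 ()))) ↔
        ∀ᶠ β in (𝒜 : Filter (((ℕ → W) × (A0 → (ℕ → W))) × (Unit → A0))),
          x (β.2 ()) ∈ DD R (q (β.2 ())) := by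
        refine eventually_congr ?_
        filter_upwards [hA3 ()] with β hβ
        rw [hβ]
      rw [e3, hρ0, ← hA2 ()]
      exact Iff.rfl
    rw [e2]
    exact h01
  · refine coreA1 hG (prodU 𝒱 𝒦) 𝒱 q n0 u 𝒥 hgJ1 hgJ2 hq C0 hC0 D hD e 𝒥' hJ'2 𝒦 hK1 hK2 hK3
      Prod.snd Prod.fst ?_ ?_ ?_
    · refine Ultrafilter.eq_of_le ?_
      intro P hP
      have h1 : ∀ᶠ k in (𝒦 : Filter ((ℕ → W) × (A0 → (ℕ → W)))), k ∈ P := hP
      show ∀ᶠ b in (prodU 𝒱 𝒦 : Filter (A0 × ((ℕ → W) × (A0 → (ℕ → W))))), b.2 ∈ P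
      rw [ev_prodU]
      exact Eventually.of_forall fun _ => h1
    · refine Ultrafilter.eq_of_le ?_
      intro P hP
      have h1 : ∀ᶠ a in (𝒱 : Filter A0), a ∈ P := hP
      show ∀ᶠ b in (prodU 𝒱 𝒦 : Filter (A0 × ((ℕ → W) × (A0 → (ℕ → W))))), b.1 ∈ P
      rw [ev_prodU]
      exact h1.mono fun a ha => Eventually.of_forall fun _ => ha
    · have e2 : (∀ᶠ b in (prodU 𝒱 𝒦 : Filter (A0 × ((ℕ → W) × (A0 → (ℕ → W))))),
          b.2.1 0 ∈ DD R (q b.1)) ↔ ρ2 := by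
        rw [ev_prodU, hρ2]
        refine eventually_congr (Eventually.of_forall fun a => ?_)
        have e3 : (∀ᶠ b in (𝒱 : Filter A0), x b ∈ DD R (q a)) ↔
            ∀ᶠ w in ((𝒱.map x : Ultrafilter W) : Filter W), w ∈ DD R (q a) := Iff.rfl
        rw [e3, ← hq0, ← hK1]
        exact Iff.rfl
      rw [e2]
      exact h21

end KD
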