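import Pool.Agent.KBT.Defs

/-!
# Definitions for the directed case

R is an arbitrary binary relation on a type V.
-/

set_option autoImplicit false

namespace KD

open Filter KBT

/-- Two runs, every row sees exactly one of the two previous points. -/
def XP {V : Type*} (R : V → V → Prop) (m : ℕ) : Prop :=
  ∃ v w : ℕ → V,
    (∀ a < m, (R (v (a+1)) (v a) ↔ ¬ R (v (a+1)) (w a)) ∧
              (R (w (a+1)) (v a) ↔ ¬ R (w (a+1)) (w a))) ∧
    (∀ a b, a + 2 ≤ b → b ≤ m →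
        (R (v b) (v a) ↔ R (v b) (w a)) ∧ (R (w b) (v a) ↔ R (w b) (w a)))

/-- Linear orders. -/
def LO {V : Type*} (R : V → V → Prop) (L : ℕ) : Prop :=
  ∃ x : ℕ → V, ∀ n < L, ∀ n' < L, n ≠ n' → (R (x n') (x n) ↔ n < n')

/-- Arrays of L blocks; every block consists of two runs of length s; the first threads see the
last thread exactly in the earlier blocks. -/
def FA {V : Type*} (R : V → V → Prop) (s L : ℕ) : Prop :=
  ∃ v w : ℕ → ℕ → V,
    (∀ n < L, ∀ b < s, (R (v n (b+1)) (v n b) ↔ ¬ R (v n (b+1)) (w n b)) ∧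
      (R (w n (b+1)) (v n b) ↔ ¬ R (w n (b+1)) (w n b))) ∧
    (∀ n < L, ∀ b b', b + 2 ≤ b' → b' ≤ s →
      (R (v n b') (v n b) ↔ R (v n b') (w n b)) ∧ (R (w n b') (v n b) ↔ R (w n b') (w n b))) ∧
    (∀ n n', n < n' → n' < L → ∀ b ≤ s, ∀ b' ≤ s,
      (R (v n' b') (v n b) ↔ R (v n' b') (w n b)) ∧
      (R (w n' b') (v n b) ↔ R (w n' b') (w n b))) ∧
    (∀ n n', n < n' → n' < L → R (v n' 0) (v n s) ∧ R (w n' 0) (v n s)) ∧
    (∀ n n', n' < n → n < L → ¬ R (v n' 0) (v n s) ∧ ¬ R (w n' 0) (v n s))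

/-- None of the patterns of size m. -/
def Good {V : Type*} (R : V → V → Prop) (m : ℕ) : Prop :=
  ¬ XP R m ∧ ¬ LO R m ∧ ∀ s, 1 ≤ s → ¬ FA R s m

section types

variable {W : Type*}

/-- p sees q nontrivially: R is not constant on P x Q. -/
def Arr (R : W → W → Prop) (p q : Ultrafilter W) : Prop :=
  ∀ P ∈ p, ∀ Q ∈ q, (∃ x ∈ P, ∃ y ∈ Q, R x y) ∧ (∃ x ∈ P, ∃ y ∈ Q, ¬ R x y)

/-- The points seen by p. -/
def DD (R : W → W → Prop) (p : Ultrafilter W) : Set W :=
  {s | ∀ᶠ x in (p : Filter W), R x s}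

/-- The limit relation, column first. -/
def Dgt (R : W → W → Prop) (p q : Ultrafilter W) : Prop :=
  ∀ᶠ y in (q : Filter W), ∀ᶠ x in (p : Filter W), R x y

/-- The limit relation, row first. -/
def Dlt (R : W → W → Prop) (p q : Ultrafilter W) : Prop :=
  ∀ᶠ x in (p : Filter W), ∀ᶠ y in (q : Filter W), R x y

/-- half graph between the types -/
def Hh (R : W → W → Prop) (p q : Ultrafilter W) : Prop := ¬ (Dlt R p q ↔ Dgt R p q)

/-- Exceptional pairs of elements of an ultrapower. -/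
def Eg {J : Type*} (𝒥 : Ultrafilter J) (R : W → W → Prop) (f g : J → W) : Prop :=
  ¬ ((∀ᶠ j in (𝒥 : Filter J), R (f j) (g j)) ↔ Dgt R (𝒥.map f) (𝒥.map g))

/-- connected by exceptional pairs or equality almost everywhere -/
def ConnG {J : Type*} (𝒥 : Ultrafilter J) (R : W → W → Prop) (f g : J → W) : Prop :=
  Relation.ReflTransGen (fun f g : J → W => Eg 𝒥 R f g ∨ f =ᶠ[(𝒥 : Filter J)] g) f g

end types

theorem ev_map {α β : Type*} (𝒰 : Ultrafilter α) (f : α → β) (P : β → Prop) :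
    (∀ᶠ b in ((𝒰.map f : Ultrafilter β) : Filter β), P b) ↔ ∀ᶠ a in (𝒰 : Filter α), P (f a) :=
  Iff.rfl

end KD
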