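import Pool.Agent.KDir.Pld
import Pool.Agent.KBT.One

set_option autoImplicit false

namespace KD

open Filter KBT

/-- Gluing of a bottom part A and a top part B. -/
theorem glue (c k N0 : ℕ) : ∃ c' : ℕ, ∀ (N1 : ℕ) {V : Type} (R : V → V → Prop) (A B : Set V)
    (κ : V → Fin k) (Φ : Fin k → Fin k → Prop),
    (∀ x ∈ B, x ∉ A) → (∀ x ∈ A, ∀ y ∈ B, (R x y ↔ Φ (κ x) (κ y))) →
    Tame R A (c * k) N0 → Tame R B c' N1 → Tame R (A ∪ B) c (N0 + N1) := by
  classical
  let Col : Type := Fin c × Fin k × Set (Fin N0)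
  refine ⟨Fintype.card Col, ?_⟩
  intro N1 V R A B κ Φ hdis hAB hA hB χ
  obtain ⟨πA, hA1, hA2⟩ := hA (fun x => finProdFinEquiv (χ x, κ x))
  have hA3 : ∀ x ∈ A, ∀ y ∈ A, πA x = πA y → χ x = χ y ∧ κ x = κ y := by
    intro x hx y hy hxy
    have := finProdFinEquiv.injective (hA2 x hx y hy hxy)
    exact ⟨congrArg Prod.fst this, congrArg Prod.snd this⟩
  let col : V → Col := fun x => (χ x, κ x, {i | ∃ z ∈ A, R x z ∧ πA z = i})
  obtain ⟨πB, hB1, hB2⟩ := hB (fun x => Fintype.equivFin Col (col x))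
  have hB3 : ∀ x ∈ B, ∀ y ∈ B, πB x = πB y → col x = col y :=
    fun x hx y hy hxy => (Fintype.equivFin Col).injective (hB2 x hx y hy hxy)
  let pp : V → Fin N0 ⊕ Fin N1 := fun x => if x ∈ A then Sum.inl (πA x) else Sum.inr (πB x)
  have hin : ∀ x ∈ A, pp x = Sum.inl (πA x) := fun x hx => by simp only [pp, hx, if_true]
  have hout : ∀ x, x ∉ A → pp x = Sum.inr (πB x) := fun x hx => by simp only [pp, hx, if_false]
  have hcase : ∀ x ∈ A ∪ B, ∀ y ∈ A ∪ B, pp x = pp y →
      (x ∈ A ∧ y ∈ A ∧ πA x = πA y) ∨ ((x ∈ B ∧ x ∉ A) ∧ (y ∈ B ∧ y ∉ A) ∧ πB x = πB y) := by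
    intro x hx y hy hxy
    by_cases h1 : x ∈ A
    · by_cases h2 : y ∈ A
      · rw [hin x h1, hin y h2] at hxy
        exact Or.inl ⟨h1, h2, Sum.inl.inj hxy⟩
      · rw [hin x h1, hout y h2] at hxy
        cases hxy
    · by_cases h2 : y ∈ A
      · rw [hout x h1, hin y h2] at hxy
        cases hxy
      · rw [hout x h1, hout y h2] at hxy
        have hx' : x ∈ B := hx.resolve_left h1
        have hy' : y ∈ B := hy.resolve_left h2
        exact Or.inr ⟨⟨hx', h1⟩, ⟨hy', h2⟩, Sum.inr.inj hxy⟩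
  refine ⟨fun x => finSumFinEquiv (pp x), ?_, ?_⟩
  · intro x hx y hy hxy z hz hxz
    have hpp : pp x = pp y := finSumFinEquiv.injective hxy
    rcases hcase x hx y hy hpp with ⟨h1, h2, h3⟩ | ⟨⟨h1, h1'⟩, ⟨h2, h2'⟩, h3⟩
    · by_cases hzA : z ∈ A
      · obtain ⟨z', hz', h4, h5⟩ := hA1 x h1 y h2 h3 z hzA hxz
        refine ⟨z', Or.inl hz', h4, ?_⟩
        dsimp only
        rw [hin z' hz', hin z hzA, h5]
      · have hzB : z ∈ B := hz.resolve_left hzA
        refine ⟨z, hz, ?_, rfl⟩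
        have h4 := (hAB x h1 z hzB).mp hxz
        rw [(hA3 x h1 y h2 h3).2] at h4
        exact (hAB y h2 z hzB).mpr h4
    · by_cases hzA : z ∈ A
      · have h4 := hB3 x h1 y h2 h3
        have h5 : πA z ∈ (col x).2.2 := ⟨z, hzA, hxz, rfl⟩
        rw [h4] at h5
        obtain ⟨z', hz', h6, h7⟩ := h5
        refine ⟨z', Or.inl hz', h6, ?_⟩
        dsimp only
        rw [hin z' hz', hin z hzA, h7]
      · have hzB : z ∈ B := hz.resolve_left hzA
        obtain ⟨z', hz', h4, h5⟩ := hB1 x h1 y h2 h3 z hzB hxz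
        refine ⟨z', Or.inr hz', h4, ?_⟩
        dsimp only
        rw [hout z' (hdis z' hz'), hout z hzA, h5]
  · intro x hx y hy hxy
    have hpp : pp x = pp y := finSumFinEquiv.injective hxy
    rcases hcase x hx y hy hpp with ⟨h1, h2, h3⟩ | ⟨⟨h1, _⟩, ⟨h2, _⟩, h3⟩
    · exact (hA3 x h1 y h2 h3).1
    · exact congrArg Prod.fst (hB3 x h1 y h2 h3)

/-- Reachability inside C. -/
def Rch {V : Type*} (R : V → V → Prop) {k : ℕ} (κ : V → Fin k) (Φ : Fin k → Fin k → Prop)
    (C : Set V) (a b : V) : Prop := Relation.ReflTransGen (EC R κ Φ C) a b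

/-- levels -/
def DJ {V : Type*} (R : V → V → Prop) {k : ℕ} (κ : V → Fin k) (Φ : Fin k → Fin k → Prop)
    (C : Set V) : ℕ → Set V
  | 0 => ∅
  | j+1 => {x | x ∈ C ∧ ∀ y, Rch R κ Φ C x y → ¬ Rch R κ Φ C y x → y ∈ DJ R κ Φ C j}

/-- strong components -/
def cmp {V : Type*} (R : V → V → Prop) {k : ℕ} (κ : V → Fin k) (Φ : Fin k → Fin k → Prop)
    (C : Set V) (x : V) : Set V := {y | Rch R κ Φ C x y ∧ Rch R κ Φ C y x}

section lev

variable {V : Type*} {R : V → V → Prop} {k : ℕ} {κ : V → Fin k} {Φ : Fin k → Fin k → Prop}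
  {C : Set V}

theorem rch_mem {x y : V} (hx : x ∈ C) (h : Rch R κ Φ C x y) : y ∈ C := by
  unfold Rch at h
  induction h with
  | refl => exact hx
  | tail _ h _ => exact h.2.2

theorem cmp_eq {x y : V} : cmp R κ Φ C x = cmp R κ Φ C y ↔
    Rch R κ Φ C x y ∧ Rch R κ Φ C y x := by
  constructor
  · intro h
    have h1 : y ∈ cmp R κ Φ C y := ⟨Relation.ReflTransGen.refl, Relation.ReflTransGen.refl⟩
    rw [← h] at h1
    exact h1
  · rintro ⟨h1, h2⟩
    ext z
    constructor
    · rintro ⟨h3, h4⟩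
      exact ⟨Relation.ReflTransGen.trans h2 h3, Relation.ReflTransGen.trans h4 h1⟩
    · rintro ⟨h3, h4⟩
      exact ⟨Relation.ReflTransGen.trans h1 h3, Relation.ReflTransGen.trans h4 h2⟩

theorem DJ_sub (j : ℕ) : DJ R κ Φ C j ⊆ C := by
  cases j with
  | zero => exact Set.empty_subset _
  | succ j => exact fun x hx => hx.1

theorem DJ_mono (j : ℕ) : DJ R κ Φ C j ⊆ DJ R κ Φ C (j+1) := by
  induction j with
  | zero => exact Set.empty_subset _
  | succ j ih =>
    intro x hx
    exact ⟨hx.1, fun y h1 h2 => ih (hx.2 y h1 h2)⟩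

theorem DJ_closed (j : ℕ) {x y : V} (hx : x ∈ DJ R κ Φ C j) (h : Rch R κ Φ C x y) :
    y ∈ DJ R κ Φ C j := by
  cases j with
  | zero => exact hx
  | succ j =>
    refine ⟨rch_mem hx.1 h, ?_⟩
    intro z h1 h2
    refine hx.2 z (Relation.ReflTransGen.trans h h1) ?_
    intro h3
    exact h2 (Relation.ReflTransGen.trans h3 h)

theorem DJ_chain (j : ℕ) {x : V} (hx : x ∈ C) (h : x ∉ DJ R κ Φ C j) :
    ∃ p : ℕ → V, p 0 = x ∧ ∀ i < j, Rch R κ Φ C (p i) (p (i+1)) ∧
      ¬ Rch R κ Φ C (p (i+1)) (p i) := by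
  induction j generalizing x with
  | zero => exact ⟨fun _ => x, rfl, fun i hi => absurd hi (Nat.not_lt_zero i)⟩
  | succ j ih =>
    have h1 : ∃ y, Rch R κ Φ C x y ∧ ¬ Rch R κ Φ C y x ∧ y ∉ DJ R κ Φ C j := by
      by_contra hcon
      apply h
      refine ⟨hx, fun y h2 h3 => ?_⟩
      by_contra h4
      exact hcon ⟨y, h2, h3, h4⟩
    obtain ⟨y, h2, h3, h4⟩ := h1
    obtain ⟨p, h5, h6⟩ := ih (rch_mem hx h2) h4
    refine ⟨fun i => if i = 0 then x else p (i-1), by simp, ?_⟩
    intro i hi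
    by_cases h7 : i = 0
    · subst h7
      simp only [if_true, Nat.zero_add, Nat.sub_self]
      have h8 : (1 : ℕ) ≠ 0 := by omega
      simp only [h8, if_false, h5]
      exact ⟨h2, h3⟩
    · have h8 : i + 1 ≠ 0 := by omega
      simp only [h7, h8, if_false]
      have h9 : i + 1 - 1 = (i - 1) + 1 := by omega
      rw [h9]
      exact h6 (i-1) (by omega)

end lev

theorem tame_empty {V : Type*} {R : V → V → Prop} (c : ℕ) : Tame R (∅ : Set V) c 1 := by
  intro χ
  exact ⟨fun _ => 0, fun x hx => absurd hx (Set.notMem_empty x),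
    fun x hx => absurd hx (Set.notMem_empty x)⟩

/-- A sequence which is not tame contains a strong component which is not tame. -/
theorem dld {V : Type} {R : V → V → Prop} {m : ℕ} (hG : Good R m) {k : ℕ} (C : ℕ → Set V)
    (κ : ℕ → V → Fin k) (Φ : ℕ → Fin k → Fin k → Prop) (hC : NT R C) :
    ∃ K : ℕ → Set V, NT R K ∧ (∀ n, K n ⊆ C n) ∧
      ∀ n, ∀ x ∈ K n, ∀ y ∈ K n, Relation.ReflTransGen (EC R (κ n) (Φ n) (C n)) x y := by
  classical
  by_cases hK : ∀ c' : ℕ, ∃ N : ℕ, ∀ᶠ n in (hyperfilter ℕ : Filter ℕ), ∀ w : Set V,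
      Tame R (C n ∩ {x | cmp R (κ n) (Φ n) (C n) x = w}) c' N
  · exfalso
    have key : ∀ j : ℕ, ∀ c : ℕ, ∃ N : ℕ, ∀ᶠ n in (hyperfilter ℕ : Filter ℕ),
        Tame R (DJ R (κ n) (Φ n) (C n) j) c N := by
      intro j
      induction j with
      | zero => exact fun c => ⟨1, Eventually.of_forall fun n => tame_empty c⟩
      | succ j ih =>
        intro c
        obtain ⟨N0, hN0⟩ := ih (c * k)
        obtain ⟨c', hc'⟩ := glue c k N0
        obtain ⟨N, hN⟩ := hK (c' * k)
        obtain ⟨g, hg⟩ := dl c' k N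
        refine ⟨N0 + g, ?_⟩
        filter_upwards [hN0, hN] with n h1 h2
        set A := DJ R (κ n) (Φ n) (C n) j with hA
        set B := DJ R (κ n) (Φ n) (C n) (j+1) \ A with hB
        have hAB : A ∪ B = DJ R (κ n) (Φ n) (C n) (j+1) := by
          rw [hB]
          exact Set.union_sdiff_cancel (DJ_mono j)
        rw [← hAB]
        refine hc' g R A B (κ n) (Φ n) (fun x hx => hx.2) ?_ h1 ?_
        · intro x hx y hy
          by_contra hE
          have hxC : x ∈ C n := DJ_sub j hx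
          have hyC : y ∈ C n := hy.1.1
          exact hy.2 (DJ_closed j hx (Relation.ReflTransGen.single ⟨hE, hxC, hyC⟩))
        · refine hg R B (κ n) (Φ n) (cmp R (κ n) (Φ n) (C n)) ?_ ?_
          · intro x hx y hy hxy
            by_contra hE
            have hxC : x ∈ C n := hx.1.1
            have hyC : y ∈ C n := hy.1.1
            have h3 : Rch R (κ n) (Φ n) (C n) x y := Relation.ReflTransGen.single ⟨hE, hxC, hyC⟩
            apply hxy
            rw [cmp_eq]
            refine ⟨h3, ?_⟩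
            by_contra h4
            exact hy.2 (hx.1.2 y h3 h4)
          · intro w
            by_cases hw : ∃ x ∈ B, cmp R (κ n) (Φ n) (C n) x = w
            · obtain ⟨x, hx, hxw⟩ := hw
              have hset : B ∩ {x | cmp R (κ n) (Φ n) (C n) x = w} =
                  C n ∩ {x | cmp R (κ n) (Φ n) (C n) x = w} := by
                ext y
                constructor
                · rintro ⟨h3, h4⟩
                  exact ⟨h3.1.1, h4⟩
                · rintro ⟨h3, h4⟩
                  refine ⟨?_, h4⟩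
                  have h5 : cmp R (κ n) (Φ n) (C n) x = cmp R (κ n) (Φ n) (C n) y :=
                    hxw.trans (Eq.symm h4)
                  rw [cmp_eq] at h5
                  exact ⟨DJ_closed (j+1) hx.1 h5.1, fun h6 => hx.2 (DJ_closed j h6 h5.2)⟩
              rw [hset]
              exact h2 w
            · have hset : B ∩ {x | cmp R (κ n) (Φ n) (C n) x = w} = ∅ := by
                ext y
                constructor
                · rintro ⟨h3, h4⟩
                  exact absurd ⟨y, h3, h4⟩ hw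
                · exact fun h => absurd h (Set.notMem_empty y)
              rw [hset]
              intro χ
              obtain ⟨π, _, _⟩ := h2 w χ
              exact ⟨π, fun x hx => absurd hx (Set.notMem_empty x),
                fun x hx => absurd hx (Set.notMem_empty x)⟩
    obtain ⟨d, hd⟩ := chain_bd hG k
    obtain ⟨c, hc⟩ := hC
    obtain ⟨N, hN⟩ := key (d+1) c
    obtain ⟨n, h1, h2⟩ := (hN.and (hc N)).exists
    apply h2
    have hset : DJ R (κ n) (Φ n) (C n) (d+1) = C n := by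
      refine Set.Subset.antisymm (DJ_sub _) ?_
      intro x hx
      by_contra h3
      obtain ⟨p, h4, h5⟩ := DJ_chain (d+1) hx h3
      have h6 := hd (κ n) (Φ n) (C n) (d+1) p h5
      omega
    rw [hset] at h1
    exact h1
  · push Not at hK
    obtain ⟨c', hc'⟩ := hK
    have h1 : ∀ N, ∀ᶠ n in (hyperfilter ℕ : Filter ℕ), ∃ w : Set V,
        ¬ Tame R (C n ∩ {x | cmp R (κ n) (Φ n) (C n) x = w}) c' N := by
      intro N
      exact hc' N
    obtain ⟨w, hw⟩ := diag (β := Set V)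
      (fun n N w => ¬ Tame R (C n ∩ {x | cmp R (κ n) (Φ n) (C n) x = w}) c' N)
      (fun n N N' w hNN h1 h2 => h1 (tame_mono hNN h2)) h1
    refine ⟨fun n => C n ∩ {x | cmp R (κ n) (Φ n) (C n) x = w n}, ⟨c', hw⟩,
      fun n => Set.inter_subset_left, ?_⟩
    intro n x hx y hy
    have h2 : cmp R (κ n) (Φ n) (C n) x = cmp R (κ n) (Φ n) (C n) y := hx.2.trans (Eq.symm hy.2)
    rw [cmp_eq] at h2
    exact h2.1

end KD
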