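import Pool.Agent.KDir.Kill

set_option autoImplicit false

namespace KD

open KBT

variable {A : Type} [BooleanAlgebra A]

theorem ix_lt {s n n' b b' : ℕ} (hb : b ≤ s) (h : n < n' ∨ (n = n' ∧ b < b')) :
    b + n * (s+1) < b' + n' * (s+1) := by
  rcases h with h | ⟨h1, h2⟩
  · have h3 : (n+1) * (s+1) ≤ n' * (s+1) := Nat.mul_le_mul_right _ h
    have h4 : (n+1) * (s+1) = n * (s+1) + (s+1) := by ring
    omega
  · subst h1
    omega

theorem ix_bd {s n b m : ℕ} (hb : b ≤ s) (hn : n ≤ m) : b + n * (s+1) < (m+1) * (s+1) := by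
  have h3 : (n+1) * (s+1) ≤ (m+1) * (s+1) := Nat.mul_le_mul_right _ (by omega)
  have h4 : (n+1) * (s+1) = n * (s+1) + (s+1) := by ring
  omega

/-- Long arrays among the points give large 9-generated subalgebras. -/
theorem fakill {f : A → A} (htop : f ⊤ = ⊤) (hinf : ∀ a b : A, f (a ⊓ b) = f a ⊓ f b) {s m : ℕ}
    (hs : 1 ≤ s) (hFA : FA (Rel f) s (m+1)) :
    ∃ (g : Fin 9 → A) (U : ℕ → A), (∀ i < m, Gen f g (U i)) ∧ ∀ i j, i < j → j < m → U i ≠ U j := by
  classical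
  obtain ⟨v, w, q1, q2, q3, q4, q5⟩ := hFA
  let z : Bool → ℕ → ℕ → Pt A := fun c n b => cond c (w n b) (v n b)
  let p : ℕ → Pt A := fun i => z (decide (i % 2 = 1)) (i / 2 / (s+1)) (i / 2 % (s+1))
  obtain ⟨P, hP1, hP2, hP3⟩ := liftQ htop hinf p (2 * ((m+1) * (s+1)))
  let ix : Bool → ℕ → ℕ → ℕ := fun c n b => 2 * (b + n * (s+1)) + (cond c 1 0)
  have hix : ∀ c n b, b ≤ s → p (ix c n b) = z c n b := by
    intro c n b hb
    have h1 : ix c n b / 2 = b + n * (s+1) := by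
      cases c <;> simp only [ix, cond_true, cond_false] <;> omega
    have h2 : (b + n * (s+1)) / (s+1) = n := by
      rw [Nat.add_mul_div_right _ _ (Nat.succ_pos s), Nat.div_eq_of_lt (by omega), Nat.zero_add]
    have h3 : (b + n * (s+1)) % (s+1) = b := by
      rw [Nat.add_mul_mod_self_right, Nat.mod_eq_of_lt (by omega)]
    have h4 : decide (ix c n b % 2 = 1) = c := by
      cases c
      · have : ¬ (ix false n b % 2 = 1) := by
          simp only [ix, cond_false]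
          omega
        simp only [this, decide_false]
      · have : (ix true n b % 2 = 1) := by
          simp only [ix, cond_true]
          omega
        simp only [this, decide_true]
    show z (decide (ix c n b % 2 = 1)) (ix c n b / 2 / (s+1)) (ix c n b / 2 % (s+1)) = z c n b
    rw [h1, h2, h3, h4]
  have hixb : ∀ c n b, b ≤ s → n ≤ m → ix c n b < 2 * ((m+1) * (s+1)) := by
    intro c n b hb hn
    have h1 := ix_bd hb hn
    cases c <;> simp only [ix, cond_true, cond_false] <;> omega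
  have hixl : ∀ c c' n n' b b', b ≤ s → (n < n' ∨ (n = n' ∧ b < b')) →
      ix c n b < ix c' n' b' := by
    intro c c' n n' b b' hb h
    have h1 := ix_lt hb h
    cases c <;> cases c' <;> simp only [ix, cond_true, cond_false] <;> omega
  let Z : Bool → ℕ → ℕ → A := fun c n b => P (ix c n b)
  have hZ1 : ∀ c n b, b ≤ s → n ≤ m → Z c n b ∈ (z c n b).s := by
    intro c n b hb hn
    have h1 := hP1 (ix c n b) (hixb c n b hb hn)
    rw [hix c n b hb] at h1
    exact h1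
  have hZ2 : ∀ c c' n n' b b', b ≤ s → b' ≤ s → n' ≤ m → (n < n' ∨ (n = n' ∧ b < b')) →
      ∀ F : Pt A, Z c' n' b' ∈ F.s → (dia f (Z c n b) ∈ F.s ↔ Rel f (z c' n' b') (z c n b)) := by
    intro c c' n n' b b' hb hb' hn' h F hF
    have h1 := hP2 (ix c n b) (ix c' n' b') (hixl c c' n n' b b' hb h) (hixb c' n' b' hb' hn') F hF
    rw [hix c n b hb, hix c' n' b' hb'] at h1
    exact h1
  have hZ3 : ∀ c c' n n' b b', b ≤ s → b' ≤ s → n ≤ m → n' ≤ m →
      ¬ Rel f (z c' n' b') (z c n b) → ∀ F : Pt A, Z c' n' b' ∈ F.s → dia f (Z c n b) ∉ F.s := by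
    intro c c' n n' b b' hb hb' hn hn' h F hF
    refine hP3 (ix c n b) (ix c' n' b') (hixb c n b hb hn) (hixb c' n' b' hb' hn') ?_ F hF
    rw [hix c n b hb, hix c' n' b' hb']
    exact h
  let X : ℕ → ℕ → A := fun n b => (dia f (Z false n b) ⊓ (dia f (Z true n b))ᶜ) ⊔
    ((dia f (Z false n b))ᶜ ⊓ dia f (Z true n b))
  have hX : ∀ n b (F : Pt A), X n b ∈ F.s ↔
      ¬ (dia f (Z false n b) ∈ F.s ↔ dia f (Z true n b) ∈ F.s) := by
    intro n b F
    simp only [X, F.sup, F.inf, F.compl]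
    tauto
  have c1 : ∀ c n b, n ≤ m → b < s → ∀ F : Pt A, Z c n (b+1) ∈ F.s → X n b ∈ F.s := by
    intro c n b hn hb F hF
    obtain ⟨e1, e2⟩ := q1 n (by omega) b hb
    have e3 := hZ2 false c n n b (b+1) (by omega) (by omega) hn (Or.inr ⟨rfl, by omega⟩) F hF
    have e4 := hZ2 true c n n b (b+1) (by omega) (by omega) hn (Or.inr ⟨rfl, by omega⟩) F hF
    rw [hX]
    cases c
    · simp only [z, cond_true, cond_false] at e3 e4
      tauto
    · simp only [z, cond_true, cond_false] at e3 e4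
      tauto
  have c2 : ∀ c n b b', n ≤ m → b + 2 ≤ b' → b' ≤ s → ∀ F : Pt A, Z c n b' ∈ F.s →
      X n b ∉ F.s := by
    intro c n b b' hn hb hb' F hF
    obtain ⟨e1, e2⟩ := q2 n (by omega) b b' hb hb'
    have e3 := hZ2 false c n n b b' (by omega) hb' hn (Or.inr ⟨rfl, by omega⟩) F hF
    have e4 := hZ2 true c n n b b' (by omega) hb' hn (Or.inr ⟨rfl, by omega⟩) F hF
    rw [hX]
    cases c
    · simp only [z, cond_true, cond_false] at e3 e4
      tauto
    · simp only [z, cond_true, cond_false] at e3 e4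
      tauto
  have c3 : ∀ c n n' b b', n < n' → n' ≤ m → b ≤ s → b' ≤ s → ∀ F : Pt A, Z c n' b' ∈ F.s →
      X n b ∉ F.s := by
    intro c n n' b b' hnn hn' hb hb' F hF
    obtain ⟨e1, e2⟩ := q3 n n' hnn (by omega) b hb b' hb'
    have e3 := hZ2 false c n n' b b' hb hb' hn' (Or.inl hnn) F hF
    have e4 := hZ2 true c n n' b b' hb hb' hn' (Or.inl hnn) F hF
    rw [hX]
    cases c
    · simp only [z, cond_true, cond_false] at e3 e4
      tauto
    · simp only [z, cond_true, cond_false] at e3 e4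
      tauto
  have S1 : ∀ c n n', n < n' → n' ≤ m → ∀ F : Pt A, Z c n' 0 ∈ F.s →
      dia f (Z false n s) ∈ F.s := by
    intro c n n' hnn hn' F hF
    obtain ⟨e1, e2⟩ := q4 n n' hnn (by omega)
    rw [hZ2 false c n n' s 0 le_rfl (Nat.zero_le _) hn' (Or.inl hnn) F hF]
    cases c
    · exact e1
    · exact e2
  have S2 : ∀ c n n', n' < n → n ≤ m → ∀ F : Pt A, Z c n' 0 ∈ F.s →
      dia f (Z false n s) ∉ F.s := by
    intro c n n' hnn hn F hF
    obtain ⟨e1, e2⟩ := q5 n n' hnn (by omega)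
    refine hZ3 false c n n' s 0 le_rfl (Nat.zero_le _) hn (by omega) ?_ F hF
    cases c
    · exact e1
    · exact e2
  -- the pools
  let A1 : Bool → ℕ → A := fun c k => ((Finset.range (m+1)).filter (fun n => k ≤ n)).sup
    (fun n => Z c n 0 ⊓ dia f (Z false n s))
  let A2 : Bool → ℕ → A := fun c k => ((Finset.range (m+1)).filter (fun n => k ≤ n)).sup
    (fun n => Z c n 0 ⊓ (dia f (Z false n s))ᶜ)
  let Cr : ℕ → ℕ → A := fun q k =>
    ((Finset.range (m+1)).filter (fun n => k ≤ n ∧ n % 2 = q % 2)).sup (fun n => Z false n s)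
  let Dr : ℕ → A := fun k => ((Finset.range (m+1)).filter (fun n => k ≤ n)).sup
    (fun n => Z true n s)
  let O : Bool → ℕ → ℕ → A := fun c k b => ((Finset.range (m+1) ×ˢ Finset.range s).filter
    (fun t => 0 < t.2 ∧ (k < t.1 ∨ (t.1 = k ∧ b < t.2)))).sup (fun t => Z c t.1 t.2)
  have hA1 : ∀ c k (F : Pt A), A1 c k ∈ F.s ↔ ∃ n, (n < m + 1 ∧ k ≤ n) ∧
      (Z c n 0 ∈ F.s ∧ dia f (Z false n s) ∈ F.s) := by
    intro c k F
    simp only [A1, finset_sup_mem, Finset.mem_filter, Finset.mem_range, F.inf]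
  have hA2 : ∀ c k (F : Pt A), A2 c k ∈ F.s ↔ ∃ n, (n < m + 1 ∧ k ≤ n) ∧
      (Z c n 0 ∈ F.s ∧ dia f (Z false n s) ∉ F.s) := by
    intro c k F
    simp only [A2, finset_sup_mem, Finset.mem_filter, Finset.mem_range, F.inf, F.compl]
  have hCr : ∀ q k (F : Pt A), Cr q k ∈ F.s ↔
      ∃ n, (n < m + 1 ∧ (k ≤ n ∧ n % 2 = q % 2)) ∧ Z false n s ∈ F.s := by
    intro q k F
    simp only [Cr, finset_sup_mem, Finset.mem_filter, Finset.mem_range]
  have hDr : ∀ k (F : Pt A), Dr k ∈ F.s ↔ ∃ n, (n < m + 1 ∧ k ≤ n) ∧ Z true n s ∈ F.s := by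
    intro k F
    simp only [Dr, finset_sup_mem, Finset.mem_filter, Finset.mem_range]
  have hO : ∀ c k b (F : Pt A), O c k b ∈ F.s ↔ ∃ n b', ((n < m + 1 ∧ b' < s) ∧
      (0 < b' ∧ (k < n ∨ (n = k ∧ b < b')))) ∧ Z c n b' ∈ F.s := by
    intro c k b F
    simp only [O, finset_sup_mem, Finset.mem_filter, Finset.mem_product, Finset.mem_range]
    constructor
    · rintro ⟨⟨n, b'⟩, h1, h2⟩
      exact ⟨n, b', h1, h2⟩
    · rintro ⟨n, b', h1, h2⟩
      exact ⟨⟨n, b'⟩, h1, h2⟩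
  have hdC : ∀ q k (F : Pt A), dia f (Cr q k) ∈ F.s ↔
      ∃ n, (n < m + 1 ∧ (k ≤ n ∧ n % 2 = q % 2)) ∧ dia f (Z false n s) ∈ F.s := by
    intro q k F
    rw [dia_mem htop hinf]
    constructor
    · rintro ⟨G, hFG, hG⟩
      obtain ⟨i, hi, hWi⟩ := (hCr q k G).mp hG
      exact ⟨i, hi, (dia_mem htop hinf _ _).mpr ⟨G, hFG, hWi⟩⟩
    · rintro ⟨i, hi, hWi⟩
      obtain ⟨G, hFG, hG⟩ := (dia_mem htop hinf _ _).mp hWi
      exact ⟨G, hFG, (hCr q k G).mpr ⟨i, hi, hG⟩⟩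
  have hCmod : ∀ q k, Cr q k = Cr (q % 2) k := by
    intro q k
    simp only [Cr, Nat.mod_mod]
  have hdCC : ∀ k (F : Pt A), (dia f (Cr k k) ∈ F.s ∨ dia f (Cr (k+1) k) ∈ F.s) ↔
      ∃ n, (n < m + 1 ∧ k ≤ n) ∧ dia f (Z false n s) ∈ F.s := by
    intro k F
    rw [hdC, hdC]
    constructor
    · rintro (⟨n, ⟨h1, h2, _⟩, h3⟩ | ⟨n, ⟨h1, h2, _⟩, h3⟩)
      · exact ⟨n, ⟨h1, h2⟩, h3⟩
      · exact ⟨n, ⟨h1, h2⟩, h3⟩
    · rintro ⟨n, ⟨h1, h2⟩, h3⟩
      by_cases h4 : n % 2 = k % 2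
      · exact Or.inl ⟨n, ⟨h1, h2, h4⟩, h3⟩
      · exact Or.inr ⟨n, ⟨h1, h2, by omega⟩, h3⟩
  -- naming the first threads
  have nA1 : ∀ c k, k < m → ∀ F : Pt A, (A1 c k ∈ F.s ∧ dia f (Cr (k+1) k) ∉ F.s) ↔
      (Z c k 0 ∈ F.s ∧ dia f (Z false k s) ∈ F.s) := by
    intro c k hk F
    rw [hA1, hdC]
    constructor
    · rintro ⟨⟨n, ⟨h1, h2⟩, h3, h4⟩, h5⟩
      by_cases hn : n = k
      · rw [← hn]; exact ⟨h3, h4⟩
      · exfalso
        by_cases hn1 : n = k + 1
        · exact h5 ⟨n, ⟨h1, h2, by omega⟩, h4⟩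
        · exact h5 ⟨k+1, ⟨by omega, by omega, rfl⟩, S1 c (k+1) n (by omega) (by omega) F h3⟩
    · rintro ⟨h1, h2⟩
      refine ⟨⟨k, ⟨by omega, le_rfl⟩, h1, h2⟩, ?_⟩
      rintro ⟨n, ⟨h3, h4, h5⟩, h6⟩
      exact S2 c n k (by omega) (by omega) F h1 h6
  have nA2 : ∀ c k, k < m → ∀ F : Pt A, (A2 c k ∈ F.s ∧
      ¬ (dia f (Cr k k) ∈ F.s ∨ dia f (Cr (k+1) k) ∈ F.s)) ↔
      (Z c k 0 ∈ F.s ∧ dia f (Z false k s) ∉ F.s) := by
    intro c k hk F
    rw [hA2, hdCC]
    constructor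
    · rintro ⟨⟨n, ⟨h1, h2⟩, h3, h4⟩, h5⟩
      by_cases hn : n = k
      · rw [← hn]; exact ⟨h3, h4⟩
      · exfalso
        exact h5 ⟨k, ⟨by omega, le_rfl⟩, S1 c k n (by omega) (by omega) F h3⟩
    · rintro ⟨h1, h2⟩
      refine ⟨⟨k, ⟨by omega, le_rfl⟩, h1, h2⟩, ?_⟩
      rintro ⟨n, ⟨h3, h4⟩, h6⟩
      by_cases hn : n = k
      · rw [hn] at h6
        exact h2 h6
      · exact S2 c n k (by omega) (by omega) F h1 h6
  have rA1 : ∀ c k, k < m → A1 c (k+1) = A1 c k ⊓ dia f (Cr (k+1) k) := by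
    intro c k hk
    apply ext_pts
    intro F
    rw [F.inf, hA1, hA1, hdC]
    constructor
    · rintro ⟨n, ⟨h1, h2⟩, h3, h4⟩
      refine ⟨⟨n, ⟨h1, by omega⟩, h3, h4⟩, ?_⟩
      by_cases hn1 : n = k + 1
      · exact ⟨n, ⟨h1, by omega, by omega⟩, h4⟩
      · exact ⟨k+1, ⟨by omega, by omega, rfl⟩, S1 c (k+1) n (by omega) (by omega) F h3⟩
    · rintro ⟨⟨n, ⟨h1, h2⟩, h3, h4⟩, ⟨j, ⟨h5, h6, h7⟩, h8⟩⟩
      by_cases hn : n = k
      · exfalso
        subst hn
        exact S2 c j n (by omega) (by omega) F h3 h8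
      · exact ⟨n, ⟨h1, by omega⟩, h3, h4⟩
  have rA2 : ∀ c k, k < m → A2 c (k+1) = A2 c k ⊓ (dia f (Cr k k) ⊔ dia f (Cr (k+1) k)) := by
    intro c k hk
    apply ext_pts
    intro F
    rw [F.inf, F.sup, hdCC, hA2, hA2]
    constructor
    · rintro ⟨n, ⟨h1, h2⟩, h3, h4⟩
      refine ⟨⟨n, ⟨h1, by omega⟩, h3, h4⟩, k, ⟨by omega, le_rfl⟩,
        S1 c k n (by omega) (by omega) F h3⟩
    · rintro ⟨⟨n, ⟨h1, h2⟩, h3, h4⟩, ⟨j, ⟨h5, h6⟩, h8⟩⟩
      by_cases hn : n = k
      · exfalso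
        subst hn
        by_cases hj : j = n
        · rw [hj] at h8
          exact h4 h8
        · exact S2 c j n (by omega) (by omega) F h3 h8
      · exact ⟨n, ⟨h1, by omega⟩, h3, h4⟩
  -- naming the middle threads
  have nO : ∀ c k b, k ≤ m → b + 1 < s → Z c k (b+1) = O c k b ⊓ X k b := by
    intro c k b hk hb
    apply ext_pts
    intro F
    rw [F.inf, hO]
    constructor
    · intro h
      exact ⟨⟨k, b+1, ⟨⟨by omega, hb⟩, by omega, Or.inr ⟨rfl, by omega⟩⟩, h⟩,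
        c1 c k b hk (by omega) F h⟩
    · rintro ⟨⟨n, b', ⟨⟨h1, h2⟩, h3, h4⟩, h5⟩, h6⟩
      rcases h4 with h4 | ⟨h4, h4'⟩
      · exact absurd h6 (c3 c k n b b' h4 (by omega) (by omega) (by omega) F h5)
      · subst h4
        by_cases hb' : b' = b + 1
        · rw [← hb']; exact h5
        · exact absurd h6 (c2 c n b b' (by omega) (by omega) (by omega) F h5)
  have rO : ∀ c k b, k ≤ m → b + 1 < s → O c k (b+1) = O c k b ⊓ (X k b)ᶜ := by
    intro c k b hk hb
    apply ext_pts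
    intro F
    rw [F.inf, F.compl, hO, hO]
    constructor
    · rintro ⟨n, b', ⟨⟨h1, h2⟩, h3, h4⟩, h5⟩
      refine ⟨⟨n, b', ⟨⟨h1, h2⟩, h3, by omega⟩, h5⟩, ?_⟩
      rcases h4 with h4 | ⟨h4, h4'⟩
      · exact c3 c k n b b' h4 (by omega) (by omega) (by omega) F h5
      · subst h4
        exact c2 c n b b' (by omega) (by omega) (by omega) F h5
    · rintro ⟨⟨n, b', ⟨⟨h1, h2⟩, h3, h4⟩, h5⟩, h6⟩
      refine ⟨n, b', ⟨⟨h1, h2⟩, h3, ?_⟩, h5⟩
      rcases h4 with h4 | ⟨h4, h4'⟩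
      · exact Or.inl h4
      · refine Or.inr ⟨h4, ?_⟩
        by_contra hcon
        have hb' : b' = b + 1 := by omega
        subst h4
        subst hb'
        exact h6 (c1 c n b (by omega) (by omega) F h5)
  have rO' : ∀ c k, O c (k+1) 0 = O c k (s-1) := by
    intro c k
    apply ext_pts
    intro F
    rw [hO, hO]
    constructor
    · rintro ⟨n, b', ⟨⟨h1, h2⟩, h3, h4⟩, h5⟩
      exact ⟨n, b', ⟨⟨h1, h2⟩, h3, by omega⟩, h5⟩
    · rintro ⟨n, b', ⟨⟨h1, h2⟩, h3, h4⟩, h5⟩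
      exact ⟨n, b', ⟨⟨h1, h2⟩, h3, by omega⟩, h5⟩
  -- naming the last threads
  have hs1 : s - 1 + 1 = s := by omega
  have c1' : ∀ c n, n ≤ m → ∀ F : Pt A, Z c n s ∈ F.s → X n (s-1) ∈ F.s := by
    intro c n hn F hF
    refine c1 c n (s-1) hn (by omega) F ?_
    rw [hs1]
    exact hF
  have nC : ∀ k, k ≤ m → Z false k s = Cr k k ⊓ X k (s-1) := by
    intro k hk
    apply ext_pts
    intro F
    rw [F.inf, hCr]
    constructor
    · intro h
      exact ⟨⟨k, ⟨by omega, le_rfl, rfl⟩, h⟩, c1' false k hk F h⟩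
    · rintro ⟨⟨n, ⟨h1, h2, h3⟩, h4⟩, h5⟩
      by_cases hn : n = k
      · rw [← hn]; exact h4
      · exact absurd h5 (c3 false k n (s-1) s (by omega) (by omega) (by omega) le_rfl F h4)
  have nD : ∀ k, k ≤ m → Z true k s = Dr k ⊓ X k (s-1) := by
    intro k hk
    apply ext_pts
    intro F
    rw [F.inf, hDr]
    constructor
    · intro h
      exact ⟨⟨k, ⟨by omega, le_rfl⟩, h⟩, c1' true k hk F h⟩
    · rintro ⟨⟨n, ⟨h1, h2⟩, h4⟩, h5⟩
      by_cases hn : n = k
      · rw [← hn]; exact h4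
      · exact absurd h5 (c3 true k n (s-1) s (by omega) (by omega) (by omega) le_rfl F h4)
  have rC : ∀ k, k ≤ m → Cr k (k+1) = Cr k k ⊓ (X k (s-1))ᶜ := by
    intro k hk
    apply ext_pts
    intro F
    rw [F.inf, F.compl, hCr, hCr]
    constructor
    · rintro ⟨n, ⟨h1, h2, h3⟩, h4⟩
      exact ⟨⟨n, ⟨h1, by omega, h3⟩, h4⟩,
        c3 false k n (s-1) s (by omega) (by omega) (by omega) le_rfl F h4⟩
    · rintro ⟨⟨n, ⟨h1, h2, h3⟩, h4⟩, h5⟩
      refine ⟨n, ⟨h1, ?_, h3⟩, h4⟩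
      by_contra hcon
      have hn : n = k := by omega
      subst hn
      exact h5 (c1' false n hk F h4)
  have rD : ∀ k, k ≤ m → Dr (k+1) = Dr k ⊓ (X k (s-1))ᶜ := by
    intro k hk
    apply ext_pts
    intro F
    rw [F.inf, F.compl, hDr, hDr]
    constructor
    · rintro ⟨n, ⟨h1, h2⟩, h4⟩
      exact ⟨⟨n, ⟨h1, by omega⟩, h4⟩,
        c3 true k n (s-1) s (by omega) (by omega) (by omega) le_rfl F h4⟩
    · rintro ⟨⟨n, ⟨h1, h2⟩, h4⟩, h5⟩
      refine ⟨n, ⟨h1, ?_⟩, h4⟩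
      by_contra hcon
      have hn : n = k := by omega
      subst hn
      exact h5 (c1' true n hk F h4)
  have rC' : ∀ k, Cr (k+1) (k+1) = Cr (k+1) k := by
    intro k
    apply ext_pts
    intro F
    rw [hCr, hCr]
    constructor
    · rintro ⟨i, ⟨h1, h2, h3⟩, h4⟩
      exact ⟨i, ⟨h1, by omega, h3⟩, h4⟩
    · rintro ⟨i, ⟨h1, h2, h3⟩, h4⟩
      exact ⟨i, ⟨h1, by omega, h3⟩, h4⟩
  let g : Fin 9 → A := ![A1 false 0, A1 true 0, A2 false 0, A2 true 0, Cr 0 0, Cr 1 0, Dr 0,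
    O false 0 0, O true 0 0]
  have g0 : Gen f g (A1 false 0) := Gen.gen (f := f) (g := g) 0
  have g1 : Gen f g (A1 true 0) := Gen.gen (f := f) (g := g) 1
  have g2 : Gen f g (A2 false 0) := Gen.gen (f := f) (g := g) 2
  have g3 : Gen f g (A2 true 0) := Gen.gen (f := f) (g := g) 3
  have g4 : Gen f g (Cr 0 0) := Gen.gen (f := f) (g := g) 4
  have g5 : Gen f g (Cr 1 0) := Gen.gen (f := f) (g := g) 5
  have g6 : Gen f g (Dr 0) := Gen.gen (f := f) (g := g) 6
  have g7 : Gen f g (O false 0 0) := Gen.gen (f := f) (g := g) 7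
  have g8 : Gen f g (O true 0 0) := Gen.gen (f := f) (g := g) 8
  have main : ∀ k, k ≤ m → ((∀ c, Gen f g (A1 c k)) ∧ (∀ c, Gen f g (A2 c k)) ∧
      (∀ c, Gen f g (O c k 0))) ∧ Gen f g (Cr k k) ∧ Gen f g (Cr (k+1) k) ∧ Gen f g (Dr k) ∧
      (∀ j < k, Gen f g (Z false j s)) := by
    intro k
    induction k with
    | zero =>
      intro _
      refine ⟨⟨?_, ?_, ?_⟩, g4, g5, g6, fun j hj => absurd hj (Nat.not_lt_zero j)⟩
      · intro c
        cases c
        · exact g0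
        · exact g1
      · intro c
        cases c
        · exact g2
        · exact g3
      · intro c
        cases c
        · exact g7
        · exact g8
    | succ k ih =>
      intro hk
      obtain ⟨⟨i1, i2, i3⟩, i4, i5, i6, i7⟩ := ih (by omega)
      have d4 := Gen.dia' i4
      have d5 := Gen.dia' i5
      have gZ0 : ∀ c, Gen f g (Z c k 0) := by
        intro c
        have e : Z c k 0 = (A1 c k ⊓ (dia f (Cr (k+1) k))ᶜ) ⊔
            (A2 c k ⊓ (dia f (Cr k k) ⊔ dia f (Cr (k+1) k))ᶜ) := by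
          apply ext_pts
          intro F
          rw [F.sup, F.inf, F.inf, F.compl, F.compl, F.sup, nA1 c k (by omega) F,
            nA2 c k (by omega) F]
          tauto
        rw [e]
        exact Gen.sup' (Gen.inf _ _ (i1 c) (Gen.compl _ d5))
          (Gen.inf _ _ (i2 c) (Gen.compl _ (Gen.sup' d4 d5)))
      have gXof : ∀ b, (∀ c, Gen f g (Z c k b)) → Gen f g (X k b) := by
        intro b hb
        exact Gen.sup' (Gen.inf _ _ (Gen.dia' (hb false)) (Gen.compl _ (Gen.dia' (hb true))))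
          (Gen.inf _ _ (Gen.compl _ (Gen.dia' (hb false))) (Gen.dia' (hb true)))
      have chain : ∀ b, b < s → ∀ c, Gen f g (Z c k b) ∧ Gen f g (O c k b) := by
        intro b
        induction b with
        | zero => intro _ c; exact ⟨gZ0 c, i3 c⟩
        | succ b ihb =>
          intro hb c
          have j1 := ihb (by omega)
          have gX := gXof b (fun c => (j1 c).1)
          refine ⟨?_, ?_⟩
          · rw [nO c k b (by omega) hb]
            exact Gen.inf _ _ (j1 c).2 gX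
          · rw [rO c k b (by omega) hb]
            exact Gen.inf _ _ (j1 c).2 (Gen.compl _ gX)
      have j2 := chain (s-1) (by omega)
      have gX := gXof (s-1) (fun c => (j2 c).1)
      have gV : Gen f g (Z false k s) := by
        rw [nC k (by omega)]
        exact Gen.inf _ _ i4 gX
      refine ⟨⟨?_, ?_, ?_⟩, ?_, ?_, ?_, ?_⟩
      · intro c
        rw [rA1 c k (by omega)]
        exact Gen.inf _ _ (i1 c) d5
      · intro c
        rw [rA2 c k (by omega)]
        exact Gen.inf _ _ (i2 c) (Gen.sup' d4 d5)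
      · intro c
        rw [rO' c k]
        exact (j2 c).2
      · rw [rC' k]
        exact i5
      · have e1 : Cr (k+1+1) (k+1) = Cr k (k+1) := by
          rw [hCmod (k+1+1), hCmod k]
          have : (k + 1 + 1) % 2 = k % 2 := by omega
          rw [this]
        rw [e1, rC k (by omega)]
        exact Gen.inf _ _ i4 (Gen.compl _ gX)
      · rw [rD k (by omega)]
        exact Gen.inf _ _ i6 (Gen.compl _ gX)
      · intro j hj
        rcases Nat.lt_succ_iff_lt_or_eq.mp hj with h | h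
        · exact i7 j h
        · rw [h]
          exact gV
  refine ⟨g, fun n => Z false n s, fun i hi => (main m le_rfl).2.2.2.2 i hi, ?_⟩
  intro i j hij hj heq
  have e1 := hZ1 false j s le_rfl (by omega)
  have e2 : Z false i s ∈ (z false j s).s := by
    dsimp only at heq
    rw [heq]; exact e1
  exact c3 false i j (s-1) s hij (by omega) (by omega) le_rfl _ e1
    (c1' false i (by omega) _ e2)

end KD
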