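import Pool.Agent.KDir.Stepb

set_option autoImplicit false

namespace KD

open Filter KBT

theorem not_arr_pure {W : Type*} {R : W → W → Prop} (q : Ultrafilter W) (v : W) :
    ¬ Arr R q (pure v) := by
  intro h
  have h1 := ev_dec q (fun x => R x v)
  obtain ⟨⟨x, hx, y, hy, hxy⟩, x', hx', y', hy', hxy'⟩ := h _ h1 {v} (by
    show v ∈ ({v} : Set W)
    rfl)
  rw [Set.mem_singleton_iff] at hy hy'
  subst hy
  subst hy'
  have e1 : R x _ ↔ ∀ᶠ j in (q : Filter W), R j _ := hx
  have e2 : R x' _ ↔ ∀ᶠ j in (q : Filter W), R j _ := hx'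
  exact hxy' (e2.mpr (e1.mp hxy))

/-- There is no sequence of sets as in the construction. -/
theorem ftd {W : Type} {R : W → W → Prop} {m : ℕ} (hG : Good R m) (CW : ℕ → Set W)
    (hmono : ∀ i j, i ≤ j → CW j ⊆ CW i) (hne : ∀ i, (CW i).Nonempty)
    (hemp : ∀ x, ∃ i, x ∉ CW i)
    (hb : ∀ (S : Finset W) (Φ : Set W → Set W → Prop) (i : ℕ), ∃ i', i ≤ i' ∧
        ∀ x ∈ CW i', ∀ y ∈ CW i',
          Relation.ReflTransGen (fun a b => EFD R S Φ a b ∧ a ∈ CW i ∧ b ∈ CW i) x y) :
    False := by
  classical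
  obtain ⟨p, hpK, hp⟩ := bottom hG.1 CW hmono hne
  obtain ⟨i, hfin, S, hS⟩ := stepB hG CW hmono p hpK hp
  set ℬ : Set (Ultrafilter W) := {q | RT R {q | CW i ∈ q} p q} with hℬ
  have hℬC : ∀ q ∈ ℬ, CW i ∈ q := by
    intro q hq
    have hq' : RT R {q | CW i ∈ q} p q := hq
    unfold RT at hq'
    induction hq' with
    | refl => exact hpK i
    | tail _ h _ => exact h.2.2
  -- separators
  have hsep : ∀ D D' : Set W, ∃ T : Finset W, D ≠ D' → ∃ t ∈ T, ¬ (t ∈ D ↔ t ∈ D') := by
    intro D D'
    by_cases hDD : D = D'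
    · exact ⟨∅, fun h => absurd hDD h⟩
    · have : ∃ t, ¬ (t ∈ D ↔ t ∈ D') := by
        by_contra hcon
        push Not at hcon
        exact hDD (Set.ext hcon)
      obtain ⟨t, ht⟩ := this
      exact ⟨{t}, fun _ => ⟨t, Finset.mem_singleton_self t, ht⟩⟩
  choose SP hSP using hsep
  let S' : Finset W := S ∪
    (hfin.toFinset.biUnion fun D => hfin.toFinset.biUnion fun D' => SP D D')
  have hSS' : S ⊆ S' := Finset.subset_union_left
  have hinj : ∀ q ∈ ℬ, ∀ q' ∈ ℬ, (∀ t ∈ S', (t ∈ DD R q ↔ t ∈ DD R q')) →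
      DD R q ∩ CW i = DD R q' ∩ CW i := by
    intro q hq q' hq' h
    by_contra hne'
    obtain ⟨t, ht, h1⟩ := hSP _ _ hne'
    have htS : t ∈ S' := by
      refine Finset.mem_union_right _ ?_
      rw [Finset.mem_biUnion]
      refine ⟨DD R q ∩ CW i, hfin.mem_toFinset.mpr ⟨q, hq, rfl⟩, ?_⟩
      rw [Finset.mem_biUnion]
      exact ⟨DD R q' ∩ CW i, hfin.mem_toFinset.mpr ⟨q', hq', rfl⟩, ht⟩
    apply h1
    have h2 := h t htS
    constructor
    · rintro ⟨h3, h4⟩
      exact ⟨h2.mp h3, h4⟩
    · rintro ⟨h3, h4⟩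
      exact ⟨h2.mpr h3, h4⟩
  let Φ : Set W → Set W → Prop := fun τ τ' =>
    ∃ q' ∈ ℬ, {s | s ∈ S' ∧ s ∈ DD R q'} = τ ∧ ∃ w ∈ CW i, ct R S' w = τ' ∧ w ∈ DD R q'
  -- closure
  have hclos : ∀ (f g : W → W), p.map f ∈ ℬ → CW i ∈ p.map g →
      (∀ᶠ j in (p : Filter W), EFD R S' Φ (f j) (g j)) → p.map g ∈ ℬ := by
    intro f g hf hg hE
    set q := p.map f with hq
    set σ := p.map g with hσ
    have hEg : Eg p R f g := by
      intro hcon
      have h1 : ∀ᶠ j in (p : Filter W), ∀ s ∈ S', (R (f j) s ↔ s ∈ DD R q) := by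
        rw [eventually_all_finset]
        intro s _
        exact ev_dec p (fun j => R (f j) s)
      have h2 : ∀ᶠ j in (p : Filter W), (g j ∈ DD R q ↔ Dgt R q σ) :=
        ev_dec p (fun j => g j ∈ DD R q)
      have h3 : ∀ᶠ j in (p : Filter W), g j ∈ CW i := hg
      obtain ⟨j, ⟨⟨⟨h4, h5⟩, h6⟩, h7⟩, h8⟩ := ((((hE.and h1).and h2).and h3).and
        (ev_dec p (fun j => R (f j) (g j)))).exists
      apply h4
      have h9 : Φ (rt R S' (f j)) (ct R S' (g j)) ↔ g j ∈ DD R q := by
        constructor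
        · rintro ⟨q', hq', e1, w, hw, e2, h10⟩
          have e3 : DD R q ∩ CW i = DD R q' ∩ CW i := by
            refine hinj q hf q' hq' ?_
            intro t ht
            rw [← h5 t ht]
            have e4 : t ∈ {s | s ∈ S' ∧ s ∈ DD R q'} ↔ t ∈ rt R S' (f j) := by rw [e1]
            constructor
            · intro h11
              exact (e4.mpr ⟨ht, h11⟩).2
            · intro h11
              exact (e4.mp ⟨ht, h11⟩).2
          have h11 : w ∈ DD R q ∩ CW i := by
            rw [e3]
            exact ⟨h10, hw⟩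
          refine (hS q hf w hw (g j) h7 ?_).mp h11.1
          intro t ht
          have e4 : t ∈ ct R S' w ↔ t ∈ ct R S' (g j) := by rw [e2]
          constructor
          · intro h12
            exact (e4.mp ⟨hSS' ht, h12⟩).2
          · intro h12
            exact (e4.mpr ⟨hSS' ht, h12⟩).2
        · intro h10
          refine ⟨q, hf, ?_, g j, h7, rfl, h10⟩
          ext t
          constructor
          · rintro ⟨ht, h11⟩
            exact ⟨ht, (h5 t ht).mpr h11⟩
          · rintro ⟨ht, h11⟩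
            exact ⟨ht, (h5 t ht).mp h11⟩
      rw [h8, h9, h6]
      exact hcon
    exact Relation.ReflTransGen.tail hf ⟨arr_of_eg p hEg, hℬC q hf, hg⟩
  -- the paths
  obtain ⟨i', hi', hpath⟩ := hb S' Φ i
  obtain ⟨v, hv⟩ := hne i'
  let Col : Type := Set {s // s ∈ S'} × Set {s // s ∈ S'}
  let e : Col ≃ Fin (Fintype.card Col) := Fintype.equivFin Col
  let κ : W → Fin (Fintype.card Col) := fun a => e ({s | R a s.1}, {s | R s.1 a})
  let Φ' : Fin (Fintype.card Col) → Fin (Fintype.card Col) → Prop :=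
    fun i j => Φ (Subtype.val '' (e.symm i).1) (Subtype.val '' (e.symm j).2)
  have hrt : ∀ a, Subtype.val '' {s : {s // s ∈ S'} | R a s.1} = rt R S' a := by
    intro a
    ext s
    constructor
    · rintro ⟨⟨s', hs'⟩, h2, rfl⟩
      exact ⟨hs', h2⟩
    · rintro ⟨h2, h3⟩
      exact ⟨⟨s, h2⟩, h3, rfl⟩
  have hct : ∀ a, Subtype.val '' {s : {s // s ∈ S'} | R s.1 a} = ct R S' a := by
    intro a
    ext s
    constructor
    · rintro ⟨⟨s', hs'⟩, h2, rfl⟩
      exact ⟨hs', h2⟩
    · rintro ⟨h2, h3⟩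
      exact ⟨⟨s, h2⟩, h3, rfl⟩
  have hEC : ∀ a b, (EFD R S' Φ a b ∧ a ∈ CW i ∧ b ∈ CW i) ↔ EC R κ Φ' (CW i) a b := by
    intro a b
    unfold EC EFD
    simp only [Φ', κ, Equiv.symm_apply_apply, hrt, hct]
  obtain ⟨L, hL⟩ := pld hG (Fintype.card Col)
  have hp2 : ∀ x : W, ∃ (l : ℕ) (P : ℕ → W), x ∈ CW i' → l ≤ L ∧ P 0 = x ∧ P l = v ∧
      ∀ t < l, EC R κ Φ' (CW i) (P t) (P (t+1)) := by
    intro x
    by_cases hx : x ∈ CW i'
    · obtain ⟨l, hl, P, h1, h2, h3⟩ := hL κ Φ' (CW i) x v
        (rtg_mono (fun a b hab => (hEC a b).mp hab) (hpath x hx v hv))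
      exact ⟨l, P, fun _ => ⟨hl, h1, h2, h3⟩⟩
    · exact ⟨0, fun _ => x, fun h => absurd h hx⟩
  choose l P hP using hp2
  have hgood : ∀ᶠ x in (p : Filter W), x ∈ CW i' := hpK i'
  let G : ℕ → W → W := fun t x => P x (min t (l x))
  have hall : ∀ t, p.map (G t) ∈ ℬ := by
    intro t
    induction t with
    | zero =>
      have h1 : p.map (G 0) = p := by
        have h2 : p.map (G 0) = p.map id := by
          apply Ultrafilter.coe_injective
          rw [Ultrafilter.coe_map, Ultrafilter.coe_map]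
          apply Filter.map_congr
          filter_upwards [hgood] with x hx
          show P x (min 0 (l x)) = x
          rw [Nat.zero_min]
          exact (hP x hx).2.1
        rw [h2]
        exact Ultrafilter.map_id p
      rw [h1]
      exact Relation.ReflTransGen.refl
    | succ t ih =>
      have h1 : ∀ᶠ x in (p : Filter W), G t x = G (t+1) x ∨
          EC R κ Φ' (CW i) (G t x) (G (t+1) x) := by
        filter_upwards [hgood] with x hx
        obtain ⟨_, _, _, h4⟩ := hP x hx
        by_cases htn : t < l x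
        · right
          have e1 : min t (l x) = t := by omega
          have e2 : min (t+1) (l x) = t + 1 := by omega
          simp only [G, e1, e2]
          exact h4 t htn
        · left
          have e1 : min t (l x) = l x := by omega
          have e2 : min (t+1) (l x) = l x := by omega
          simp only [G, e1, e2]
      rw [Ultrafilter.eventually_or] at h1
      rcases h1 with h1 | h1
      · have h2 : p.map (G (t+1)) = p.map (G t) := by
          apply Ultrafilter.coe_injective
          rw [Ultrafilter.coe_map, Ultrafilter.coe_map]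
          apply Filter.map_congr
          filter_upwards [h1] with x hx
          exact hx.symm
        rw [h2]
        exact ih
      · refine hclos (G t) (G (t+1)) ih ?_ ?_
        · show ∀ᶠ x in (p : Filter W), G (t+1) x ∈ CW i
          exact h1.mono fun x hx => hx.2.2
        · exact h1.mono fun x hx => ((hEC _ _).mpr hx).1
  have hend : (pure v : Ultrafilter W) ∈ ℬ := by
    have h1 : p.map (G L) = pure v := by
      have h2 : p.map (G L) = p.map (fun _ => v) := by
        apply Ultrafilter.coe_injective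
        rw [Ultrafilter.coe_map, Ultrafilter.coe_map]
        apply Filter.map_congr
        filter_upwards [hgood] with x hx
        obtain ⟨h1, _, h3, _⟩ := hP x hx
        show P x (min L (l x)) = v
        rw [min_eq_right h1]
        exact h3
      rw [h2]
      refine Ultrafilter.eq_of_le ?_
      intro Q hQ
      show ∀ᶠ _x in (p : Filter W), v ∈ Q
      exact Eventually.of_forall fun _ => hQ
    rw [← h1]
    exact hall L
  have hend' : RT R {q | CW i ∈ q} p (pure v) := hend
  rcases Relation.ReflTransGen.cases_tail hend' with h1 | ⟨q, _, h2⟩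
  · obtain ⟨j, hj⟩ := hemp v
    apply hj
    have h2 := hpK j
    rw [← h1] at h2
    exact h2
  · exact not_arr_pure q v h2.1

/-- Theorem S, directed version. -/
theorem mainD {V : Type} {R : V → V → Prop} {m : ℕ} (hG : Good R m) (c : ℕ) :
    ∃ N, Tame R Set.univ c N := by
  by_contra hcon
  push Not at hcon
  have hNT : NT R (fun _ => (Set.univ : Set V)) := ⟨c, fun N => Eventually.of_forall fun _ => hcon N⟩
  obtain ⟨W, RW, CW, h1, h2, h3, h4, h5⟩ := seqD hG hNT
  exact ftd h1 CW h2 h3 h4 h5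

end KD
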