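import Pool.Agent.KDir.Fakill
import Pool.Agent.KDir.Ftd
import Pool.Agent.KBT.TameAlg

set_option autoImplicit false

namespace KD

open KBT

/-- The clone of k-ary term functions. -/
def Clo {B : Type} [BooleanAlgebra B] (f : B → B) (k : ℕ) : Set ((Fin k → B) → B) :=
  ⋂₀ {S : Set ((Fin k → B) → B) |
          (∀ i : Fin k, (fun v : Fin k → B => v i) ∈ S) ∧
          (fun _ : Fin k → B => (⊥ : B)) ∈ S ∧
          (∀ g ∈ S, (fun v : Fin k → B => (g v)ᶜ) ∈ S) ∧
          (∀ g ∈ S, ∀ h ∈ S, (fun v : Fin k → B => g v ⊓ h v) ∈ S) ∧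
          (∀ g ∈ S, (fun v : Fin k → B => f (g v)) ∈ S)}

theorem gen_sub_clo {B : Type} [BooleanAlgebra B] (f : B → B) (k : ℕ) {Y : Type}
    (g : Fin k → (Y → B)) (a : Y → B)
    (ha : Gen (fun (t : Y → B) (v : Y) => f (t v)) g a) :
    ∃ t ∈ Clo f k, a = fun v => t (fun i => g i v) := by
  induction ha with
  | gen i => exact ⟨fun v => v i, fun S hS => hS.1 i, rfl⟩
  | bot => exact ⟨fun _ => ⊥, fun S hS => hS.2.1, rfl⟩
  | compl a _ ih =>
    obtain ⟨t, ht, rfl⟩ := ih
    exact ⟨fun v => (t v)ᶜ, fun S hS => hS.2.2.1 t (ht S hS), rfl⟩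
  | inf a b _ _ iha ihb =>
    obtain ⟨t, ht, rfl⟩ := iha
    obtain ⟨u, hu, rfl⟩ := ihb
    exact ⟨fun v => t v ⊓ u v, fun S hS => hS.2.2.2.1 t (ht S hS) u (hu S hS), rfl⟩
  | box a _ ih =>
    obtain ⟨t, ht, rfl⟩ := ih
    exact ⟨fun v => f (t v), fun S hS => hS.2.2.2.2 t (ht S hS), rfl⟩

/-- Every 9-tabular modal algebra is n-tabular for all n. -/
theorem tabular {B : Type} [BooleanAlgebra B] (f : B → B) (htop : f ⊤ = ⊤)
    (hinf : ∀ a b : B, f (a ⊓ b) = f a ⊓ f b)
    (hfin : (Clo f 9).Finite) (n : ℕ) : (Clo f n).Finite := by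
  classical
  let fA : ((Fin n → B) → B) → ((Fin n → B) → B) := fun t v => f (t v)
  have htopA : fA ⊤ = ⊤ := by
    funext v
    exact htop
  have hinfA : ∀ a b, fA (a ⊓ b) = fA a ⊓ fA b := by
    intro a b
    funext v
    exact hinf (a v) (b v)
  set T : ℕ := (Clo f 9).ncard with hT
  have hcard : ∀ (g : Fin 9 → ((Fin n → B) → B)) (U : ℕ → ((Fin n → B) → B)),
      (∀ i < T + 1, Gen fA g (U i)) → (∀ i j, i < j → j < T + 1 → U i ≠ U j) → False := by
    intro g U h1 h2
    have h3 : U '' (Set.Iio (T+1)) ⊆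
        (fun (t : (Fin 9 → B) → B) (v : Fin n → B) => t (fun i => g i v)) '' (Clo f 9) := by
      rintro _ ⟨i, hi, rfl⟩
      obtain ⟨t, ht, h4⟩ := gen_sub_clo f 9 g (U i) (h1 i hi)
      exact ⟨t, ht, h4.symm⟩
    have h5 := Set.ncard_le_ncard h3 (hfin.image _)
    have h6 := Set.ncard_image_le (f := fun (t : (Fin 9 → B) → B) (v : Fin n → B) =>
      t (fun i => g i v)) hfin
    have h7 : (U '' (Set.Iio (T+1))).ncard = T + 1 := by
      rw [Set.InjOn.ncard_image, Set.ncard_eq_toFinset_card']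
      · simp
      · intro i hi j hj hij
        by_contra hne
        rcases lt_or_gt_of_ne hne with h | h
        · exact h2 i j h hj hij
        · exact h2 j i h hi hij.symm
    omega
  have hGood : Good (Rel fA) (T + 2) := by
    refine ⟨?_, ?_, ?_⟩
    · intro h
      obtain ⟨g, U, h1, h2⟩ := xpkill htopA hinfA h
      exact hcard g U (fun i hi => h1 i (by omega)) (fun i j hij hj => h2 i j hij (by omega))
    · intro h
      obtain ⟨g, U, h1, h2⟩ := lokill htopA hinfA (m := T + 1) h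
      exact hcard g U h1 h2
    · intro s hs h
      obtain ⟨g, U, h1, h2⟩ := fakill htopA hinfA (m := T + 1) hs h
      exact hcard g U h1 h2
  obtain ⟨N, hN⟩ := mainD hGood (Fintype.card (Set (Fin n)))
  have hgen := tameAlg htopA hinfA n (fun (i : Fin n) (v : Fin n → B) => v i) N hN
  refine hgen.subset ?_
  intro t ht
  refine ht {a | Gen fA (fun (i : Fin n) (v : Fin n → B) => v i) a} ⟨?_, ?_, ?_, ?_, ?_⟩
  · exact fun i => Gen.gen i
  · exact Gen.bot
  · exact fun g hg => Gen.compl g hg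
  · exact fun g hg h hh => Gen.inf g h hg hh
  · exact fun g hg => Gen.box g hg

end KD
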