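import Pool.Agent.KDir.Block

set_option autoImplicit false

namespace KD

open Filter KBT

variable {W : Type*} {R : W → W → Prop}

theorem gen2 {B : Type*} (𝒢 : Ultrafilter B) (I : B → Prop) (X : B → B → Prop)
    (hI : ∀ᶠ β in (𝒢 : Filter B), I β)
    (hX : ∀ᶠ β in (𝒢 : Filter B), ∀ᶠ β' in (𝒢 : Filter B), X β β') (K : ℕ) :
    ∃ β : ℕ → B, (∀ n < K, I (β n)) ∧ ∀ i j, i < j → j < K → X (β i) (β j) := by
  obtain ⟨β, h1, _⟩ := gen4 𝒢 (fun a b => I a ∧ X a b) (fun _ _ _ _ => True)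
    (by
      filter_upwards [hI, hX] with a h1 h2
      exact h2.mono fun b hb => ⟨h1, hb⟩)
    (Eventually.of_forall fun _ => Eventually.of_forall fun _ => Eventually.of_forall fun _ =>
      Eventually.of_forall fun _ => trivial) (K+1)
  exact ⟨β, fun n hn => (h1 n (n+1) (by omega) (by omega)).1,
    fun i j hij hj => (h1 i j hij (by omega)).2⟩

/-- element of a block -/
def el (i : Bool) (β : (ℕ → W) × (ℕ → W)) (a : ℕ) : W := cond i (β.1 a) (β.2 a)

/-- If q reaches p then there is no half graph between p and q. -/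
theorem hf {m : ℕ} (hG : Good R m) {p q : Ultrafilter W}
    (hqp : Relation.ReflTransGen (Arr R) q p) : ¬ Hh R p q := by
  classical
  intro hH
  obtain ⟨s, u', h0, hn, h1, h2⟩ := chordless hqp
  set u : ℕ → Ultrafilter W := fun a => u' (s - a) with hu
  have hA : ∀ a < s, Arr R (u (a+1)) (u a) := by
    intro a ha
    have e : s - a = s - (a+1) + 1 := by omega
    have h4 := h1 (s-(a+1)) (by omega)
    rw [← e] at h4
    exact h4
  have hN : ∀ a b, a + 2 ≤ b → b ≤ s → ¬ Arr R (u b) (u a) :=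
    fun a b hab hb => h2 (s-b) (s-a) (by omega) (by omega)
  have hu0 : u 0 = p := by
    show u' (s - 0) = p
    rw [Nat.sub_zero, hn]
  have hus : u s = q := by
    show u' (s - s) = q
    rw [Nat.sub_self, h0]
  obtain ⟨𝒢, hm, hI⟩ := blockU' u s hA hN
  have hm' : ∀ (i : Bool) (a : ℕ), a ≤ s → 𝒢.map (fun β => el i β a) = u a := by
    intro i a ha
    cases i with
    | true => exact (hm a ha).1
    | false => exact (hm a ha).2
  have hX : ∀ᶠ β in (𝒢 : Filter ((ℕ → W) × (ℕ → W))), ∀ᶠ β' in (𝒢 : Filter ((ℕ → W) × (ℕ → W))),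
      ∀ τ : Bool × Bool × Fin (s+1) × Fin (s+1),
      (R (el τ.1 β' τ.2.2.1) (el τ.2.1 β τ.2.2.2) ↔ Dgt R (u τ.2.2.1) (u τ.2.2.2)) ∧
      (R (el τ.1 β τ.2.2.1) (el τ.2.1 β' τ.2.2.2) ↔ Dlt R (u τ.2.2.1) (u τ.2.2.2)) := by
    simp only [eventually_all]
    rintro ⟨i, j, b, a⟩
    have e1 : Dgt R (𝒢.map (fun β => el i β b)) (𝒢.map (fun β => el j β a)) ↔
      ∀ᶠ β in (𝒢 : Filter ((ℕ → W) × (ℕ → W))), ∀ᶠ β' in (𝒢 : Filter ((ℕ → W) × (ℕ → W))),
        R (el i β' b) (el j β a) := Iff.rfl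
    have e2 : Dlt R (𝒢.map (fun β => el i β b)) (𝒢.map (fun β => el j β a)) ↔
      ∀ᶠ β in (𝒢 : Filter ((ℕ → W) × (ℕ → W))), ∀ᶠ β' in (𝒢 : Filter ((ℕ → W) × (ℕ → W))),
        R (el i β b) (el j β' a) := Iff.rfl
    rw [hm' i b (by omega), hm' j a (by omega)] at e1 e2
    have f1 := ev_dec2 𝒢 𝒢 (fun β β' => R (el i β' b) (el j β a))
    have f2 := ev_dec2 𝒢 𝒢 (fun β β' => R (el i β b) (el j β' a))
    rw [← e1] at f1
    rw [← e2] at f2
    filter_upwards [f1, f2] with β g1 g2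
    filter_upwards [g1, g2] with β' g3 g4
    exact ⟨g3, g4⟩
  obtain ⟨β, hβI, hβX⟩ := gen2 𝒢 _ _ hI hX m
  have c1 : ∀ i j : Bool, ∀ n n', n < n' → n' < m → ∀ b ≤ s, ∀ a ≤ s,
      (R (el i (β n') b) (el j (β n) a) ↔ Dgt R (u b) (u a)) := by
    intro i j n n' hnn hn' b hb a ha
    exact (hβX n n' hnn hn' (i, j, ⟨b, by omega⟩, ⟨a, by omega⟩)).1
  have c2 : ∀ i j : Bool, ∀ n n', n < n' → n' < m → ∀ b ≤ s, ∀ a ≤ s,
      (R (el i (β n) b) (el j (β n') a) ↔ Dlt R (u b) (u a)) := by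
    intro i j n n' hnn hn' b hb a ha
    exact (hβX n n' hnn hn' (i, j, ⟨b, by omega⟩, ⟨a, by omega⟩)).2
  unfold Hh at hH
  rw [← hu0, ← hus] at hH
  by_cases hD : Dgt R (u 0) (u s)
  · have hD' : ¬ Dlt R (u 0) (u s) := fun h => hH ⟨fun _ => hD, fun _ => h⟩
    by_cases hs : s = 0
    · subst hs
      apply hG.2.1
      refine ⟨fun n => el true (β n) 0, ?_⟩
      intro n hn n' hn' hne
      rcases lt_or_gt_of_ne hne with h | h
      · exact ⟨fun _ => h, fun _ => (c1 true true n n' h hn' 0 le_rfl 0 le_rfl).mpr hD⟩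
      · exact ⟨fun h3 => absurd ((c2 true true n' n h hn 0 le_rfl 0 le_rfl).mp h3) hD',
          fun h3 => absurd h3 (by omega)⟩
    · apply hG.2.2 s (by omega)
      refine ⟨fun n => (β n).1, fun n => (β n).2, fun n hn => (hβI n hn).1,
        fun n hn => (hβI n hn).2, ?_, ?_, ?_⟩
      · intro n n' hnn hn' b hb b' hb'
        exact ⟨(c1 true true n n' hnn hn' b' hb' b hb).trans
          (c1 true false n n' hnn hn' b' hb' b hb).symm,
          (c1 false true n n' hnn hn' b' hb' b hb).trans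
          (c1 false false n n' hnn hn' b' hb' b hb).symm⟩
      · intro n n' hnn hn'
        exact ⟨(c1 true true n n' hnn hn' 0 (Nat.zero_le _) s le_rfl).mpr hD,
          (c1 false true n n' hnn hn' 0 (Nat.zero_le _) s le_rfl).mpr hD⟩
      · intro n n' hnn hn'
        exact ⟨fun h => hD' ((c2 true true n' n hnn hn' 0 (Nat.zero_le _) s le_rfl).mp h),
          fun h => hD' ((c2 false true n' n hnn hn' 0 (Nat.zero_le _) s le_rfl).mp h)⟩
  · have hD' : Dlt R (u 0) (u s) := by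
      by_contra h
      exact hH ⟨fun h3 => absurd h3 h, fun h3 => absurd h3 hD⟩
    by_cases hs : s = 0
    · subst hs
      apply hG.2.1
      refine ⟨fun n => el true (β (m-1-n)) 0, ?_⟩
      intro n hn n' hn' hne
      rcases lt_or_gt_of_ne hne with h | h
      · exact ⟨fun _ => h, fun _ => (c2 true true (m-1-n') (m-1-n) (by omega) (by omega) 0 le_rfl
          0 le_rfl).mpr hD'⟩
      · exact ⟨fun h3 => absurd ((c1 true true (m-1-n) (m-1-n') (by omega) (by omega) 0 le_rfl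
          0 le_rfl).mp h3) hD, fun h3 => absurd h3 (by omega)⟩
    · apply hG.2.2 s (by omega)
      refine ⟨fun n => (β (m-1-n)).1, fun n => (β (m-1-n)).2,
        fun n hn => (hβI (m-1-n) (by omega)).1,
        fun n hn => (hβI (m-1-n) (by omega)).2, ?_, ?_, ?_⟩
      · intro n n' hnn hn' b hb b' hb'
        exact ⟨(c2 true true (m-1-n') (m-1-n) (by omega) (by omega) b' hb' b hb).trans
          (c2 true false (m-1-n') (m-1-n) (by omega) (by omega) b' hb' b hb).symm,
          (c2 false true (m-1-n') (m-1-n) (by omega) (by omega) b' hb' b hb).trans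
          (c2 false false (m-1-n') (m-1-n) (by omega) (by omega) b' hb' b hb).symm⟩
      · intro n n' hnn hn'
        exact ⟨(c2 true true (m-1-n') (m-1-n) (by omega) (by omega) 0 (Nat.zero_le _)
            s le_rfl).mpr hD',
          (c2 false true (m-1-n') (m-1-n) (by omega) (by omega) 0 (Nat.zero_le _)
            s le_rfl).mpr hD'⟩
      · intro n n' hnn hn'
        exact ⟨fun h => hD ((c1 true true (m-1-n) (m-1-n') (by omega) (by omega) 0 (Nat.zero_le _)
            s le_rfl).mp h),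
          fun h => hD ((c1 false true (m-1-n) (m-1-n') (by omega) (by omega) 0 (Nat.zero_le _)
            s le_rfl).mp h)⟩

end KD
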