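import Pool.Agent.KDir.Hf
import Pool.Agent.KBT.SeqExt

set_option autoImplicit false

namespace KD

open Filter KBT

theorem ev_ge (N : ℕ) : ∀ᶠ n in (hyperfilter ℕ : Filter ℕ), N ≤ n := by
  have h2 : ∀ᶠ a in (cofinite : Filter ℕ), N ≤ a := by
    rw [Nat.cofinite_eq_atTop]
    exact eventually_ge_atTop N
  exact Filter.hyperfilter_le_cofinite h2

/-- There is no infinite chordless path for a relation with finitely many types. -/
theorem no_inf {m : ℕ} (R : ℕ → ℕ → Prop) (hG : Good R m) {k : ℕ} (κ : ℕ → Fin k)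
    (Φ : Fin k → Fin k → Prop) (h1 : ∀ i, ¬ (R i (i+1) ↔ Φ (κ i) (κ (i+1))))
    (h2 : ∀ i j, i + 2 ≤ j → (R i j ↔ Φ (κ i) (κ j))) : False := by
  classical
  set 𝒰 : Ultrafilter ℕ := hyperfilter ℕ with h𝒰
  have hc : ∀ o : ℕ, ∃ c : Fin k, ∀ᶠ i in (𝒰 : Filter ℕ), κ (i + o) = c := by
    intro o
    obtain ⟨d, _, hd⟩ := ev_pigeon 𝒰 (Set.finite_univ) (fun i => κ (i + o))
      (Eventually.of_forall fun _ => Set.mem_univ _)
    exact ⟨d, hd⟩
  choose c hc using hc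
  let P : ℕ → Ultrafilter ℕ := fun o => 𝒰.map (fun i => i + o)
  have harr : ∀ o, Arr R (P o) (P (o+1)) := by
    intro o A hA B hB
    have hA' : ∀ᶠ i in (𝒰 : Filter ℕ), i + o ∈ A := hA
    have hB' : ∀ᶠ i in (𝒰 : Filter ℕ), i + (o + 1) ∈ B := hB
    obtain ⟨i, ⟨⟨g1, g2⟩, g3⟩, g4⟩ := (((hA'.and hB').and (hc o)).and (hc (o+1))).exists
    obtain ⟨j, ⟨g5, g6⟩, g7⟩ := ((hB'.and (hc (o+1))).and (ev_ge (i+2))).exists
    have e1 := h1 (i+o)
    have e2 := h2 (i+o) (j+(o+1)) (by omega)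
    have e3 : i + o + 1 = i + (o + 1) := by omega
    rw [e3, g3, g4] at e1
    rw [g3, g6] at e2
    by_cases hΦ : Φ (c o) (c (o+1))
    · exact ⟨⟨_, g1, _, g5, e2.mpr hΦ⟩, ⟨_, g1, _, g2, fun h => e1 ⟨fun _ => hΦ, fun _ => h⟩⟩⟩
    · refine ⟨⟨_, g1, _, g2, ?_⟩, ⟨_, g1, _, g5, fun h => hΦ (e2.mp h)⟩⟩
      by_contra h
      exact e1 ⟨fun h' => absurd h' h, fun h' => absurd h' hΦ⟩
  have hreach : ∀ a b, a ≤ b → Relation.ReflTransGen (Arr R) (P a) (P b) := by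
    intro a b hab
    induction hab with
    | refl => exact Relation.ReflTransGen.refl
    | @step b _ ih => exact ih.tail (harr b)
  have hlim : ∀ a b, a ≤ b → ∀ᶠ j in (𝒰 : Filter ℕ), ∀ᶠ i in (𝒰 : Filter ℕ),
      (R (i + b) (j + a) ↔ Φ (c b) (c a)) := by
    intro a b hab
    have g1 := hf hG (hreach a b hab)
    unfold Hh at g1
    rw [not_not] at g1
    have g2 : Dlt R (P b) (P a) ↔ Φ (c b) (c a) := by
      have g3 : Dlt R (P b) (P a) ↔ ∀ᶠ i in (𝒰 : Filter ℕ), ∀ᶠ j in (𝒰 : Filter ℕ),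
        R (i + b) (j + a) := Iff.rfl
      rw [g3]
      have g4 : ∀ᶠ i in (𝒰 : Filter ℕ), ((∀ᶠ j in (𝒰 : Filter ℕ), R (i + b) (j + a)) ↔
          Φ (c b) (c a)) := by
        filter_upwards [hc b] with i hi
        have g5 : (∀ᶠ j in (𝒰 : Filter ℕ), R (i + b) (j + a)) ↔
            ∀ᶠ _j in (𝒰 : Filter ℕ), Φ (c b) (c a) := by
          refine eventually_congr ?_
          filter_upwards [hc a, ev_ge (i + b + 2)] with j hj hj2
          rw [h2 (i+b) (j+a) (by omega), hi, hj]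
        rw [g5, eventually_const]
      rw [eventually_congr g4, eventually_const]
    have g3 := ev_dec2 𝒰 𝒰 (fun j i => R (i + b) (j + a))
    have g4 : (∀ᶠ j in (𝒰 : Filter ℕ), ∀ᶠ i in (𝒰 : Filter ℕ), R (i + b) (j + a)) ↔
      Dgt R (P b) (P a) := Iff.rfl
    rw [g4, ← g1, g2] at g3
    exact g3
  -- two occurrences of the same word
  obtain ⟨t1, t2, htne, htw⟩ := Finite.exists_ne_map_eq_of_infinite
    (fun t : ℕ => (fun b : Fin (m+1) => c (t * (m+1) + b.1)))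
  have hex : ∃ o1 o2, o1 + (m+1) ≤ o2 ∧ ∀ b ≤ m, c (o1 + b) = c (o2 + b) := by
    have hw : ∀ b ≤ m, c (t1 * (m+1) + b) = c (t2 * (m+1) + b) := by
      intro b hb
      exact congrFun htw ⟨b, by omega⟩
    rcases lt_or_gt_of_ne htne with h | h
    · refine ⟨t1 * (m+1), t2 * (m+1), ?_, hw⟩
      calc t1 * (m+1) + (m+1) = (t1+1) * (m+1) := by ring
        _ ≤ t2 * (m+1) := Nat.mul_le_mul_right _ h
    · refine ⟨t2 * (m+1), t1 * (m+1), ?_, fun b hb => (hw b hb).symm⟩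
      calc t2 * (m+1) + (m+1) = (t2+1) * (m+1) := by ring
        _ ≤ t1 * (m+1) := Nat.mul_le_mul_right _ h
  obtain ⟨o1, o2, ho, hw⟩ := hex
  set N := o1 + o2 + m + 5 with hN
  have hgen : ∀ᶠ j in (𝒰 : Filter ℕ), ∀ᶠ i in (𝒰 : Filter ℕ), (N + j ≤ i ∧
      ∀ τ : Fin N × Fin N, (τ.1.1 ≤ τ.2.1 → (R (i + τ.2) (j + τ.1) ↔ Φ (c τ.2) (c τ.1)))) ∧
      ∀ τ : Fin N, κ (i + τ) = c τ ∧ κ (j + τ) = c τ := by
    have e1 : ∀ᶠ j in (𝒰 : Filter ℕ), ∀ᶠ i in (𝒰 : Filter ℕ),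
      ∀ τ : Fin N × Fin N, (τ.1.1 ≤ τ.2.1 → (R (i + τ.2) (j + τ.1) ↔ Φ (c τ.2) (c τ.1))) := by
      suffices h0 : ∀ τ : Fin N × Fin N, ∀ᶠ j in (𝒰 : Filter ℕ), ∀ᶠ i in (𝒰 : Filter ℕ),
          (τ.1.1 ≤ τ.2.1 → (R (i + τ.2) (j + τ.1) ↔ Φ (c τ.2) (c τ.1))) by
        rw [← eventually_all] at h0
        filter_upwards [h0] with j hj
        rw [eventually_all]
        exact hj
      rintro ⟨a, b⟩
      by_cases hab : a.1 ≤ b.1
      · have e0 : ∀ᶠ j in (𝒰 : Filter ℕ), ∀ᶠ i in (𝒰 : Filter ℕ),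
            (a.1 ≤ b.1 → (R (i + b) (j + a) ↔ Φ (c b) (c a))) := by
          filter_upwards [hlim a.1 b.1 hab] with j hj
          filter_upwards [hj] with i hi _
          exact hi
        exact e0
      · exact Eventually.of_forall fun _ => Eventually.of_forall fun _ h => absurd h hab
    have e2 : ∀ᶠ i in (𝒰 : Filter ℕ), ∀ τ : Fin N, κ (i + τ) = c τ := by
      simp only [eventually_all]
      exact fun τ => hc τ
    filter_upwards [e1, e2] with j g1 g2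
    filter_upwards [g1, e2, ev_ge (N + j)] with i g3 g4 g5
    exact ⟨⟨g5, g3⟩, fun τ => ⟨g4 τ, g2 τ⟩⟩
  obtain ⟨j, hj⟩ := hgen.exists
  obtain ⟨i, ⟨hij, hi⟩, hκ⟩ := hj.exists
  have hκi : ∀ o < N, κ (i + o) = c o := fun o ho => (hκ ⟨o, ho⟩).1
  have hκj : ∀ o < N, κ (j + o) = c o := fun o ho => (hκ ⟨o, ho⟩).2
  -- the four values
  have vv1 : ∀ x < m, ¬ (R (i + (o2 + x)) (i + (o2 + (x+1))) ↔ Φ (c (o2 + x)) (c (o2 + (x+1)))) := by
    intro x hx
    have g := h1 (i + (o2 + x))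
    have e : i + (o2 + x) + 1 = i + (o2 + (x+1)) := by omega
    rw [e, hκi _ (by omega), hκi _ (by omega)] at g
    exact g
  have ww1 : ∀ x < m, ¬ (R (j + (o1 + x)) (j + (o1 + (x+1))) ↔ Φ (c (o2 + x)) (c (o2 + (x+1)))) := by
    intro x hx
    have g := h1 (j + (o1 + x))
    have e : j + (o1 + x) + 1 = j + (o1 + (x+1)) := by omega
    rw [e, hκj _ (by omega), hκj _ (by omega), hw x (by omega), hw (x+1) (by omega)] at g
    exact g
  have vv2 : ∀ x y, x + 2 ≤ y → y ≤ m →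
      (R (i + (o2 + x)) (i + (o2 + y)) ↔ Φ (c (o2 + x)) (c (o2 + y))) := by
    intro x y hxy hy
    have g := h2 (i + (o2 + x)) (i + (o2 + y)) (by omega)
    rw [hκi _ (by omega), hκi _ (by omega)] at g
    exact g
  have ww2 : ∀ x y, x + 2 ≤ y → y ≤ m →
      (R (j + (o1 + x)) (j + (o1 + y)) ↔ Φ (c (o2 + x)) (c (o2 + y))) := by
    intro x y hxy hy
    have g := h2 (j + (o1 + x)) (j + (o1 + y)) (by omega)
    rw [hκj _ (by omega), hκj _ (by omega), hw x (by omega), hw y hy] at g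
    exact g
  have vw : ∀ x y, x ≤ m → y ≤ m →
      (R (i + (o2 + x)) (j + (o1 + y)) ↔ Φ (c (o2 + x)) (c (o2 + y))) := by
    intro x y hx hy
    have g := hi (⟨o1 + y, by omega⟩, ⟨o2 + x, by omega⟩) (by dsimp only; omega)
    dsimp only at g
    rw [hw y hy] at g
    exact g
  have wv : ∀ x y, x ≤ m → y ≤ m →
      (R (j + (o1 + x)) (i + (o2 + y)) ↔ Φ (c (o2 + x)) (c (o2 + y))) := by
    intro x y hx hy
    have g := h2 (j + (o1 + x)) (i + (o2 + y)) (by omega)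
    rw [hκj _ (by omega), hκi _ (by omega), hw x hx] at g
    exact g
  apply hG.1
  refine ⟨fun b => i + (o2 + (m - b)), fun b => j + (o1 + (m - b)), ?_, ?_⟩
  · intro a ha
    have e : m - a = m - (a+1) + 1 := by omega
    have g1 := vv1 (m-(a+1)) (by omega)
    have g2 := ww1 (m-(a+1)) (by omega)
    have g3 := vw (m-(a+1)) (m-a) (by omega) (by omega)
    have g4 := wv (m-(a+1)) (m-a) (by omega) (by omega)
    rw [← e] at g1 g2
    dsimp only
    constructor <;> tauto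
  · intro a b hab hb
    have g1 := vv2 (m-b) (m-a) (by omega) (by omega)
    have g2 := ww2 (m-b) (m-a) (by omega) (by omega)
    have g3 := vw (m-b) (m-a) (by omega) (by omega)
    have g4 := wv (m-b) (m-a) (by omega) (by omega)
    dsimp only
    constructor <;> tauto

end KD
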