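import Pool.Agent.KBT.PPkill
import Pool.Agent.KDir.Defs

set_option autoImplicit false

namespace KD

open KBT

variable {A : Type} [BooleanAlgebra A]

/-- Robust lower triangular lifting of a finite list of points to elements. -/
theorem liftQ {f : A → A} (htop : f ⊤ = ⊤) (hinf : ∀ a b : A, f (a ⊓ b) = f a ⊓ f b)
    (p : ℕ → Pt A) (n : ℕ) :
    ∃ P : ℕ → A, (∀ i < n, P i ∈ (p i).s) ∧
      (∀ a b, a < b → b < n → ∀ F : Pt A, P b ∈ F.s → (dia f (P a) ∈ F.s ↔ Rel f (p b) (p a))) ∧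
      (∀ a b, a < n → b < n → ¬ Rel f (p b) (p a) → ∀ F : Pt A, P b ∈ F.s →
        dia f (P a) ∉ F.s) := by
  classical
  have hu : ∀ b a, ∃ u : A, u ∈ (p a).s ∧ (¬ Rel f (p b) (p a) → dia f u ∉ (p b).s) := by
    intro b a
    by_cases h : Rel f (p b) (p a)
    · exact ⟨⊤, (p a).top_mem, fun h' => absurd h h'⟩
    · obtain ⟨u, hu1, hu2⟩ := not_rel _ _ h
      exact ⟨u, hu1, fun _ => hu2⟩
  choose u hu1 hu2 using hu
  let P0 : ℕ → A := fun a => (Finset.range n).inf (fun b => u b a) ⊓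
    (Finset.range n).inf (fun c => if Rel f (p a) (p c) then ⊤ else (dia f (u a c))ᶜ)
  have hP0 : ∀ a, P0 a ∈ (p a).s := by
    intro a
    show _ ⊓ _ ∈ (p a).s
    rw [(p a).inf, finset_inf_mem, finset_inf_mem]
    refine ⟨fun b _ => hu1 b a, fun c _ => ?_⟩
    split_ifs with h
    · exact (p a).top_mem
    · rw [(p a).compl]
      exact hu2 a c h
  have hneg0 : ∀ a b, a < n → b < n → ¬ Rel f (p b) (p a) → ∀ F : Pt A, P0 b ∈ F.s →
        dia f (P0 a) ∉ F.s := by
    intro a b ha hb h F hF hF2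
    have h1 : (P0 b) ∈ F.s := hF
    have h2 : (Finset.range n).inf (fun c => if Rel f (p b) (p c) then ⊤ else (dia f (u b c))ᶜ)
        ∈ F.s := F.mono inf_le_right h1
    have h3 := (finset_inf_mem F _ _).mp h2 a (Finset.mem_range.mpr ha)
    simp only [h, if_false] at h3
    rw [F.compl] at h3
    apply h3
    refine F.mono (dia_mono hinf ?_) hF2
    exact inf_le_left.trans (Finset.inf_le (f := fun b => u b a) (Finset.mem_range.mpr hb))
  have key : ∀ k ≤ n, ∃ P : ℕ → A, (∀ i < k, P i ∈ (p i).s ∧ P i ≤ P0 i) ∧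
      ∀ a b, a < b → b < k → Rel f (p b) (p a) → P b ≤ dia f (P a) := by
    intro k
    induction k with
    | zero =>
      intro _
      exact ⟨fun _ => ⊤, fun i hi => absurd hi (Nat.not_lt_zero i),
        fun a b _ hb => absurd hb (Nat.not_lt_zero b)⟩
    | succ k ih =>
      intro hk
      obtain ⟨P, h1, h2⟩ := ih (by omega)
      let q : ℕ → A := fun a => if Rel f (p k) (p a) then dia f (P a) else ⊤
      have hq : ∀ a < k, q a ∈ (p k).s := by
        intro a ha
        by_cases h : Rel f (p k) (p a)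
        · simp only [q, h, if_true]
          exact (dia_mem htop hinf _ _).mpr ⟨p a, h, (h1 a ha).1⟩
        · simp only [q, h, if_false]
          exact (p k).top_mem
      refine ⟨fun i => if i = k then P0 k ⊓ (Finset.range k).inf q else P i, ?_, ?_⟩
      · intro i hi
        by_cases hik : i = k
        · simp only [hik, if_true]
          refine ⟨?_, inf_le_left⟩
          rw [(p k).inf]
          exact ⟨hP0 k, (finset_inf_mem _ _ _).mpr fun a ha => hq a (Finset.mem_range.mp ha)⟩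
        · simp only [hik, if_false]
          exact h1 i (by omega)
      · intro a b hab hb
        have hak : a ≠ k := by omega
        by_cases hbk : b = k
        · simp only [hbk, hak, if_true, if_false]
          have h3 : P0 k ⊓ (Finset.range k).inf q ≤ q a :=
            inf_le_right.trans (Finset.inf_le (Finset.mem_range.mpr (by omega)))
          intro h
          simp only [q, h, if_true] at h3
          exact h3
        · simp only [hbk, hak, if_false]
          exact h2 a b hab (by omega)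
  obtain ⟨P, h1, h2⟩ := key n le_rfl
  have hneg : ∀ a b, a < n → b < n → ¬ Rel f (p b) (p a) → ∀ F : Pt A, P b ∈ F.s →
        dia f (P a) ∉ F.s := by
    intro a b ha hb h F hF hF2
    exact hneg0 a b ha hb h F (F.mono (h1 b hb).2 hF) (F.mono (dia_mono hinf (h1 a ha).2) hF2)
  refine ⟨P, fun i hi => (h1 i hi).1, ?_, hneg⟩
  intro a b hab hb F hF
  constructor
  · intro h3
    by_contra h4
    exact hneg a b (by omega) hb h4 F hF h3
  · intro h3
    exact F.mono (h2 a b hab hb h3) hF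

/-- Long double runs among the points give large 9-generated subalgebras. -/
theorem xpkill {f : A → A} (htop : f ⊤ = ⊤) (hinf : ∀ a b : A, f (a ⊓ b) = f a ⊓ f b) {m : ℕ}
    (hXP : XP (Rel f) m) :
    ∃ (g : Fin 9 → A) (U : ℕ → A), (∀ i < m, Gen f g (U i)) ∧ ∀ i j, i < j → j < m → U i ≠ U j := by
  classical
  obtain ⟨v, w, h1, h2⟩ := hXP
  let p : ℕ → Pt A := fun n => if n % 2 = 0 then v (n / 2) else w (n / 2)
  obtain ⟨P, hP1, hP2, _⟩ := liftQ htop hinf p (2 * m + 2)
  have hpe : ∀ a, p (2 * a) = v a := by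
    intro a
    have e1 : 2 * a % 2 = 0 := by omega
    have e2 : 2 * a / 2 = a := by omega
    simp only [p, e1, e2, if_true]
  have hpo : ∀ a, p (2 * a + 1) = w a := by
    intro a
    have e1 : ¬ ((2 * a + 1) % 2 = 0) := by omega
    have e2 : (2 * a + 1) / 2 = a := by omega
    simp only [p, e1, e2, if_false]
  let V : ℕ → A := fun a => P (2 * a)
  let W : ℕ → A := fun a => P (2 * a + 1)
  have hVV : ∀ a b, a < b → b ≤ m → ∀ F : Pt A, V b ∈ F.s →
      (dia f (V a) ∈ F.s ↔ Rel f (v b) (v a)) := by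
    intro a b hab hb F hF
    have h3 := hP2 (2*a) (2*b) (by omega) (by omega) F hF
    rw [hpe, hpe] at h3
    exact h3
  have hVW : ∀ a b, a < b → b ≤ m → ∀ F : Pt A, V b ∈ F.s →
      (dia f (W a) ∈ F.s ↔ Rel f (v b) (w a)) := by
    intro a b hab hb F hF
    have h3 := hP2 (2*a+1) (2*b) (by omega) (by omega) F hF
    rw [hpe, hpo] at h3
    exact h3
  have hWV : ∀ a b, a < b → b ≤ m → ∀ F : Pt A, W b ∈ F.s →
      (dia f (V a) ∈ F.s ↔ Rel f (w b) (v a)) := by
    intro a b hab hb F hF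
    have h3 := hP2 (2*a) (2*b+1) (by omega) (by omega) F hF
    rw [hpe, hpo] at h3
    exact h3
  have hWW : ∀ a b, a < b → b ≤ m → ∀ F : Pt A, W b ∈ F.s →
      (dia f (W a) ∈ F.s ↔ Rel f (w b) (w a)) := by
    intro a b hab hb F hF
    have h3 := hP2 (2*a+1) (2*b+1) (by omega) (by omega) F hF
    rw [hpo, hpo] at h3
    exact h3
  let X : ℕ → A := fun a => (dia f (V a) ⊓ (dia f (W a))ᶜ) ⊔ ((dia f (V a))ᶜ ⊓ dia f (W a))
  have hX : ∀ a (F : Pt A), X a ∈ F.s ↔ ¬ (dia f (V a) ∈ F.s ↔ dia f (W a) ∈ F.s) := by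
    intro a F
    simp only [X, F.sup, F.inf, F.compl]
    tauto
  have c1 : ∀ a < m, ∀ F : Pt A, V (a+1) ∈ F.s → X a ∈ F.s := by
    intro a ha F hF
    obtain ⟨e1, e2⟩ := h1 a ha
    have e4 := hVV a (a+1) (by omega) (by omega) F hF
    have e5 := hVW a (a+1) (by omega) (by omega) F hF
    rw [hX]
    tauto
  have c2 : ∀ a < m, ∀ F : Pt A, W (a+1) ∈ F.s → X a ∈ F.s := by
    intro a ha F hF
    obtain ⟨e1, e2⟩ := h1 a ha
    have e4 := hWV a (a+1) (by omega) (by omega) F hF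
    have e5 := hWW a (a+1) (by omega) (by omega) F hF
    rw [hX]
    tauto
  have c3 : ∀ a b, a + 2 ≤ b → b ≤ m → ∀ F : Pt A, V b ∈ F.s → X a ∉ F.s := by
    intro a b hab hb F hF
    obtain ⟨e1, e2⟩ := h2 a b hab hb
    have e4 := hVV a b (by omega) hb F hF
    have e5 := hVW a b (by omega) hb F hF
    rw [hX]
    tauto
  have c4 : ∀ a b, a + 2 ≤ b → b ≤ m → ∀ F : Pt A, W b ∈ F.s → X a ∉ F.s := by
    intro a b hab hb F hF
    obtain ⟨e1, e2⟩ := h2 a b hab hb
    have e4 := hWV a b (by omega) hb F hF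
    have e5 := hWW a b (by omega) hb F hF
    rw [hX]
    tauto
  let UV : ℕ → A := fun a => (Finset.Ioc a m).sup V
  let UW : ℕ → A := fun a => (Finset.Ioc a m).sup W
  have hUV : ∀ a (F : Pt A), UV a ∈ F.s ↔ ∃ b, (a < b ∧ b ≤ m) ∧ V b ∈ F.s := by
    intro a F
    simp only [UV, finset_sup_mem, Finset.mem_Ioc]
  have hUW : ∀ a (F : Pt A), UW a ∈ F.s ↔ ∃ b, (a < b ∧ b ≤ m) ∧ W b ∈ F.s := by
    intro a F
    simp only [UW, finset_sup_mem, Finset.mem_Ioc]
  let g : Fin 9 → A := ![V 0, W 0, UV 0, UW 0, ⊥, ⊥, ⊥, ⊥, ⊥]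
  have g0 : Gen f g (V 0) := Gen.gen (f := f) (g := g) 0
  have g1 : Gen f g (W 0) := Gen.gen (f := f) (g := g) 1
  have g2 : Gen f g (UV 0) := Gen.gen (f := f) (g := g) 2
  have g3 : Gen f g (UW 0) := Gen.gen (f := f) (g := g) 3
  have main : ∀ a, a ≤ m → Gen f g (V a) ∧ Gen f g (W a) ∧ Gen f g (UV a) ∧ Gen f g (UW a) := by
    intro a
    induction a with
    | zero => intro _; exact ⟨g0, g1, g2, g3⟩
    | succ a ih =>
      intro ha
      obtain ⟨i1, i2, i3, i4⟩ := ih (by omega)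
      have gX : Gen f g (X a) :=
        Gen.sup' (Gen.inf _ _ (Gen.dia' i1) (Gen.compl _ (Gen.dia' i2)))
          (Gen.inf _ _ (Gen.compl _ (Gen.dia' i1)) (Gen.dia' i2))
      refine ⟨?_, ?_, ?_, ?_⟩
      · have : V (a+1) = UV a ⊓ X a := by
          apply ext_pts
          intro F
          rw [F.inf, hUV]
          constructor
          · intro h
            exact ⟨⟨a+1, ⟨by omega, ha⟩, h⟩, c1 a (by omega) F h⟩
          · rintro ⟨⟨b, ⟨h3, h4⟩, h5⟩, h6⟩
            by_cases hb : b = a + 1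
            · rw [← hb]; exact h5
            · exact absurd h6 (c3 a b (by omega) h4 F h5)
        rw [this]
        exact Gen.inf _ _ i3 gX
      · have : W (a+1) = UW a ⊓ X a := by
          apply ext_pts
          intro F
          rw [F.inf, hUW]
          constructor
          · intro h
            exact ⟨⟨a+1, ⟨by omega, ha⟩, h⟩, c2 a (by omega) F h⟩
          · rintro ⟨⟨b, ⟨h3, h4⟩, h5⟩, h6⟩
            by_cases hb : b = a + 1
            · rw [← hb]; exact h5
            · exact absurd h6 (c4 a b (by omega) h4 F h5)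
        rw [this]
        exact Gen.inf _ _ i4 gX
      · have : UV (a+1) = UV a ⊓ (X a)ᶜ := by
          apply ext_pts
          intro F
          rw [F.inf, F.compl, hUV, hUV]
          constructor
          · rintro ⟨b, ⟨h3, h4⟩, h5⟩
            exact ⟨⟨b, ⟨by omega, h4⟩, h5⟩, c3 a b (by omega) h4 F h5⟩
          · rintro ⟨⟨b, ⟨h3, h4⟩, h5⟩, h6⟩
            by_cases hb : b = a + 1
            · exfalso
              apply h6
              apply c1 a (by omega) F
              rw [← hb]; exact h5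
            · exact ⟨b, ⟨by omega, h4⟩, h5⟩
        rw [this]
        exact Gen.inf _ _ i3 (Gen.compl _ gX)
      · have : UW (a+1) = UW a ⊓ (X a)ᶜ := by
          apply ext_pts
          intro F
          rw [F.inf, F.compl, hUW, hUW]
          constructor
          · rintro ⟨b, ⟨h3, h4⟩, h5⟩
            exact ⟨⟨b, ⟨by omega, h4⟩, h5⟩, c4 a b (by omega) h4 F h5⟩
          · rintro ⟨⟨b, ⟨h3, h4⟩, h5⟩, h6⟩
            by_cases hb : b = a + 1
            · exfalso
              apply h6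
              apply c2 a (by omega) F
              rw [← hb]; exact h5
            · exact ⟨b, ⟨by omega, h4⟩, h5⟩
        rw [this]
        exact Gen.inf _ _ i4 (Gen.compl _ gX)
  refine ⟨g, fun i => V (i+1), fun i hi => (main (i+1) (by omega)).1, ?_⟩
  intro i j hij hj heq
  have e1 : V (j+1) ∈ (p (2*(j+1))).s := hP1 _ (by omega)
  have e2 : V (i+1) ∈ (p (2*(j+1))).s := by
    dsimp only at heq
    rw [heq]; exact e1
  exact c3 i (j+1) (by omega) (by omega) _ e1 (c1 i (by omega) _ e2)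

/-- Long linear orders among the points give large 9-generated subalgebras. -/
theorem lokill {f : A → A} (htop : f ⊤ = ⊤) (hinf : ∀ a b : A, f (a ⊓ b) = f a ⊓ f b) {m : ℕ}
    (hLO : LO (Rel f) (m+1)) :
    ∃ (g : Fin 9 → A) (U : ℕ → A), (∀ i < m, Gen f g (U i)) ∧ ∀ i j, i < j → j < m → U i ≠ U j := by
  classical
  obtain ⟨x, hx⟩ := hLO
  obtain ⟨X, hX1, hX2, hX3⟩ := liftQ htop hinf x (m+1)
  have m1 : ∀ i j, j < i → i < m + 1 → ∀ F : Pt A, X i ∈ F.s → dia f (X j) ∈ F.s := by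
    intro i j hji hi F hF
    exact (hX2 j i hji hi F hF).mpr ((hx j (by omega) i hi (by omega)).mpr hji)
  have m2 : ∀ i j, i < j → j < m + 1 → ∀ F : Pt A, X i ∈ F.s → dia f (X j) ∉ F.s := by
    intro i j hij hj F hF
    refine hX3 j i hj (by omega) ?_ F hF
    intro h
    have := (hx j hj i (by omega) (by omega)).mp h
    omega
  let Cr : ℕ → ℕ → A := fun q s =>
    ((Finset.range (m+1)).filter (fun i => s ≤ i ∧ i % 2 = q % 2)).sup X
  have hCr : ∀ q s (F : Pt A), Cr q s ∈ F.s ↔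
      ∃ i, (i < m + 1 ∧ (s ≤ i ∧ i % 2 = q % 2)) ∧ X i ∈ F.s := by
    intro q s F
    simp only [Cr, finset_sup_mem, Finset.mem_filter, Finset.mem_range]
  have hdC : ∀ q s (F : Pt A), dia f (Cr q s) ∈ F.s ↔
      ∃ i, (i < m + 1 ∧ (s ≤ i ∧ i % 2 = q % 2)) ∧ dia f (X i) ∈ F.s := by
    intro q s F
    rw [dia_mem htop hinf]
    constructor
    · rintro ⟨G, hFG, hG⟩
      obtain ⟨i, hi, hWi⟩ := (hCr q s G).mp hG
      exact ⟨i, hi, (dia_mem htop hinf _ _).mpr ⟨G, hFG, hWi⟩⟩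
    · rintro ⟨i, hi, hWi⟩
      obtain ⟨G, hFG, hG⟩ := (dia_mem htop hinf _ _).mp hWi
      exact ⟨G, hFG, (hCr q s G).mpr ⟨i, hi, hG⟩⟩
  let g : Fin 9 → A := ![Cr 0 0, Cr 1 0, ⊥, ⊥, ⊥, ⊥, ⊥, ⊥, ⊥]
  have g0 : Gen f g (Cr 0 0) := Gen.gen (f := f) (g := g) 0
  have g1 : Gen f g (Cr 1 0) := Gen.gen (f := f) (g := g) 1
  have hCmod : ∀ q s, Cr q s = Cr (q % 2) s := by
    intro q s
    simp only [Cr, Nat.mod_mod]
  have stepX : ∀ s < m, X s = Cr s s ⊓ (dia f (Cr (s+1) s))ᶜ := by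
    intro s hs
    apply ext_pts
    intro F
    rw [F.inf, F.compl, hCr, hdC]
    constructor
    · intro hF
      refine ⟨⟨s, ⟨by omega, le_rfl, rfl⟩, hF⟩, ?_⟩
      rintro ⟨i, ⟨h1, h2, h3⟩, h4⟩
      exact m2 s i (by omega) h1 F hF h4
    · rintro ⟨⟨i, ⟨h1, h2, h3⟩, h4⟩, h5⟩
      by_cases hi : i = s
      · rw [← hi]; exact h4
      · exfalso
        exact h5 ⟨s+1, ⟨by omega, by omega, rfl⟩, m1 i (s+1) (by omega) h1 F h4⟩
  have stepC : ∀ s < m, Cr s (s+1) = Cr s s ⊓ dia f (Cr (s+1) s) := by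
    intro s hs
    apply ext_pts
    intro F
    rw [F.inf, hCr, hCr, hdC]
    constructor
    · rintro ⟨i, ⟨h1, h2, h3⟩, h4⟩
      exact ⟨⟨i, ⟨h1, by omega, h3⟩, h4⟩,
        ⟨s+1, ⟨by omega, by omega, rfl⟩, m1 i (s+1) (by omega) h1 F h4⟩⟩
    · rintro ⟨⟨i, ⟨h1, h2, h3⟩, h4⟩, ⟨j, ⟨h5, h6, h7⟩, h8⟩⟩
      by_cases hi : i = s
      · exfalso
        subst hi
        exact m2 i j (by omega) h5 F h4 h8
      · exact ⟨i, ⟨h1, by omega, h3⟩, h4⟩
  have stepC' : ∀ s, Cr (s+1) (s+1) = Cr (s+1) s := by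
    intro s
    apply ext_pts
    intro F
    rw [hCr, hCr]
    constructor
    · rintro ⟨i, ⟨h1, h2, h3⟩, h4⟩
      exact ⟨i, ⟨h1, by omega, h3⟩, h4⟩
    · rintro ⟨i, ⟨h1, h2, h3⟩, h4⟩
      exact ⟨i, ⟨h1, by omega, h3⟩, h4⟩
  have main : ∀ s, s ≤ m → Gen f g (Cr s s) ∧ Gen f g (Cr (s+1) s) := by
    intro s
    induction s with
    | zero => intro _; exact ⟨g0, g1⟩
    | succ s ih =>
      intro hs
      obtain ⟨i1, i2⟩ := ih (by omega)
      refine ⟨?_, ?_⟩
      · rw [stepC' s]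
        exact i2
      · have e1 : Cr (s+1+1) (s+1) = Cr s (s+1) := by
          rw [hCmod (s+1+1), hCmod s]
          have : (s + 1 + 1) % 2 = s % 2 := by omega
          rw [this]
        rw [e1, stepC s (by omega)]
        exact Gen.inf _ _ i1 (Gen.dia' i2)
  refine ⟨g, X, ?_, ?_⟩
  · intro s hs
    obtain ⟨i1, i2⟩ := main s (by omega)
    rw [stepX s hs]
    exact Gen.inf _ _ i1 (Gen.compl _ (Gen.dia' i2))
  · intro i j hij hj heq
    have e1 : X i ∈ (x i).s := hX1 i (by omega)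
    have e2 := m2 i j hij (by omega) _ e1
    have e3 := e1
    rw [heq] at e3
    have e4 := m1 j i hij (by omega) _ e3
    rw [heq] at e4
    exact e2 e4

end KD
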