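import Pool.Agent.KDir.Defs
import Pool.Agent.KBT.Dec

set_option autoImplicit false

namespace KD

open Filter KBT

/-- Finite configurations are realised almost everywhere. -/
theorem transfer {I V W ι : Type*} [Finite ι] (𝒲 : Ultrafilter I) (R : V → V → Prop)
    (R' : W → W → Prop) (f : W → I → V)
    (h : ∀ x y, R' x y ↔ ∀ᶠ i in (𝒲 : Filter I), R (f x i) (f y i)) (g : ι → W) :
    ∃ i : I, ∀ a b : ι, (R (f (g a) i) (f (g b) i) ↔ R' (g a) (g b)) := by
  have h1 : ∀ᶠ i in (𝒲 : Filter I), ∀ a b : ι, (R (f (g a) i) (f (g b) i) ↔ R' (g a) (g b)) := by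
    simp only [eventually_all]
    intro a b
    rw [h]
    exact ev_dec 𝒲 (fun i => R (f (g a) i) (f (g b) i))
  exact h1.exists

theorem good_lim {I V W : Type*} (𝒲 : Ultrafilter I) (R : V → V → Prop)
    (R' : W → W → Prop) (f : W → I → V)
    (h : ∀ x y, R' x y ↔ ∀ᶠ i in (𝒲 : Filter I), R (f x i) (f y i)) {m : ℕ}
    (hG : Good R m) : Good R' m := by
  refine ⟨?_, ?_, ?_⟩
  · rintro ⟨v, w, h1, h2⟩
    apply hG.1
    obtain ⟨i, hi⟩ := transfer (ι := Bool × Fin (m+1)) 𝒲 R R' f h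
      (fun c => cond c.1 (v c.2) (w c.2))
    have hvv : ∀ a b, a ≤ m → b ≤ m → (R (f (v a) i) (f (v b) i) ↔ R' (v a) (v b)) :=
      fun a b ha hb => hi (true, ⟨a, by omega⟩) (true, ⟨b, by omega⟩)
    have hvw : ∀ a b, a ≤ m → b ≤ m → (R (f (v a) i) (f (w b) i) ↔ R' (v a) (w b)) :=
      fun a b ha hb => hi (true, ⟨a, by omega⟩) (false, ⟨b, by omega⟩)
    have hwv : ∀ a b, a ≤ m → b ≤ m → (R (f (w a) i) (f (v b) i) ↔ R' (w a) (v b)) :=
      fun a b ha hb => hi (false, ⟨a, by omega⟩) (true, ⟨b, by omega⟩)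
    have hww : ∀ a b, a ≤ m → b ≤ m → (R (f (w a) i) (f (w b) i) ↔ R' (w a) (w b)) :=
      fun a b ha hb => hi (false, ⟨a, by omega⟩) (false, ⟨b, by omega⟩)
    refine ⟨fun a => f (v a) i, fun a => f (w a) i, ?_, ?_⟩
    · intro a ha
      rw [hvv _ _ (by omega) (by omega), hvw _ _ (by omega) (by omega),
        hwv _ _ (by omega) (by omega), hww _ _ (by omega) (by omega)]
      exact h1 a ha
    · intro a b hab hb
      rw [hvv _ _ (by omega) (by omega), hvw _ _ (by omega) (by omega),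
        hwv _ _ (by omega) (by omega), hww _ _ (by omega) (by omega)]
      exact h2 a b hab hb
  · rintro ⟨x, h1⟩
    apply hG.2.1
    obtain ⟨i, hi⟩ := transfer (ι := Fin m) 𝒲 R R' f h (fun c => x c)
    refine ⟨fun n => f (x n) i, ?_⟩
    intro n hn n' hn' hne
    exact (hi ⟨n', hn'⟩ ⟨n, hn⟩).trans (h1 n hn n' hn' hne)
  · rintro s hs ⟨v, w, h1, h2, h3, h4, h5⟩
    apply hG.2.2 s hs
    obtain ⟨i, hi⟩ := transfer (ι := Bool × Fin m × Fin (s+1)) 𝒲 R R' f h
      (fun c => cond c.1 (v c.2.1 c.2.2) (w c.2.1 c.2.2))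
    have hvv : ∀ n n' a b, n < m → n' < m → a ≤ s → b ≤ s →
        (R (f (v n a) i) (f (v n' b) i) ↔ R' (v n a) (v n' b)) :=
      fun n n' a b hn hn' ha hb => hi (true, ⟨n, hn⟩, ⟨a, by omega⟩) (true, ⟨n', hn'⟩, ⟨b, by omega⟩)
    have hvw : ∀ n n' a b, n < m → n' < m → a ≤ s → b ≤ s →
        (R (f (v n a) i) (f (w n' b) i) ↔ R' (v n a) (w n' b)) :=
      fun n n' a b hn hn' ha hb => hi (true, ⟨n, hn⟩, ⟨a, by omega⟩) (false, ⟨n', hn'⟩, ⟨b, by omega⟩)
    have hwv : ∀ n n' a b, n < m → n' < m → a ≤ s → b ≤ s →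
        (R (f (w n a) i) (f (v n' b) i) ↔ R' (w n a) (v n' b)) :=
      fun n n' a b hn hn' ha hb => hi (false, ⟨n, hn⟩, ⟨a, by omega⟩) (true, ⟨n', hn'⟩, ⟨b, by omega⟩)
    have hww : ∀ n n' a b, n < m → n' < m → a ≤ s → b ≤ s →
        (R (f (w n a) i) (f (w n' b) i) ↔ R' (w n a) (w n' b)) :=
      fun n n' a b hn hn' ha hb =>
        hi (false, ⟨n, hn⟩, ⟨a, by omega⟩) (false, ⟨n', hn'⟩, ⟨b, by omega⟩)
    refine ⟨fun n a => f (v n a) i, fun n a => f (w n a) i, ?_, ?_, ?_, ?_, ?_⟩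
    · intro n hn b hb
      rw [hvv _ _ _ _ hn hn (by omega) (by omega), hvw _ _ _ _ hn hn (by omega) (by omega),
        hwv _ _ _ _ hn hn (by omega) (by omega), hww _ _ _ _ hn hn (by omega) (by omega)]
      exact h1 n hn b hb
    · intro n hn b b' hbb hb'
      rw [hvv _ _ _ _ hn hn (by omega) (by omega), hvw _ _ _ _ hn hn (by omega) (by omega),
        hwv _ _ _ _ hn hn (by omega) (by omega), hww _ _ _ _ hn hn (by omega) (by omega)]
      exact h2 n hn b b' hbb hb'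
    · intro n n' hnn hn' b hb b' hb'
      have hn : n < m := by omega
      rw [hvv _ _ _ _ hn' hn hb' hb, hvw _ _ _ _ hn' hn hb' hb,
        hwv _ _ _ _ hn' hn hb' hb, hww _ _ _ _ hn' hn hb' hb]
      exact h3 n n' hnn hn' b hb b' hb'
    · intro n n' hnn hn'
      have hn : n < m := by omega
      rw [hvv _ _ _ _ hn' hn (by omega) (by omega), hwv _ _ _ _ hn' hn (by omega) (by omega)]
      exact h4 n n' hnn hn'
    · intro n n' hnn hn
      have hn' : n' < m := by omega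
      rw [hvv _ _ _ _ hn' hn (by omega) (by omega), hwv _ _ _ _ hn' hn (by omega) (by omega)]
      exact h5 n n' hnn hn

/-- The ultrapower. -/
noncomputable abbrev UX (V : Type) : Type := Filter.Germ (hyperfilter ℕ : Filter ℕ) V

/-- representatives -/
noncomputable def rep {V : Type} (x : UX V) : ℕ → V := Quotient.out x

/-- class of a sequence -/
noncomputable def cl {V : Type} (f : ℕ → V) : UX V := Quotient.mk _ f

theorem rep_cl {V : Type} (f : ℕ → V) : rep (cl f) =ᶠ[(hyperfilter ℕ : Filter ℕ)] f :=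
  Quotient.mk_out (s := (hyperfilter ℕ : Filter ℕ).germSetoid V) f

theorem cl_rep {V : Type} (x : UX V) : cl (rep x) = x := Quotient.out_eq _

theorem cl_eq {V : Type} {f g : ℕ → V} (h : f =ᶠ[(hyperfilter ℕ : Filter ℕ)] g) :
    cl f = cl g := Quotient.sound (s := (hyperfilter ℕ : Filter ℕ).germSetoid V) h

theorem rep_inj {V : Type} {x y : UX V} (h : rep x =ᶠ[(hyperfilter ℕ : Filter ℕ)] rep y) :
    x = y := by
  rw [← cl_rep x, ← cl_rep y]
  exact cl_eq h

/-- the relation of the ultrapower -/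
noncomputable def RX {V : Type} (R : V → V → Prop) (x y : UX V) : Prop :=
  ∀ᶠ n in (hyperfilter ℕ : Filter ℕ), R (rep x n) (rep y n)

theorem good_RX {V : Type} {R : V → V → Prop} {m : ℕ} (hG : Good R m) : Good (RX R) m :=
  good_lim (hyperfilter ℕ) R (RX R) rep (fun _ _ => Iff.rfl) hG

theorem RX_cl {V : Type} (R : V → V → Prop) (f g : ℕ → V) :
    RX R (cl f) (cl g) ↔ ∀ᶠ n in (hyperfilter ℕ : Filter ℕ), R (f n) (g n) := by
  unfold RX
  refine eventually_congr ?_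
  filter_upwards [rep_cl f, rep_cl g] with n h1 h2
  rw [h1, h2]

end KD
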