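import Pool.Agent.KDir.Dld

set_option autoImplicit false

namespace KD

open Filter KBT

/-- Removing finitely many points. -/
theorem rm1 (c τ : ℕ) : ∃ c' : ℕ, ∀ (N : ℕ) {V : Type} (R : V → V → Prop) (C : Set V)
    (t : Fin τ → V), Tame R (C \ Set.range t) c' N → Tame R C c (N + τ) := by
  classical
  let Col : Type := Fin c × Set (Fin τ)
  refine ⟨Fintype.card Col, ?_⟩
  intro N V R C t hT χ
  let col : V → Col := fun x => (χ x, {i | R x (t i)})
  obtain ⟨π, h1, h2⟩ := hT (fun x => Fintype.equivFin Col (col x))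
  have h3 : ∀ x ∈ C \ Set.range t, ∀ y ∈ C \ Set.range t, π x = π y → col x = col y :=
    fun x hx y hy hxy => (Fintype.equivFin Col).injective (h2 x hx y hy hxy)
  let pp : V → Fin N ⊕ Fin τ := fun x =>
    if h : x ∈ Set.range t then Sum.inr h.choose else Sum.inl (π x)
  have hin : ∀ x, ∀ h : x ∈ Set.range t, pp x = Sum.inr h.choose := fun x h => by
    simp only [pp, h, dite_true]
  have hout : ∀ x, x ∉ Set.range t → pp x = Sum.inl (π x) := fun x h => by
    simp only [pp, h, dite_false]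
  have hcase : ∀ x ∈ C, ∀ y ∈ C, pp x = pp y → x = y ∨
      (x ∈ C \ Set.range t ∧ y ∈ C \ Set.range t ∧ π x = π y) := by
    intro x hx y hy hxy
    by_cases h4 : x ∈ Set.range t
    · by_cases h5 : y ∈ Set.range t
      · rw [hin x h4, hin y h5] at hxy
        left
        rw [← h4.choose_spec, ← h5.choose_spec, Sum.inr.inj hxy]
      · rw [hin x h4, hout y h5] at hxy
        cases hxy
    · by_cases h5 : y ∈ Set.range t
      · rw [hout x h4, hin y h5] at hxy
        cases hxy
      · rw [hout x h4, hout y h5] at hxy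
        exact Or.inr ⟨⟨hx, h4⟩, ⟨hy, h5⟩, Sum.inl.inj hxy⟩
  refine ⟨fun x => finSumFinEquiv (pp x), ?_, ?_⟩
  · intro x hx y hy hxy z hz hxz
    rcases hcase x hx y hy (finSumFinEquiv.injective hxy) with h4 | ⟨h4, h5, h6⟩
    · subst h4
      exact ⟨z, hz, hxz, rfl⟩
    · by_cases h7 : z ∈ Set.range t
      · refine ⟨z, hz, ?_, rfl⟩
        obtain ⟨i, hi⟩ := h7
        have h8 := h3 x h4 y h5 h6
        have h9 : i ∈ (col x).2 := by
          show R x (t i)
          rw [hi]
          exact hxz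
        rw [h8] at h9
        rw [← hi]
        exact h9
      · obtain ⟨z', hz', h8, h9⟩ := h1 x h4 y h5 h6 z ⟨hz, h7⟩ hxz
        refine ⟨z', hz'.1, h8, ?_⟩
        dsimp only
        rw [hout z' hz'.2, hout z h7, h9]
  · intro x hx y hy hxy
    rcases hcase x hx y hy (finSumFinEquiv.injective hxy) with h4 | ⟨h4, h5, h6⟩
    · rw [h4]
    · exact congrArg Prod.fst (h3 x h4 y h5 h6)

/-- membership in an internal set -/
def InC {V : Type} (C : ℕ → Set V) (x : UX V) : Prop :=
  ∀ᶠ n in (hyperfilter ℕ : Filter ℕ), rep x n ∈ C n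

/-- the internal set without the points of T -/
def CmT {V : Type} (C : ℕ → Set V) (T : Finset (UX V)) (n : ℕ) : Set V :=
  {a | a ∈ C n ∧ ∀ s ∈ T, a ≠ rep s n}

theorem rm {V : Type} {R : V → V → Prop} {C : ℕ → Set V} (hC : NT R C) (T : Finset (UX V)) :
    NT R (CmT C T) := by
  classical
  obtain ⟨c, hc⟩ := hC
  obtain ⟨c', hc'⟩ := rm1 c T.card
  refine ⟨c', fun N => ?_⟩
  filter_upwards [hc (N + T.card)] with n hn hT
  apply hn
  refine hc' N R (C n) (fun i => rep (T.equivFin.symm i).1 n) ?_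
  have hset : C n \ Set.range (fun i => rep (T.equivFin.symm i).1 n) = CmT C T n := by
    ext a
    constructor
    · rintro ⟨h1, h2⟩
      refine ⟨h1, fun s hs h3 => h2 ⟨T.equivFin ⟨s, hs⟩, ?_⟩⟩
      simp only [Equiv.symm_apply_apply]
      exact h3.symm
    · rintro ⟨h1, h2⟩
      refine ⟨h1, ?_⟩
      rintro ⟨i, hi⟩
      exact h2 _ (T.equivFin.symm i).2 hi.symm
  rw [hset]
  exact hT

theorem not_InC_CmT {V : Type} {C : ℕ → Set V} {T : Finset (UX V)} {s : UX V} (hs : s ∈ T) :
    ¬ InC (CmT C T) s := by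
  intro h
  obtain ⟨n, hn⟩ := Filter.Eventually.exists h
  exact hn.2 s hs rfl

/-- row type -/
def rt {X : Type*} (R : X → X → Prop) (S : Finset X) (x : X) : Set X := {s | s ∈ S ∧ R x s}

/-- column type -/
def ct {X : Type*} (R : X → X → Prop) (S : Finset X) (x : X) : Set X := {s | s ∈ S ∧ R s x}

/-- The relation R flipped by a relation Φ on the types over S. -/
def EFD {X : Type*} (R : X → X → Prop) (S : Finset X) (Φ : Set X → Set X → Prop) (x y : X) :
    Prop :=
  ¬ (R x y ↔ Φ (rt R S x) (ct R S y))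

theorem rt_n {V : Type} {R : V → V → Prop} (T : Finset (UX V)) (f : UX V) :
    ∀ᶠ n in (hyperfilter ℕ : Filter ℕ),
      Subtype.val '' {s : {s // s ∈ T} | R (rep f n) (rep s.1 n)} = rt (RX R) T f := by
  classical
  have h1 : ∀ᶠ n in (hyperfilter ℕ : Filter ℕ), ∀ s ∈ T,
      (R (rep f n) (rep s n) ↔ RX R f s) := by
    rw [eventually_all_finset]
    exact fun s _ => ev_dec (hyperfilter ℕ) (fun n => R (rep f n) (rep s n))
  filter_upwards [h1] with n hn
  ext s
  constructor
  · rintro ⟨⟨s', hs'⟩, h2, rfl⟩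
    exact ⟨hs', (hn s' hs').mp h2⟩
  · rintro ⟨h2, h3⟩
    exact ⟨⟨s, h2⟩, (hn s h2).mpr h3, rfl⟩

theorem ct_n {V : Type} {R : V → V → Prop} (T : Finset (UX V)) (f : UX V) :
    ∀ᶠ n in (hyperfilter ℕ : Filter ℕ),
      Subtype.val '' {s : {s // s ∈ T} | R (rep s.1 n) (rep f n)} = ct (RX R) T f := by
  classical
  have h1 : ∀ᶠ n in (hyperfilter ℕ : Filter ℕ), ∀ s ∈ T,
      (R (rep s n) (rep f n) ↔ RX R s f) := by
    rw [eventually_all_finset]
    exact fun s _ => ev_dec (hyperfilter ℕ) (fun n => R (rep s n) (rep f n))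
  filter_upwards [h1] with n hn
  ext s
  constructor
  · rintro ⟨⟨s', hs'⟩, h2, rfl⟩
    exact ⟨hs', (hn s' hs').mp h2⟩
  · rintro ⟨h2, h3⟩
    exact ⟨⟨s, h2⟩, (hn s h2).mpr h3, rfl⟩

/-- One step: inside one strong component of a flip. -/
theorem oned {V : Type} {R : V → V → Prop} {m : ℕ} (hG : Good R m)
    (C : ℕ → Set V) (hC : NT R C) (T : Finset (UX V)) (Φ : Set (UX V) → Set (UX V) → Prop) :
    ∃ C' : ℕ → Set V, (∀ n, C' n ⊆ C n) ∧ NT R C' ∧
      ∀ x y : UX V, InC C' x → InC C' y →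
        Relation.ReflTransGen (fun a b => EFD (RX R) T Φ a b ∧ InC C a ∧ InC C b) x y := by
  classical
  let Col : Type := Set {s // s ∈ T} × Set {s // s ∈ T}
  let e : Col ≃ Fin (Fintype.card Col) := Fintype.equivFin Col
  let κ : ℕ → V → Fin (Fintype.card Col) := fun n a =>
    e ({s | R a (rep s.1 n)}, {s | R (rep s.1 n) a})
  let Φ' : Fin (Fintype.card Col) → Fin (Fintype.card Col) → Prop :=
    fun i j => Φ (Subtype.val '' (e.symm i).1) (Subtype.val '' (e.symm j).2)
  obtain ⟨K, hK1, hK2, hK3⟩ := dld hG C κ (fun _ => Φ') hC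
  refine ⟨K, hK2, hK1, ?_⟩
  intro x y hx hy
  obtain ⟨L, hL⟩ := pld hG (Fintype.card Col)
  have hpath : ∀ n : ℕ, ∃ (l : ℕ) (p : ℕ → V), rep x n ∈ K n ∧ rep y n ∈ K n →
      l ≤ L ∧ p 0 = rep x n ∧ p l = rep y n ∧ ∀ i < l, EC R (κ n) Φ' (C n) (p i) (p (i+1)) := by
    intro n
    by_cases hn : rep x n ∈ K n ∧ rep y n ∈ K n
    · obtain ⟨l, hl, p, h1, h2, h3⟩ := hL _ _ _ _ _ (hK3 n _ hn.1 _ hn.2)
      exact ⟨l, p, fun _ => ⟨hl, h1, h2, h3⟩⟩
    · exact ⟨0, fun _ => rep x n, fun h => absurd h hn⟩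
  choose l p hp using hpath
  have hgood : ∀ᶠ n in (hyperfilter ℕ : Filter ℕ), rep x n ∈ K n ∧ rep y n ∈ K n := hx.and hy
  let yf : ℕ → ℕ → V := fun t n => p n (min t (l n))
  let Y : ℕ → UX V := fun t => cl (yf t)
  have hY0 : Y 0 = x := by
    apply rep_inj
    refine (rep_cl (yf 0)).trans ?_
    filter_upwards [hgood] with n hn
    show p n (min 0 (l n)) = rep x n
    rw [Nat.zero_min]
    exact (hp n hn).2.1
  have hYL : Y L = y := by
    apply rep_inj
    refine (rep_cl (yf L)).trans ?_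
    filter_upwards [hgood] with n hn
    show p n (min L (l n)) = rep y n
    obtain ⟨h1, _, h3, _⟩ := hp n hn
    rw [min_eq_right h1]
    exact h3
  have hstep : ∀ t, Relation.ReflTransGen (fun a b => EFD (RX R) T Φ a b ∧ InC C a ∧ InC C b)
      (Y t) (Y (t+1)) := by
    intro t
    have h2 : ∀ᶠ n in (hyperfilter ℕ : Filter ℕ), yf t n = yf (t+1) n ∨
        EC R (κ n) Φ' (C n) (yf t n) (yf (t+1) n) := by
      filter_upwards [hgood] with n hn
      obtain ⟨_, _, _, h4⟩ := hp n hn
      by_cases htn : t < l n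
      · right
        have e1 : min t (l n) = t := by omega
        have e2 : min (t+1) (l n) = t + 1 := by omega
        simp only [yf, e1, e2]
        exact h4 t htn
      · left
        have e1 : min t (l n) = l n := by omega
        have e2 : min (t+1) (l n) = l n := by omega
        simp only [yf, e1, e2]
    rw [Ultrafilter.eventually_or] at h2
    rcases h2 with h2 | h2
    · have h3 : Y t = Y (t+1) := cl_eq h2
      rw [h3]
    · refine Relation.ReflTransGen.single ⟨?_, ?_, ?_⟩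
      · obtain ⟨n, ⟨⟨⟨⟨⟨h1, h3⟩, h4⟩, h5⟩, h6⟩, h7⟩⟩ := (((((h2.and (rep_cl (yf t))).and
          (rep_cl (yf (t+1)))).and (rt_n (R := R) T (Y t))).and (ct_n (R := R) T (Y (t+1)))).and
          (ev_dec (hyperfilter ℕ) (fun n => R (rep (Y t) n) (rep (Y (t+1)) n)))).exists
        unfold EFD
        have h8 : RX R (Y t) (Y (t+1)) ↔ R (rep (Y t) n) (rep (Y (t+1)) n) := h7.symm
        rw [h8, ← h5, ← h6]
        have h9 := h1.1
        rw [← h3, ← h4] at h9
        have h10 : Φ' (κ n (rep (cl (yf t)) n)) (κ n (rep (cl (yf (t+1))) n)) ↔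
            Φ (Subtype.val '' {s : {s // s ∈ T} | R (rep (Y t) n) (rep s.1 n)})
              (Subtype.val '' {s : {s // s ∈ T} | R (rep s.1 n) (rep (Y (t+1)) n)}) := by
          simp only [Φ', κ, Equiv.symm_apply_apply]
          rfl
        rw [h10] at h9
        exact h9
      · filter_upwards [h2, rep_cl (yf t)] with n h3 h4
        show rep (cl (yf t)) n ∈ C n
        rw [h4]
        exact h3.2.1
      · filter_upwards [h2, rep_cl (yf (t+1))] with n h3 h4
        show rep (cl (yf (t+1))) n ∈ C n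
        rw [h4]
        exact h3.2.2
  have hall : ∀ t, Relation.ReflTransGen (fun a b => EFD (RX R) T Φ a b ∧ InC C a ∧ InC C b)
      (Y 0) (Y t) := by
    intro t
    induction t with
    | zero => exact Relation.ReflTransGen.refl
    | succ t ih => exact ih.trans (hstep t)
  have := hall L
  rw [hY0, hYL] at this
  exact this

end KD
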