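import Pool.Agent.KDir.Lim
import Pool.Agent.KDir.Inf
import Pool.Agent.KDir.Wlud

set_option autoImplicit false

namespace KD

open Filter KBT

/-- Chordless paths are short. -/
theorem pld0 {V : Type*} {R : V → V → Prop} {m : ℕ} (hG : Good R m) (k : ℕ) :
    ∃ L : ℕ, ∀ (κ : V → Fin k) (Φ : Fin k → Fin k → Prop) (n : ℕ) (p : ℕ → V),
      (∀ i < n, ¬ (R (p i) (p (i+1)) ↔ Φ (κ (p i)) (κ (p (i+1))))) →
      (∀ i j, i + 2 ≤ j → j ≤ n → (R (p i) (p j) ↔ Φ (κ (p i)) (κ (p j)))) → n ≤ L := by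
  classical
  by_contra hcon0
  have hcon : ∀ L : ℕ, ∃ (κ : V → Fin k) (Φ : Fin k → Fin k → Prop) (n : ℕ) (p : ℕ → V),
      (∀ i < n, ¬ (R (p i) (p (i+1)) ↔ Φ (κ (p i)) (κ (p (i+1))))) ∧
      (∀ i j, i + 2 ≤ j → j ≤ n → (R (p i) (p j) ↔ Φ (κ (p i)) (κ (p j)))) ∧ L < n := by
    intro L
    by_contra hc
    exact hcon0 ⟨L, fun κ Φ n p h1 h2 => by
      by_contra h3
      exact hc ⟨κ, Φ, n, p, h1, h2, by omega⟩⟩
  choose κ Φ n p h1 h2 h3 using hcon
  set 𝒰 : Ultrafilter ℕ := hyperfilter ℕ with h𝒰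
  let R' : ℕ → ℕ → Prop := fun i j => ∀ᶠ L in (𝒰 : Filter ℕ), R (p L i) (p L j)
  have hG' : Good R' m := good_lim 𝒰 R R' (fun i L => p L i) (fun _ _ => Iff.rfl) hG
  have hc : ∀ i : ℕ, ∃ c : Fin k, ∀ᶠ L in (𝒰 : Filter ℕ), κ L (p L i) = c := by
    intro i
    obtain ⟨d, _, hd⟩ := ev_pigeon 𝒰 (Set.finite_univ) (fun L => κ L (p L i))
      (Eventually.of_forall fun _ => Set.mem_univ _)
    exact ⟨d, hd⟩
  choose c hc using hc
  let Φ' : Fin k → Fin k → Prop := fun a b => ∀ᶠ L in (𝒰 : Filter ℕ), Φ L a b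
  refine no_inf R' hG' c Φ' ?_ ?_
  · intro i
    obtain ⟨L, ⟨⟨⟨g1, g2⟩, g3⟩, g4⟩, g5⟩ := (((((ev_dec 𝒰 (fun L => R (p L i) (p L (i+1)))).and
      (ev_dec 𝒰 (fun L => Φ L (c i) (c (i+1))))).and (hc i)).and (hc (i+1))).and
      (ev_ge (i+2))).exists
    have g6 := h1 L i (by have := h3 L; omega)
    rw [g3, g4] at g6
    show ¬ (R' i (i+1) ↔ Φ' (c i) (c (i+1)))
    rw [g1, g2] at g6
    exact g6
  · intro i j hij
    obtain ⟨L, ⟨⟨⟨g1, g2⟩, g3⟩, g4⟩, g5⟩ := (((((ev_dec 𝒰 (fun L => R (p L i) (p L j))).and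
      (ev_dec 𝒰 (fun L => Φ L (c i) (c j)))).and (hc i)).and (hc j)).and
      (ev_ge (j+2))).exists
    have g6 := h2 L i j hij (by have := h3 L; omega)
    rw [g3, g4] at g6
    show (R' i j ↔ Φ' (c i) (c j))
    rw [g1, g2] at g6
    exact g6

/-- the flipped relation inside C -/
def EC {V : Type*} (R : V → V → Prop) {k : ℕ} (κ : V → Fin k) (Φ : Fin k → Fin k → Prop)
    (C : Set V) (a b : V) : Prop := ¬ (R a b ↔ Φ (κ a) (κ b)) ∧ a ∈ C ∧ b ∈ C

/-- Short paths. -/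
theorem pld {V : Type*} {R : V → V → Prop} {m : ℕ} (hG : Good R m) (k : ℕ) :
    ∃ L : ℕ, ∀ (κ : V → Fin k) (Φ : Fin k → Fin k → Prop) (C : Set V) (x y : V),
      Relation.ReflTransGen (EC R κ Φ C) x y →
      ∃ n ≤ L, ∃ p : ℕ → V, p 0 = x ∧ p n = y ∧ ∀ i < n, EC R κ Φ C (p i) (p (i+1)) := by
  obtain ⟨L, hL⟩ := pld0 hG k
  refine ⟨L, ?_⟩
  intro κ Φ C x y hxy
  obtain ⟨n, p, h0, hn, h1, h2⟩ := chordless hxy
  refine ⟨n, ?_, p, h0, hn, h1⟩
  have hC : ∀ i ≤ n, 1 ≤ n → p i ∈ C := by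
    intro i hi hn1
    by_cases h3 : i < n
    · exact (h1 i h3).2.1
    · have h4 : i = (n-1) + 1 := by omega
      rw [h4]
      exact (h1 (n-1) (by omega)).2.2
  refine hL κ Φ n p (fun i hi => (h1 i hi).1) ?_
  intro i j hij hj
  by_contra hcon
  exact h2 i j hij hj ⟨hcon, hC i (by omega) (by omega), hC j hj (by omega)⟩

theorem ev_lt2 : ∀ᶠ q in (prodU (hyperfilter ℕ) (hyperfilter ℕ) : Filter (ℕ × ℕ)), q.1 < q.2 := by
  rw [ev_prodU]
  refine Eventually.of_forall fun a => ?_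
  filter_upwards [ev_ge (a+1)] with b hb
  exact hb

/-- Chains of strong components are short. -/
theorem chain_bd {V : Type} {R : V → V → Prop} {m : ℕ} (hG : Good R m) (k : ℕ) :
    ∃ d : ℕ, ∀ (κ : V → Fin k) (Φ : Fin k → Fin k → Prop) (C : Set V) (n : ℕ) (x : ℕ → V),
      (∀ i < n, Relation.ReflTransGen (EC R κ Φ C) (x i) (x (i+1)) ∧
        ¬ Relation.ReflTransGen (EC R κ Φ C) (x (i+1)) (x i)) → n ≤ d := by
  classical
  by_contra hcon
  push Not at hcon
  choose κ Φ C N x hx hN using hcon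
  obtain ⟨L, hL⟩ := pld hG k
  have hfw : ∀ n a b, a ≤ b → b ≤ n →
      Relation.ReflTransGen (EC R (κ n) (Φ n) (C n)) (x n a) (x n b) := by
    intro n a b hab
    induction hab with
    | refl => intro _; exact Relation.ReflTransGen.refl
    | @step b _ ih => intro hb; exact (ih (by omega)).trans (hx n b (by have := hN n; omega)).1
  have hbw : ∀ n a b, a < b → b ≤ n →
      ¬ Relation.ReflTransGen (EC R (κ n) (Φ n) (C n)) (x n b) (x n a) := by
    intro n a b hab hb h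
    exact (hx n a (by have := hN n; omega)).2 ((hfw n (a+1) b hab hb).trans h)
  have hpath : ∀ n a b, ∃ (l : ℕ) (p : ℕ → V), a < b → b ≤ n → l ≤ L ∧ p 0 = x n a ∧
      p l = x n b ∧ ∀ i < l, EC R (κ n) (Φ n) (C n) (p i) (p (i+1)) := by
    intro n a b
    by_cases h : a < b ∧ b ≤ n
    · obtain ⟨l, hl, p, h1, h2, h3⟩ := hL _ _ _ _ _ (hfw n a b h.1.le h.2)
      exact ⟨l, p, fun _ _ => ⟨hl, h1, h2, h3⟩⟩
    · exact ⟨0, fun _ => x n 0, fun h1 h2 => absurd ⟨h1, h2⟩ h⟩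
  choose l p hp using hpath
  have hlpos : ∀ n a b, a < b → b ≤ n → 1 ≤ l n a b := by
    intro n a b hab hb
    obtain ⟨_, h2, h3, _⟩ := hp n a b hab hb
    by_contra hcn
    have h0 : l n a b = 0 := by omega
    rw [h0] at h3
    apply hbw n a b hab hb
    rw [← h2, ← h3]
  have hpC : ∀ n a b, a < b → b ≤ n → ∀ t ≤ l n a b, p n a b t ∈ C n := by
    intro n a b hab hb t ht
    obtain ⟨_, _, _, h4⟩ := hp n a b hab hb
    have h5 := hlpos n a b hab hb
    by_cases h3 : t < l n a b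
    · exact (h4 t h3).2.1
    · have h6 : t = (l n a b-1) + 1 := by omega
      rw [h6]
      exact (h4 (l n a b-1) (by omega)).2.2
  have hpr1 : ∀ n a b, a < b → b ≤ n → ∀ t ≤ l n a b,
      Relation.ReflTransGen (EC R (κ n) (Φ n) (C n)) (x n a) (p n a b t) := by
    intro n a b hab hb t
    obtain ⟨_, h2, h3, h4⟩ := hp n a b hab hb
    induction t with
    | zero => intro _; rw [h2]
    | succ t ih => intro ht; exact (ih (by omega)).tail (h4 t (by omega))
  have hpr2 : ∀ n a b, a < b → b ≤ n → ∀ t ≤ l n a b,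
      Relation.ReflTransGen (EC R (κ n) (Φ n) (C n)) (p n a b (l n a b - t)) (x n b) := by
    intro n a b hab hb t
    obtain ⟨_, h2, h3, h4⟩ := hp n a b hab hb
    induction t with
    | zero => intro _; rw [Nat.sub_zero, h3]
    | succ t ih =>
      intro ht
      have e : l n a b - (t+1) + 1 = l n a b - t := by omega
      have h5 := h4 (l n a b - (t+1)) (by omega)
      rw [e] at h5
      exact Relation.ReflTransGen.head h5 (ih (by omega))
  -- no edges backwards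
  have hback : ∀ n a b a' b', a' < b' → b' < a → a < b → b ≤ n → ∀ t t',
      (R (p n a b (min t (l n a b))) (p n a' b' (min t' (l n a' b'))) ↔
        Φ n (κ n (p n a b (min t (l n a b)))) (κ n (p n a' b' (min t' (l n a' b'))))) := by
    intro n a b a' b' h1 h2 h3 h4 t t'
    by_contra hcn
    have g1 := hpr1 n a b h3 h4 (min t (l n a b)) (min_le_right _ _)
    have g2 := hpr2 n a' b' h1 (by omega) (l n a' b' - min t' (l n a' b')) (by omega)
    have e : l n a' b' - (l n a' b' - min t' (l n a' b')) = min t' (l n a' b') := by omega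
    rw [e] at g2
    have g3 : EC R (κ n) (Φ n) (C n) (p n a b (min t (l n a b)))
        (p n a' b' (min t' (l n a' b'))) :=
      ⟨hcn, hpC n a b h3 h4 _ (min_le_right _ _), hpC n a' b' h1 (by omega) _ (min_le_right _ _)⟩
    exact hbw n b' a h2 (by omega) ((g1.tail g3).trans g2)
  -- the limit
  set 𝒰 : Ultrafilter ℕ := hyperfilter ℕ with h𝒰
  set 𝒩 := prodU 𝒰 𝒰 with h𝒩
  let yf : ℕ → ℕ → ℕ → (ℕ → V) := fun a b t n => p n a b (min t (l n a b))
  let P : ℕ → ℕ × ℕ → UX V := fun t q => cl (yf q.1 q.2 t)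
  let xx : ℕ → UX V := fun a => cl (fun n => x n a)
  have hk : ∀ f : ℕ → V, ∃ c : Fin k, ∀ᶠ n in (𝒰 : Filter ℕ), κ n (f n) = c := by
    intro f
    obtain ⟨d, _, hd⟩ := ev_pigeon 𝒰 (Set.finite_univ) (fun n => κ n (f n))
      (Eventually.of_forall fun _ => Set.mem_univ _)
    exact ⟨d, hd⟩
  choose kk hkk using hk
  let Φ' : Fin k → Fin k → Prop := fun a b => ∀ᶠ n in (𝒰 : Filter ℕ), Φ n a b
  have hlt : ∀ᶠ q in (𝒩 : Filter (ℕ × ℕ)), q.1 < q.2 := ev_lt2
  have hP0 : P 0 =ᶠ[(𝒩 : Filter (ℕ × ℕ))] xx ∘ Prod.fst := by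
    filter_upwards [hlt] with q hq
    apply cl_eq
    filter_upwards [ev_ge q.2] with n hn
    show p n q.1 q.2 (min 0 (l n q.1 q.2)) = x n q.1
    rw [Nat.zero_min]
    exact (hp n q.1 q.2 hq hn).2.1
  have hPL : P L =ᶠ[(𝒩 : Filter (ℕ × ℕ))] xx ∘ Prod.snd := by
    filter_upwards [hlt] with q hq
    apply cl_eq
    filter_upwards [ev_ge q.2] with n hn
    show p n q.1 q.2 (min L (l n q.1 q.2)) = x n q.2
    obtain ⟨h1, _, h3, _⟩ := hp n q.1 q.2 hq hn
    rw [min_eq_right h1]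
    exact h3
  have hstep : ∀ t, ConnG 𝒩 (RX R) (P t) (P (t+1)) := by
    intro t
    have h1 : ∀ᶠ q in (𝒩 : Filter (ℕ × ℕ)), P t q = P (t+1) q ∨
        ∀ᶠ n in (𝒰 : Filter ℕ), EC R (κ n) (Φ n) (C n) (yf q.1 q.2 t n) (yf q.1 q.2 (t+1) n) := by
      filter_upwards [hlt] with q hq
      have h2 : ∀ᶠ n in (𝒰 : Filter ℕ), yf q.1 q.2 t n = yf q.1 q.2 (t+1) n ∨
          EC R (κ n) (Φ n) (C n) (yf q.1 q.2 t n) (yf q.1 q.2 (t+1) n) := by
        filter_upwards [ev_ge q.2] with n hn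
        obtain ⟨_, _, _, h4⟩ := hp n q.1 q.2 hq hn
        by_cases htn : t < l n q.1 q.2
        · right
          have e1 : min t (l n q.1 q.2) = t := by omega
          have e2 : min (t+1) (l n q.1 q.2) = t + 1 := by omega
          simp only [yf, e1, e2]
          exact h4 t htn
        · left
          have e1 : min t (l n q.1 q.2) = l n q.1 q.2 := by omega
          have e2 : min (t+1) (l n q.1 q.2) = l n q.1 q.2 := by omega
          simp only [yf, e1, e2]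
      rw [Ultrafilter.eventually_or] at h2
      rcases h2 with h2 | h2
      · exact Or.inl (cl_eq h2)
      · exact Or.inr h2
    rw [Ultrafilter.eventually_or] at h1
    rcases h1 with h1 | h1
    · exact connG_of_eq 𝒩 h1
    · apply connG_of_eg
      obtain ⟨α, _, hα⟩ := ev_pigeon 𝒩 (Set.finite_univ) (fun q => kk (yf q.1 q.2 t))
        (Eventually.of_forall fun _ => Set.mem_univ _)
      obtain ⟨α', _, hα'⟩ := ev_pigeon 𝒩 (Set.finite_univ) (fun q => kk (yf q.1 q.2 (t+1)))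
        (Eventually.of_forall fun _ => Set.mem_univ _)
      have e1 : (∀ᶠ q in (𝒩 : Filter (ℕ × ℕ)), RX R (P t q) (P (t+1) q)) ↔ ¬ Φ' α α' := by
        have e2 : ∀ᶠ q in (𝒩 : Filter (ℕ × ℕ)), (RX R (P t q) (P (t+1) q) ↔ ¬ Φ' α α') := by
          filter_upwards [h1, hα, hα'] with q g1 g2 g3
          rw [RX_cl]
          obtain ⟨n, ⟨⟨⟨g4, g5⟩, g6⟩, g7⟩, g8⟩ := ((((g1.and (hkk (yf q.1 q.2 t))).and
            (hkk (yf q.1 q.2 (t+1)))).and (ev_dec 𝒰 (fun n => R (yf q.1 q.2 t n)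
              (yf q.1 q.2 (t+1) n)))).and (ev_dec 𝒰 (fun n => Φ n α α'))).exists
          rw [← g7]
          show _ ↔ ¬ ∀ᶠ n in (𝒰 : Filter ℕ), Φ n α α'
          rw [← g8]
          have g9 := g4.1
          rw [g5, g6, g2, g3] at g9
          tauto
        rw [eventually_congr e2, eventually_const]
      have e3 : Dgt (RX R) (𝒩.map (P t)) (𝒩.map (P (t+1))) ↔ Φ' α α' := by
        have e4 : Dgt (RX R) (𝒩.map (P t)) (𝒩.map (P (t+1))) ↔
            ∀ᶠ q' in (𝒩 : Filter (ℕ × ℕ)), ∀ᶠ q in (𝒩 : Filter (ℕ × ℕ)),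
              RX R (P t q) (P (t+1) q') := Iff.rfl
        rw [e4]
        have e5 : ∀ᶠ q' in (𝒩 : Filter (ℕ × ℕ)), ((∀ᶠ q in (𝒩 : Filter (ℕ × ℕ)),
              RX R (P t q) (P (t+1) q')) ↔ Φ' α α') := by
          filter_upwards [hlt, hα'] with q' hq' g3
          have e6 : ∀ᶠ q in (𝒩 : Filter (ℕ × ℕ)), (RX R (P t q) (P (t+1) q') ↔ Φ' α α') := by
            have e7 : ∀ᶠ q in (𝒩 : Filter (ℕ × ℕ)), q'.2 < q.1 := by
              rw [ev_prodU]
              filter_upwards [ev_ge (q'.2+1)] with a ha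
              exact Eventually.of_forall fun b => ha
            filter_upwards [hlt, e7, hα] with q hq hqq g2
            rw [RX_cl]
            obtain ⟨n, ⟨⟨⟨g4, g5⟩, g6⟩, g7⟩, g8⟩ := (((((ev_ge q.2).and
              (hkk (yf q.1 q.2 t))).and
              (hkk (yf q'.1 q'.2 (t+1)))).and (ev_dec 𝒰 (fun n => R (yf q.1 q.2 t n)
              (yf q'.1 q'.2 (t+1) n)))).and (ev_dec 𝒰 (fun n => Φ n α α'))).exists
            rw [← g7]
            show _ ↔ ∀ᶠ n in (𝒰 : Filter ℕ), Φ n α α'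
            rw [← g8]
            have g9 := hback n q.1 q.2 q'.1 q'.2 hq' hqq hq g4 t (t+1)
            have g10 : κ n (p n q.1 q.2 (min t (l n q.1 q.2))) = α := g5.trans g2
            have g11 : κ n (p n q'.1 q'.2 (min (t+1) (l n q'.1 q'.2))) = α' := g6.trans g3
            rw [g10, g11] at g9
            exact g9
          rw [eventually_congr e6, eventually_const]
        rw [eventually_congr e5, eventually_const]
      unfold Eg
      rw [e1, e3]
      tauto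
  have hall : ∀ t, ConnG 𝒩 (RX R) (P 0) (P t) := by
    intro t
    induction t with
    | zero => exact Relation.ReflTransGen.refl
    | succ t ih => exact connG_trans 𝒩 ih (hstep t)
  have hend : ConnG 𝒩 (RX R) (xx ∘ Prod.fst) (xx ∘ Prod.snd) :=
    connG_trans 𝒩 (connG_of_eq 𝒩 hP0.symm) (connG_trans 𝒩 (hall L) (connG_of_eq 𝒩 hPL))
  rcases connG_cases 𝒩 hend with h1 | h1
  · obtain ⟨q, h2, h3⟩ := (h1.and hlt).exists
    have h4 : cl (fun n => x n q.1) = cl (fun n => x n q.2) := h2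
    have h5 : (fun n => x n q.1) =ᶠ[(hyperfilter ℕ : Filter ℕ)] (fun n => x n q.2) := by
      have h6 := rep_cl (fun n => x n q.1)
      rw [h4] at h6
      exact h6.symm.trans (rep_cl (fun n => x n q.2))
    obtain ⟨n, h6, h7⟩ := (h5.and (ev_ge q.2)).exists
    apply hbw n q.1 q.2 h3 h7
    dsimp only at h6
    rw [h6]
  · exact wlud (good_RX hG) 𝒰 xx (Or.inr h1)

end KD
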