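import Pool.Agent.KDir.Hf

set_option autoImplicit false

namespace KD

open Filter KBT

variable {W : Type*} {R : W → W → Prop}

/-- Reachability inside a set of types. -/
def RT (R : W → W → Prop) (T : Set (Ultrafilter W)) (p q : Ultrafilter W) : Prop :=
  Relation.ReflTransGen (fun p q => Arr R p q ∧ p ∈ T ∧ q ∈ T) p q

theorem mem_bindU {A : Type*} (𝒰 : Ultrafilter A) (f : A → Ultrafilter W) (P : Set W) :
    P ∈ 𝒰.bind f ↔ ∀ᶠ a in (𝒰 : Filter A), P ∈ f a := Iff.rfl

theorem bind_congrU {A : Type*} (𝒰 : Ultrafilter A) {f g : A → Ultrafilter W}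
    (h : ∀ᶠ a in (𝒰 : Filter A), f a = g a) : 𝒰.bind f = 𝒰.bind g := by
  refine Ultrafilter.eq_of_le ?_
  intro P hP
  have hP' : ∀ᶠ a in (𝒰 : Filter A), P ∈ g a := hP
  show ∀ᶠ a in (𝒰 : Filter A), P ∈ f a
  filter_upwards [hP', h] with a h1 h2
  rw [h2]
  exact h1

theorem bind_constU {A : Type*} (𝒰 : Ultrafilter A) (p : Ultrafilter W) :
    𝒰.bind (fun _ => p) = p := by
  refine Ultrafilter.eq_of_le ?_
  intro P hP
  show ∀ᶠ a in (𝒰 : Filter A), P ∈ p
  exact Eventually.of_forall fun _ => hP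

theorem arr_bind {A : Type*} (𝒰 : Ultrafilter A) {f g : A → Ultrafilter W}
    (h : ∀ᶠ a in (𝒰 : Filter A), Arr R (f a) (g a)) : Arr R (𝒰.bind f) (𝒰.bind g) := by
  intro P hP Q hQ
  have hP' : ∀ᶠ a in (𝒰 : Filter A), P ∈ f a := hP
  have hQ' : ∀ᶠ a in (𝒰 : Filter A), Q ∈ g a := hQ
  obtain ⟨a, ⟨h1, h2⟩, h3⟩ := ((hP'.and hQ').and h).exists
  exact h3 P h1 Q h2

/-- Limits of reachable types are reachable. -/
theorem lim_reach {A : Type*} {m : ℕ} (hX : ¬ XP R m) (𝒰 : Ultrafilter A)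
    (f g : A → Ultrafilter W) (Ka : A → Set (Ultrafilter W)) (K : Set (Ultrafilter W))
    (hK : ∀ u : A → Ultrafilter W, (∀ᶠ a in (𝒰 : Filter A), u a ∈ Ka a) → 𝒰.bind u ∈ K)
    (h : ∀ᶠ a in (𝒰 : Filter A), RT R (Ka a) (f a) (g a)) : RT R K (𝒰.bind f) (𝒰.bind g) := by
  classical
  have hpath : ∀ a, ∃ (n : ℕ) (u : ℕ → Ultrafilter W), RT R (Ka a) (f a) (g a) →
      n ≤ m ∧ u 0 = f a ∧ u n = g a ∧
      (∀ t < n, Arr R (u t) (u (t+1)) ∧ u t ∈ Ka a ∧ u (t+1) ∈ Ka a) := by
    intro a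
    by_cases ha : RT R (Ka a) (f a) (g a)
    · obtain ⟨n, hn, u, h1, h2, h3, _⟩ := short hX (Ka a) ha
      exact ⟨n, u, fun _ => ⟨hn, h1, h2, h3⟩⟩
    · exact ⟨0, fun _ => f a, fun h => absurd h ha⟩
  choose n u hu using hpath
  let U : ℕ → A → Ultrafilter W := fun t a => u a (min t (n a))
  have hU0 : 𝒰.bind (U 0) = 𝒰.bind f := by
    apply bind_congrU
    filter_upwards [h] with a ha
    show u a (min 0 (n a)) = f a
    rw [Nat.zero_min]
    exact (hu a ha).2.1
  have hUm : 𝒰.bind (U m) = 𝒰.bind g := by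
    apply bind_congrU
    filter_upwards [h] with a ha
    obtain ⟨h1, _, h3, _⟩ := hu a ha
    show u a (min m (n a)) = g a
    rw [min_eq_right h1]
    exact h3
  have hstep : ∀ t, RT R K (𝒰.bind (U t)) (𝒰.bind (U (t+1))) := by
    intro t
    have h1 : ∀ᶠ a in (𝒰 : Filter A), U t a = U (t+1) a ∨
        (Arr R (U t a) (U (t+1) a) ∧ U t a ∈ Ka a ∧ U (t+1) a ∈ Ka a) := by
      filter_upwards [h] with a ha
      obtain ⟨_, _, _, h4⟩ := hu a ha
      by_cases htn : t < n a
      · right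
        have e1 : min t (n a) = t := by omega
        have e2 : min (t+1) (n a) = t + 1 := by omega
        simp only [U, e1, e2]
        exact h4 t htn
      · left
        have e1 : min t (n a) = n a := by omega
        have e2 : min (t+1) (n a) = n a := by omega
        simp only [U, e1, e2]
    rw [Ultrafilter.eventually_or] at h1
    rcases h1 with h1 | h1
    · rw [bind_congrU 𝒰 h1]
      exact Relation.ReflTransGen.refl
    · exact Relation.ReflTransGen.single ⟨arr_bind 𝒰 (h1.mono fun a ha => ha.1),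
        hK _ (h1.mono fun a ha => ha.2.1), hK _ (h1.mono fun a ha => ha.2.2)⟩
  have hall : ∀ t, RT R K (𝒰.bind (U 0)) (𝒰.bind (U t)) := by
    intro t
    induction t with
    | zero => exact Relation.ReflTransGen.refl
    | succ t ih => exact Relation.ReflTransGen.trans ih (hstep t)
  have h9 := hall m
  rw [hU0, hUm] at h9
  exact h9

/-- A type at the bottom of the reachability order. -/
theorem bottom {m : ℕ} (hX : ¬ XP R m) (CW : ℕ → Set W) (hmono : ∀ i j, i ≤ j → CW j ⊆ CW i)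
    (hne : ∀ i, (CW i).Nonempty) :
    ∃ p : Ultrafilter W, (∀ i, CW i ∈ p) ∧ ∀ q, RT R {q | ∀ i, CW i ∈ q} p q →
      RT R {q | ∀ i, CW i ∈ q} q p := by
  classical
  set K : Set (Ultrafilter W) := {q | ∀ i, CW i ∈ q} with hK
  obtain ⟨p0, hp0⟩ := fip (K := W) (Γ := ℕ) CW (by
    intro F
    obtain ⟨x, hx⟩ := hne (F.sup id)
    exact ⟨x, fun i hi => hmono i _ (Finset.le_sup (f := id) hi) hx⟩)
  obtain ⟨p, hp⟩ := exists_maximal_of_chains_bounded (α := K) (r := fun a b => RT R K a.1 b.1) (by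
    intro c hc
    by_cases hcn : c.Nonempty
    · obtain ⟨𝒰, h𝒰⟩ := fip (K := c) (Γ := c) (fun γ => {q | RT R K γ.1.1 q.1.1}) (by
        intro F
        induction F using Finset.induction_on with
        | empty =>
          obtain ⟨a, ha⟩ := hcn
          exact ⟨⟨a, ha⟩, fun γ hγ => absurd hγ (Finset.notMem_empty γ)⟩
        | insert a F _ ih =>
          obtain ⟨k, hk⟩ := ih
          by_cases hak : a.1 = k.1
          · refine ⟨k, fun γ hγ => ?_⟩
            rcases Finset.mem_insert.mp hγ with h1 | h1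
            · subst h1
              show RT R K γ.1.1 k.1.1
              rw [hak]
              exact Relation.ReflTransGen.refl
            · exact hk γ h1
          · rcases hc a.2 k.2 hak with h1 | h1
            · refine ⟨k, fun γ hγ => ?_⟩
              rcases Finset.mem_insert.mp hγ with h2 | h2
              · subst h2
                exact h1
              · exact hk γ h2
            · refine ⟨a, fun γ hγ => ?_⟩
              rcases Finset.mem_insert.mp hγ with h2 | h2
              · subst h2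
                exact Relation.ReflTransGen.refl
              · exact Relation.ReflTransGen.trans (hk γ h2) h1)
      have hbK : ∀ u : c → Ultrafilter W, (∀ᶠ a in (𝒰 : Filter c), u a ∈ K) → 𝒰.bind u ∈ K := by
        intro u hu i
        show ∀ᶠ a in (𝒰 : Filter c), CW i ∈ u a
        exact hu.mono fun a ha => ha i
      refine ⟨⟨𝒰.bind (fun a => a.1.1), hbK _ (Eventually.of_forall fun a => a.1.2)⟩, ?_⟩
      intro a ha
      have h1 := lim_reach hX 𝒰 (fun _ => a.1) (fun b => b.1.1) (fun _ => K) K hbK (h𝒰 ⟨a, ha⟩)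
      rw [bind_constU] at h1
      exact h1
    · exact ⟨⟨p0, hp0⟩, fun a ha => absurd ⟨a, ha⟩ hcn⟩)
    (fun h1 h2 => Relation.ReflTransGen.trans h1 h2)
  refine ⟨p.1, p.2, ?_⟩
  intro q hq
  have hqK : q ∈ K := by
    unfold RT at hq
    induction hq with
    | refl => exact p.2
    | tail _ h _ => exact h.2.2
  exact hp ⟨q, hqK⟩ hq

/-- Realising a path of types by exceptional pairs. -/
theorem pathreal (u : ℕ → Ultrafilter W) (n : ℕ) (hA : ∀ t < n, Arr R (u t) (u (t+1))) :
    ∃ 𝒥 : Ultrafilter (ℕ → W), (∀ t ≤ n, 𝒥.map (fun x => x t) = u t) ∧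
      ∀ t < n, Eg 𝒥 R (fun x => x t) (fun x => x (t+1)) := by
  classical
  have hA' : ∀ a < n, Arr R (u (n - (a+1))) (u (n - a)) := by
    intro a ha
    have e : n - a = n - (a+1) + 1 := by omega
    rw [e]
    exact hA (n-(a+1)) (by omega)
  obtain ⟨𝒢, h1, h2⟩ := blockU (R := R) (fun a => u (n - a)) n hA'
  let δ : ℕ → Prop := fun t => Dgt R (u t) (u (t+1))
  let X : (ℕ → W) × (ℕ → W) → ℕ → W := fun β t =>
    Nat.rec (β.1 n) (fun t x => if ¬ (R x (β.1 (n-(t+1))) ↔ δ t) then β.1 (n-(t+1))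
      else β.2 (n-(t+1))) t
  have hX0 : ∀ β, X β 0 = β.1 n := fun β => rfl
  have hXs : ∀ β t, X β (t+1) = if ¬ (R (X β t) (β.1 (n-(t+1))) ↔ δ t) then β.1 (n-(t+1))
      else β.2 (n-(t+1)) := fun β t => rfl
  have hXc : ∀ β t, X β t = β.1 (n - t) ∨ X β t = β.2 (n - t) := by
    intro β t
    cases t with
    | zero => exact Or.inl (hX0 β)
    | succ t =>
      rw [hXs]
      split_ifs
      · exact Or.inr rfl
      · exact Or.inl rfl
  have hmarg : ∀ t ≤ n, (𝒢.map X).map (fun x => x t) = u t := by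
    intro t ht
    have e1 : (𝒢.map X).map (fun x => x t) = 𝒢.map (fun β => X β t) := rfl
    rw [e1]
    obtain ⟨g1, g2⟩ := h1 (n - t) (by omega)
    have e2 : n - (n - t) = t := by omega
    rw [e2] at g1 g2
    have h3 : ∀ᶠ β in (𝒢 : Filter ((ℕ → W) × (ℕ → W))), X β t = β.1 (n - t) ∨
        X β t = β.2 (n - t) := Eventually.of_forall fun β => hXc β t
    rw [Ultrafilter.eventually_or] at h3
    rcases h3 with h3 | h3
    · rw [← g1]
      apply Ultrafilter.coe_injective
      rw [Ultrafilter.coe_map, Ultrafilter.coe_map]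
      exact Filter.map_congr h3
    · rw [← g2]
      apply Ultrafilter.coe_injective
      rw [Ultrafilter.coe_map, Ultrafilter.coe_map]
      exact Filter.map_congr h3
  refine ⟨𝒢.map X, hmarg, ?_⟩
  intro t ht
  unfold Eg
  rw [hmarg t ht.le, hmarg (t+1) ht]
  have h3 : ∀ᶠ β in (𝒢 : Filter ((ℕ → W) × (ℕ → W))), (R (X β t) (X β (t+1)) ↔ ¬ δ t) := by
    filter_upwards [h2] with β hβ
    have h4 := hβ (n-(t+1)) (by omega)
    have e3 : n - (t+1) + 1 = n - t := by omega
    rw [e3] at h4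
    have h5 : R (X β t) (β.1 (n-(t+1))) ↔ ¬ R (X β t) (β.2 (n-(t+1))) := by
      rcases hXc β t with h6 | h6
      · rw [h6]
        exact h4.1
      · rw [h6]
        exact h4.2
    rw [hXs]
    split_ifs with h6
    · tauto
    · tauto
  have h4 : (∀ᶠ x in ((𝒢.map X : Ultrafilter (ℕ → W)) : Filter (ℕ → W)), R (x t) (x (t+1))) ↔
      ∀ᶠ β in (𝒢 : Filter ((ℕ → W) × (ℕ → W))), R (X β t) (X β (t+1)) := Iff.rfl
  rw [h4, eventually_congr h3, eventually_const]
  show ¬ (¬ δ t ↔ δ t)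
  tauto

end KD
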