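import Pool.Agent.KDir.Oned
import Pool.Agent.KBT.Flips

set_option autoImplicit false

namespace KD

open Filter KBT

/-- Only the restriction of Φ to subsets of T matters. -/
theorem EFD_congr {X : Type*} {R : X → X → Prop} (T : Finset X) {Φ Φ' : Set X → Set X → Prop}
    (h : ∀ A B : Set X, A ⊆ T → B ⊆ T → (Φ A B ↔ Φ' A B)) : EFD R T Φ = EFD R T Φ' := by
  funext x y
  have h1 : rt R T x ⊆ T := fun s hs => hs.1
  have h2 : ct R T y ⊆ T := fun s hs => hs.1
  unfold EFD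
  rw [h _ _ h1 h2]

/-- A flip over T is a flip over every larger finite set. -/
theorem EFD_larger {X : Type*} {R : X → X → Prop} {T S : Finset X} (hTS : T ⊆ S)
    (Φ : Set X → Set X → Prop) :
    EFD R S (fun A B => Φ (A ∩ T) (B ∩ T)) = EFD R T Φ := by
  have h1 : ∀ x, rt R S x ∩ T = rt R T x := by
    intro x
    ext s
    constructor
    · rintro ⟨⟨_, h2⟩, h3⟩
      exact ⟨h3, h2⟩
    · rintro ⟨h2, h3⟩
      exact ⟨⟨hTS h2, h3⟩, h2⟩
  have h1' : ∀ x, ct R S x ∩ T = ct R T x := by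
    intro x
    ext s
    constructor
    · rintro ⟨⟨_, h2⟩, h3⟩
      exact ⟨h3, h2⟩
    · rintro ⟨h2, h3⟩
      exact ⟨⟨hTS h2, h3⟩, h2⟩
  funext x y
  unfold EFD
  dsimp only
  rw [h1, h1']

theorem rtg_mono {X : Type*} {E E' : X → X → Prop} (h : ∀ a b, E a b → E' a b) {x y : X}
    (hxy : Relation.ReflTransGen E x y) : Relation.ReflTransGen E' x y :=
  Relation.ReflTransGen.mono (fun a b hab => h a b hab) _ _ hxy

/-- All flips over T simultaneously. -/
theorem allflipsD {V : Type} {R : V → V → Prop} {m : ℕ} (hG : Good R m) (C : ℕ → Set V)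
    (hC : NT R C) (T : Finset (UX V)) :
    ∃ C' : ℕ → Set V, (∀ n, C' n ⊆ C n) ∧ NT R C' ∧
      ∀ Φ : Set (UX V) → Set (UX V) → Prop, ∀ x y : UX V, InC C' x → InC C' y →
        Relation.ReflTransGen (fun a b => EFD (RX R) T Φ a b ∧ InC C a ∧ InC C b) x y := by
  classical
  let ΦG : Set (Set (UX V) × Set (UX V)) → Set (UX V) → Set (UX V) → Prop :=
    fun G A B => (A, B) ∈ G
  have key : ∀ s : Finset (Set (Set (UX V) × Set (UX V))), ∀ C : ℕ → Set V, NT R C →
      ∃ C' : ℕ → Set V, (∀ n, C' n ⊆ C n) ∧ NT R C' ∧ ∀ G ∈ s,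
      ∀ x y : UX V, InC C' x → InC C' y →
        Relation.ReflTransGen (fun a b => EFD (RX R) T (ΦG G) a b ∧ InC C a ∧ InC C b) x y := by
    intro s
    induction s using Finset.induction_on with
    | empty =>
      intro C hC
      exact ⟨C, fun n => Set.Subset.refl _, hC, fun G hG => absurd hG (Finset.notMem_empty G)⟩
    | insert G s _ ih =>
      intro C hC
      obtain ⟨C1, h1, h2, h3⟩ := oned hG C hC T (ΦG G)
      obtain ⟨C2, h4, h5, h6⟩ := ih C1 h2
      refine ⟨C2, fun n => (h4 n).trans (h1 n), h5, ?_⟩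
      intro G' hG' x y hx hy
      rcases Finset.mem_insert.mp hG' with h7 | h7
      · subst h7
        exact h3 x y (hx.mono fun n hn => h4 n hn) (hy.mono fun n hn => h4 n hn)
      · exact rtg_mono (fun a b hab => ⟨hab.1, hab.2.1.mono fun n hn => h1 n hn,
          hab.2.2.mono fun n hn => h1 n hn⟩) (h6 G' h7 x y hx hy)
  obtain ⟨C', h1, h2, h3⟩ := key (codes_finite T).toFinset C hC
  refine ⟨C', h1, h2, ?_⟩
  intro Φ x y hx hy
  let G : Set (Set (UX V) × Set (UX V)) :=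
    {q | (q.1 ⊆ (T : Set (UX V)) ∧ q.2 ⊆ (T : Set (UX V))) ∧ Φ q.1 q.2}
  have hG : G ∈ (codes_finite T).toFinset := by
    rw [Set.Finite.mem_toFinset]
    intro q hq
    exact hq.1
  have h4 := h3 G hG x y hx hy
  have h5 : EFD (RX R) T (ΦG G) = EFD (RX R) T Φ := by
    apply EFD_congr
    intro A B hA hB
    constructor
    · intro h6
      exact h6.2
    · intro h6
      exact ⟨⟨hA, hB⟩, h6⟩
  rw [h5] at h4
  exact h4

/-- Closure of a finite set under paths for its flips inside given sets. -/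
theorem cloD {X : Type*} (R : X → X → Prop) (T : Finset X) (𝒬 : Finset (Set X)) :
    ∃ T' : Finset X, T ⊆ T' ∧ ∀ x ∈ T, ∀ y ∈ T, ∀ Φ : Set X → Set X → Prop, ∀ D ∈ 𝒬,
      Relation.ReflTransGen (fun a b => EFD R T Φ a b ∧ a ∈ D ∧ b ∈ D) x y →
        Relation.ReflTransGen (fun a b => (EFD R T Φ a b ∧ a ∈ D ∧ b ∈ D) ∧ a ∈ T' ∧ b ∈ T')
          x y := by
  classical
  let ΦG : Set (Set X × Set X) → Set X → Set X → Prop := fun G A B => (A, B) ∈ G
  have hch : ∀ (G : Set (Set X × Set X)) (D : Set X) (x y : X), ∃ F : Finset X,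
      Relation.ReflTransGen (fun a b => EFD R T (ΦG G) a b ∧ a ∈ D ∧ b ∈ D) x y →
      Relation.ReflTransGen (fun a b => (EFD R T (ΦG G) a b ∧ a ∈ D ∧ b ∈ D) ∧ a ∈ F ∧ b ∈ F)
        x y := by
    intro G D x y
    by_cases h : Relation.ReflTransGen (fun a b => EFD R T (ΦG G) a b ∧ a ∈ D ∧ b ∈ D) x y
    · obtain ⟨F, hF⟩ := rtg_finite h
      exact ⟨F, fun _ => hF⟩
    · exact ⟨∅, fun h' => absurd h' h⟩
  choose F hF using hch
  refine ⟨T ∪ (codes_finite T).toFinset.biUnion (fun G => 𝒬.biUnion fun D => T.biUnion fun x =>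
    T.biUnion fun y => F G D x y), Finset.subset_union_left, ?_⟩
  intro x hx y hy Φ D hD hxy
  let G : Set (Set X × Set X) := {q | (q.1 ⊆ (T : Set X) ∧ q.2 ⊆ (T : Set X)) ∧ Φ q.1 q.2}
  have hG : G ∈ (codes_finite T).toFinset := by
    rw [Set.Finite.mem_toFinset]
    intro q hq
    exact hq.1
  have h5 : EFD R T (ΦG G) = EFD R T Φ := by
    apply EFD_congr
    intro A B hA hB
    exact ⟨fun h6 => h6.2, fun h6 => ⟨⟨hA, hB⟩, h6⟩⟩
  rw [← h5] at hxy ⊢
  have hsub : ∀ c ∈ F G D x y, c ∈ T ∪ (codes_finite T).toFinset.biUnion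
      (fun G => 𝒬.biUnion fun D => T.biUnion fun x => T.biUnion fun y => F G D x y) := by
    intro c hc
    refine Finset.mem_union_right _ ?_
    rw [Finset.mem_biUnion]
    refine ⟨G, hG, ?_⟩
    rw [Finset.mem_biUnion]
    refine ⟨D, hD, ?_⟩
    rw [Finset.mem_biUnion]
    refine ⟨x, hx, ?_⟩
    rw [Finset.mem_biUnion]
    exact ⟨y, hy, hc⟩
  refine rtg_mono ?_ (hF G D x y hxy)
  rintro a b ⟨h1, h2, h3⟩
  exact ⟨h1, hsub a h2, hsub b h3⟩

/-- one stage of the construction -/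
structure StepD {V : Type} (R : V → V → Prop) (C : ℕ → Set V) (𝒬 : Finset (Set (UX V)))
    (S : Finset (UX V)) (C' : ℕ → Set V) (𝒬' : Finset (Set (UX V))) (S' : Finset (UX V))
    (v' : UX V) : Prop where
  sub : ∀ n, C' n ⊆ C n
  subS : S ⊆ S'
  subQ : 𝒬 ⊆ 𝒬'
  memQ : {x | InC C x} ∈ 𝒬'
  memv : InC C v'
  vS : v' ∈ S'
  clos : ∀ x ∈ S, ∀ y ∈ S, ∀ T ⊆ S, ∀ Φ : Set (UX V) → Set (UX V) → Prop, ∀ D ∈ 𝒬',
      Relation.ReflTransGen (fun a b => EFD (RX R) T Φ a b ∧ a ∈ D ∧ b ∈ D) x y →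
        Relation.ReflTransGen (fun a b => (EFD (RX R) T Φ a b ∧ a ∈ D ∧ b ∈ D) ∧
          a ∈ S' ∧ b ∈ S') x y
  disj : ∀ s ∈ S', ¬ InC C' s
  good : ∀ T ⊆ S', ∀ Φ : Set (UX V) → Set (UX V) → Prop, ∀ x y : UX V, InC C' x → InC C' y →
        Relation.ReflTransGen (fun a b => EFD (RX R) T Φ a b ∧ InC C a ∧ InC C b) x y

theorem nt_mem {V : Type} {R : V → V → Prop} {C : ℕ → Set V} (hC : NT R C) :
    ∃ v : UX V, InC C v := by
  classical
  obtain ⟨c, hc⟩ := hC
  have h1 : ∀ᶠ n in (hyperfilter ℕ : Filter ℕ), (C n).Nonempty := by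
    filter_upwards [hc 1] with n hn
    by_contra h
    rw [Set.not_nonempty_iff_eq_empty] at h
    rw [h] at hn
    exact hn (tame_empty c)
  have hV : Nonempty V := by
    obtain ⟨n, a, _⟩ := h1.exists
    exact ⟨a⟩
  let f : ℕ → V := fun n => if h : (C n).Nonempty then h.choose else Classical.arbitrary V
  refine ⟨cl f, ?_⟩
  filter_upwards [h1, rep_cl f] with n h2 h3
  rw [h3]
  simp only [f, h2, dite_true]
  exact h2.choose_spec

theorem stepD_exists {V : Type} {R : V → V → Prop} {m : ℕ} (hG : Good R m) (C : ℕ → Set V)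
    (hC : NT R C) (𝒬 : Finset (Set (UX V))) (S : Finset (UX V)) :
    ∃ (C' : ℕ → Set V) (𝒬' : Finset (Set (UX V))) (S' : Finset (UX V)) (v' : UX V),
      NT R C' ∧ StepD R C 𝒬 S C' 𝒬' S' v' := by
  classical
  obtain ⟨v, hv⟩ := nt_mem hC
  obtain ⟨S1, hS1, hS2⟩ := cloD (RX R) (insert v S) (insert {x | InC C x} 𝒬)
  obtain ⟨C', h1, h2, h3⟩ := allflipsD hG (CmT C S1) (rm hC S1) S1
  refine ⟨C', insert {x | InC C x} 𝒬, S1, v, h2, ⟨fun n => (h1 n).trans fun a ha => ha.1,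
    (Finset.subset_insert v S).trans hS1, Finset.subset_insert _ _, Finset.mem_insert_self _ _,
    hv, hS1 (Finset.mem_insert_self v S), ?_, ?_, ?_⟩⟩
  · intro x hx y hy T hT Φ D hD hxy
    have hT' : T ⊆ insert v S := hT.trans (Finset.subset_insert v S)
    have e := EFD_larger (R := RX R) hT' Φ
    rw [← e] at hxy ⊢
    exact hS2 x (Finset.mem_insert_of_mem hx) y (Finset.mem_insert_of_mem hy) _ D hD hxy
  · intro s hs h
    exact not_InC_CmT hs (h.mono fun n hn => h1 n hn)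
  · intro T hT Φ x y hx hy
    have e := EFD_larger (R := RX R) hT Φ
    have h4 := h3 (fun A B => Φ (A ∩ T) (B ∩ T)) x y hx hy
    rw [e] at h4
    exact rtg_mono (fun a b hab => ⟨hab.1, hab.2.1.mono fun n hn => hn.1,
      hab.2.2.mono fun n hn => hn.1⟩) h4

/-- The sequence of sets. -/
theorem seqD {V : Type} {R : V → V → Prop} {m : ℕ} (hG : Good R m)
    (hNT : NT R (fun _ => (Set.univ : Set V))) :
    ∃ (W : Type) (RW : W → W → Prop) (CW : ℕ → Set W), Good RW m ∧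
      (∀ i j, i ≤ j → CW j ⊆ CW i) ∧ (∀ i, (CW i).Nonempty) ∧ (∀ x, ∃ i, x ∉ CW i) ∧
      ∀ (S : Finset W) (Φ : Set W → Set W → Prop) (i : ℕ), ∃ i', i ≤ i' ∧
        ∀ x ∈ CW i', ∀ y ∈ CW i',
          Relation.ReflTransGen (fun a b => EFD RW S Φ a b ∧ a ∈ CW i ∧ b ∈ CW i) x y := by
  classical
  let St : Type := {p : (ℕ → Set V) × Finset (Set (UX V)) × Finset (UX V) × (UX V) // NT R p.1}
  have hst : ∀ p : St, ∃ p' : St, StepD R p.1.1 p.1.2.1 p.1.2.2.1 p'.1.1 p'.1.2.1 p'.1.2.2.1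
      p'.1.2.2.2 := by
    intro p
    obtain ⟨C', 𝒬', S', v', h1, h2⟩ := stepD_exists hG p.1.1 p.2 p.1.2.1 p.1.2.2.1
    exact ⟨⟨(C', 𝒬', S', v'), h1⟩, h2⟩
  choose nxt hnxt using hst
  obtain ⟨v0, _⟩ := nt_mem hNT
  let p0 : St := ⟨(fun _ => Set.univ, ∅, ∅, v0), hNT⟩
  let sq : ℕ → St := fun n => Nat.rec p0 (fun _ p => nxt p) n
  let CC : ℕ → ℕ → Set V := fun i => (sq i).1.1
  let QQ : ℕ → Finset (Set (UX V)) := fun i => (sq i).1.2.1
  let SS : ℕ → Finset (UX V) := fun i => (sq i).1.2.2.1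
  let vv : ℕ → UX V := fun i => (sq (i+1)).1.2.2.2
  have hsq : ∀ n, StepD R (CC n) (QQ n) (SS n) (CC (n+1)) (QQ (n+1)) (SS (n+1)) (vv n) :=
    fun n => hnxt (sq n)
  have hCmono : ∀ i j, i ≤ j → ∀ n, CC j n ⊆ CC i n := by
    intro i j hij
    induction hij with
    | refl => exact fun n => Set.Subset.refl _
    | @step j _ ih => exact fun n => ((hsq j).sub n).trans (ih n)
  have hSmono : ∀ i j, i ≤ j → SS i ⊆ SS j := by
    intro i j hij
    induction hij with
    | refl => exact Finset.Subset.refl _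
    | @step j _ ih => exact ih.trans (hsq j).subS
  have hQmono : ∀ i j, i ≤ j → QQ i ⊆ QQ j := by
    intro i j hij
    induction hij with
    | refl => exact Finset.Subset.refl _
    | @step j _ ih => exact ih.trans (hsq j).subQ
  have hCm : ∀ i j, i ≤ j → ∀ x, InC (CC j) x → InC (CC i) x :=
    fun i j hij x hx => hx.mono fun n hn => hCmono i j hij n hn
  let M : Set (UX V) := {f | ∃ i, f ∈ SS i}
  let RW : M → M → Prop := fun x y => RX R x.1 y.1
  refine ⟨M, RW, fun i => {x | InC (CC i) x.1}, ?_, ?_, ?_, ?_, ?_⟩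
  · exact good_lim (hyperfilter ℕ) R RW (fun x => rep x.1) (fun _ _ => Iff.rfl) hG
  · intro i j hij x hx
    exact hCm i j hij x.1 hx
  · intro i
    exact ⟨⟨vv i, i+1, (hsq i).vS⟩, (hsq i).memv⟩
  · rintro ⟨x, j, hj⟩
    exact ⟨j+1, (hsq j).disj x ((hsq j).subS hj)⟩
  · intro SW ΦW i
    let T : Finset (UX V) := SW.image Subtype.val
    let Φ : Set (UX V) → Set (UX V) → Prop :=
      fun A B => ΦW (Subtype.val ⁻¹' A) (Subtype.val ⁻¹' B)
    have hTsub : ∃ i, T ⊆ SS i := by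
      have : ∀ F : Finset M, ∃ i, F.image Subtype.val ⊆ SS i := by
        intro F
        induction F using Finset.induction_on with
        | empty => exact ⟨0, by simp⟩
        | insert a F _ ih =>
          obtain ⟨i, hi⟩ := ih
          obtain ⟨j, hj⟩ := a.2
          refine ⟨max i j, ?_⟩
          rw [Finset.image_insert]
          intro f hf
          rcases Finset.mem_insert.mp hf with h1 | h1
          · rw [h1]
            exact hSmono j _ (le_max_right i j) hj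
          · exact hSmono i _ (le_max_left i j) (hi h1)
      exact this SW
    obtain ⟨i0, hi0⟩ := hTsub
    set i1 := max i0 i with hi1
    have hTi1 : T ⊆ SS i1 := hi0.trans (hSmono _ _ (le_max_left _ _))
    have hrt : ∀ x : M, Subtype.val ⁻¹' (rt (RX R) T x.1) = rt RW SW x := by
      intro x
      ext s
      constructor
      · rintro ⟨h1, h2⟩
        obtain ⟨s', h3, h4⟩ := Finset.mem_image.mp h1
        have : s' = s := Subtype.ext h4
        subst this
        exact ⟨h3, h2⟩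
      · rintro ⟨h1, h2⟩
        exact ⟨Finset.mem_image_of_mem _ h1, h2⟩
    have hct : ∀ x : M, Subtype.val ⁻¹' (ct (RX R) T x.1) = ct RW SW x := by
      intro x
      ext s
      constructor
      · rintro ⟨h1, h2⟩
        obtain ⟨s', h3, h4⟩ := Finset.mem_image.mp h1
        have : s' = s := Subtype.ext h4
        subst this
        exact ⟨h3, h2⟩
      · rintro ⟨h1, h2⟩
        exact ⟨Finset.mem_image_of_mem _ h1, h2⟩
    have hEF : ∀ x y : M, EFD (RX R) T Φ x.1 y.1 ↔ EFD RW SW ΦW x y := by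
      intro x y
      unfold EFD
      simp only [Φ, hrt, hct]
      rfl
    refine ⟨i1 + 1, by omega, ?_⟩
    intro x hx y hy
    have h1 := (hsq i1).good T (hTi1.trans (hsq i1).subS) Φ x.1 y.1 hx hy
    obtain ⟨jx, hjx⟩ := x.2
    obtain ⟨jy, hjy⟩ := y.2
    set n := max (max jx jy) i1 with hn
    have h2 := (hsq n).clos x.1 (hSmono jx n (by omega) hjx) y.1 (hSmono jy n (by omega) hjy) T
      (hTi1.trans (hSmono i1 n (by omega))) Φ {x | InC (CC i1) x}
      (hQmono (i1+1) (n+1) (by omega) (hsq i1).memQ) h1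
    have key : ∀ y : UX V, Relation.ReflTransGen (fun a b => (EFD (RX R) T Φ a b ∧
        a ∈ {x | InC (CC i1) x} ∧ b ∈ {x | InC (CC i1) x}) ∧ a ∈ SS (n+1) ∧ b ∈ SS (n+1)) x.1 y →
        ∃ hy : y ∈ M, Relation.ReflTransGen (fun a b : M => EFD RW SW ΦW a b ∧
          a ∈ {x : M | InC (CC i) x.1} ∧ b ∈ {x : M | InC (CC i) x.1}) x ⟨y, hy⟩ := by
      intro y hy
      induction hy with
      | refl => exact ⟨x.2, Relation.ReflTransGen.refl⟩
      | @tail b c _ hbc ih =>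
        obtain ⟨hb, h3⟩ := ih
        have hc : c ∈ M := ⟨n+1, hbc.2.2⟩
        exact ⟨hc, h3.tail ⟨(hEF ⟨b, hb⟩ ⟨c, hc⟩).mp hbc.1.1,
          hCm i i1 (le_max_right _ _) _ hbc.1.2.1, hCm i i1 (le_max_right _ _) _ hbc.1.2.2⟩⟩
    obtain ⟨_, h3⟩ := key _ h2
    exact h3

end KD
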