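import Pool.Agent.KDir.Corea
import Pool.Agent.KDir.Inf
import Pool.Agent.KDir.Seqd

set_option autoImplicit false

namespace KD

open Filter KBT

variable {W : Type*} {R : W → W → Prop}

/-- the ultrafilter used for the diagonal sequences -/
noncomputable def V3 : Ultrafilter (ℕ × (ℕ × ℕ)) :=
  prodU (hyperfilter ℕ) (prodU (hyperfilter ℕ) (hyperfilter ℕ))

theorem ev_V3 (P : ℕ × (ℕ × ℕ) → Prop) : (∀ᶠ a in (V3 : Filter (ℕ × (ℕ × ℕ))), P a) ↔
    ∀ᶠ i in (hyperfilter ℕ : Filter ℕ), ∀ᶠ l in (hyperfilter ℕ : Filter ℕ),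
      ∀ᶠ l' in (hyperfilter ℕ : Filter ℕ), P (i, (l, l')) := Iff.rfl

theorem V3_ge (i : ℕ) : ∀ᶠ a in (V3 : Filter (ℕ × (ℕ × ℕ))), i ≤ a.1 := by
  rw [ev_V3]
  filter_upwards [ev_ge i] with j hj
  exact Eventually.of_forall fun _ => Eventually.of_forall fun _ => hj

/-- Extraction of diagonal sequences. -/
theorem extract (CW : ℕ → Set W) (𝒟 : ℕ → Set (Ultrafilter W))
    (hinf : ∀ i, {D | ∃ q ∈ 𝒟 i, D = DD R q ∩ CW i}.Infinite) :
    ∃ (x : ℕ × (ℕ × ℕ) → W) (q : ℕ × (ℕ × ℕ) → Ultrafilter W),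
      (∀ᶠ a in (V3 : Filter (ℕ × (ℕ × ℕ))), x a ∈ CW a.1 ∧ q a ∈ 𝒟 a.1) ∧
      ∀ᶠ a in (V3 : Filter (ℕ × (ℕ × ℕ))), ¬ (x a ∈ DD R (q a) ↔
        ∀ᶠ b in (V3 : Filter (ℕ × (ℕ × ℕ))), x b ∈ DD R (q a)) := by
  classical
  set 𝒰 : Ultrafilter ℕ := hyperfilter ℕ with h𝒰
  have h1 := fun i => seqext _ (hinf i)
  choose x D _ hD hxD using h1
  choose q hq hqD using hD
  have F1 : ∀ i, ∀ᶠ l in (𝒰 : Filter ℕ), x i l ∈ CW i := by
    intro i
    by_contra hcon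
    rw [ev_not] at hcon
    obtain ⟨l, h2, h3⟩ := ((hxD i).and hcon).exists
    apply h2
    constructor
    · intro h4
      rw [hqD] at h4
      exact absurd h4.2 h3
    · intro h4
      obtain ⟨l', h5, h6⟩ := (h4.and hcon).exists
      rw [hqD] at h5
      exact absurd h5.2 h6
  have F2 : ∀ i, ∀ᶠ l in (𝒰 : Filter ℕ), ¬ ((x i l ∈ DD R (q i l)) ↔
      ∀ᶠ l' in (𝒰 : Filter ℕ), x i l' ∈ DD R (q i l)) := by
    intro i
    filter_upwards [hxD i, F1 i] with l h2 h3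
    have e1 : x i l ∈ D i l ↔ x i l ∈ DD R (q i l) := by
      rw [hqD]
      exact ⟨fun h => h.1, fun h => ⟨h, h3⟩⟩
    have e2 : (∀ᶠ l' in (𝒰 : Filter ℕ), x i l' ∈ D i l) ↔
        ∀ᶠ l' in (𝒰 : Filter ℕ), x i l' ∈ DD R (q i l) := by
      refine eventually_congr ?_
      filter_upwards [F1 i] with l' h4
      rw [hqD]
      exact ⟨fun h => h.1, fun h => ⟨h, h4⟩⟩
    have h5 : ¬ (x i l ∈ D i l ↔ ∀ᶠ l' in (𝒰 : Filter ℕ), x i l' ∈ D i l) := h2
    rw [e1, e2] at h5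
    exact h5
  let ρ : ℕ × ℕ → Prop := fun c => ∀ᶠ i in (𝒰 : Filter ℕ), ∀ᶠ l in (𝒰 : Filter ℕ),
    x i l ∈ DD R (q c.1 c.2)
  let ρ' : ℕ × ℕ → Prop := fun c => ∀ᶠ l' in (𝒰 : Filter ℕ), x c.1 l' ∈ DD R (q c.1 c.2)
  by_cases hc : ∀ᶠ c in (prodU 𝒰 𝒰 : Filter (ℕ × ℕ)), (ρ' c ↔ ρ c)
  · refine ⟨fun a => x a.1 a.2.1, fun a => q a.1 a.2.1, ?_, ?_⟩
    · rw [ev_V3]
      refine Eventually.of_forall fun i => ?_
      filter_upwards [F1 i] with l hl
      exact Eventually.of_forall fun _ => ⟨hl, hq i l⟩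
    · rw [ev_V3]
      rw [ev_prodU] at hc
      filter_upwards [hc] with i hi
      filter_upwards [hi, F2 i] with l h2 h3
      refine Eventually.of_forall fun l' => ?_
      rw [ev_V3]
      have e1 : (∀ᶠ i' in (𝒰 : Filter ℕ), ∀ᶠ l1 in (𝒰 : Filter ℕ), ∀ᶠ _l2 in (𝒰 : Filter ℕ),
          x i' l1 ∈ DD R (q i l)) ↔ ρ (i, l) := by
        refine eventually_congr (Eventually.of_forall fun i' => ?_)
        exact eventually_congr (Eventually.of_forall fun l1 => eventually_const)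
      rw [e1, ← h2]
      exact h3
  · rw [ev_not] at hc
    refine ⟨fun a => x a.1 a.2.2, fun a => q a.1 a.2.1, ?_, ?_⟩
    · rw [ev_V3]
      refine Eventually.of_forall fun i => ?_
      refine Eventually.of_forall fun l => ?_
      filter_upwards [F1 i] with l' hl
      exact ⟨hl, hq i l⟩
    · rw [ev_V3]
      rw [ev_prodU] at hc
      filter_upwards [hc] with i hi
      filter_upwards [hi] with l h2
      filter_upwards [ev_dec 𝒰 (fun l' => x i l' ∈ DD R (q i l))] with l' h3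
      rw [ev_V3]
      have e1 : (∀ᶠ i' in (𝒰 : Filter ℕ), ∀ᶠ _l1 in (𝒰 : Filter ℕ), ∀ᶠ l2 in (𝒰 : Filter ℕ),
          x i' l2 ∈ DD R (q i l)) ↔ ρ (i, l) := by
        refine eventually_congr (Eventually.of_forall fun i' => ?_)
        exact eventually_const
      rw [e1, h3]
      exact h2

/-- the types reachable from p inside the i-th set by at most r steps -/
def Clu (R : W → W → Prop) (CW : ℕ → Set W) (p : Ultrafilter W) (i r : ℕ) :
    Set (Ultrafilter W) :=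
  {q | ∃ n ≤ r, ∃ u : ℕ → Ultrafilter W, u 0 = p ∧ u n = q ∧
    ∀ t < n, Arr R (u t) (u (t+1)) ∧ CW i ∈ u t ∧ CW i ∈ u (t+1)}

theorem rt_of_path {T : Set (Ultrafilter W)} (n : ℕ) (u : ℕ → Ultrafilter W)
    (h : ∀ t < n, Arr R (u t) (u (t+1)) ∧ u t ∈ T ∧ u (t+1) ∈ T) : RT R T (u 0) (u n) := by
  induction n with
  | zero => exact Relation.ReflTransGen.refl
  | succ n ih => exact Relation.ReflTransGen.tail (ih fun t ht => h t (by omega)) (h n (by omega))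

theorem rtK_mem {CW : ℕ → Set W} {p q : Ultrafilter W} (hp : ∀ i, CW i ∈ p)
    (h : RT R {q | ∀ i, CW i ∈ q} p q) : ∀ i, CW i ∈ q := by
  unfold RT at h
  induction h with
  | refl => exact hp
  | tail _ h _ => exact h.2.2

/-- Step A: finitely many traces. -/
theorem stepA {m : ℕ} (hG : Good R m) (CW : ℕ → Set W) (hmono : ∀ i j, i ≤ j → CW j ⊆ CW i)
    (p : Ultrafilter W) (hpK : ∀ i, CW i ∈ p)
    (hp : ∀ q, RT R {q | ∀ i, CW i ∈ q} p q → RT R {q | ∀ i, CW i ∈ q} q p) (r : ℕ) :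
    ∃ i, {D | ∃ q ∈ Clu R CW p i r, D = DD R q ∩ CW i}.Finite := by
  classical
  induction r with
  | zero =>
    refine ⟨0, (Set.finite_singleton (DD R p ∩ CW 0)).subset ?_⟩
    rintro D ⟨q, ⟨n, hn, u, h0, h1, _⟩, rfl⟩
    have : n = 0 := by omega
    subst this
    rw [Set.mem_singleton_iff, ← h1, h0]
  | succ r ih =>
    obtain ⟨ir, hir⟩ := ih
    by_contra hcon
    push Not at hcon
    obtain ⟨x, q, hxq, hdiag⟩ := extract CW (fun i => Clu R CW p i (r+1)) hcon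
    have hch : ∀ a : ℕ × (ℕ × ℕ), ∃ (n : ℕ) (u : ℕ → Ultrafilter W),
        q a ∈ Clu R CW p a.1 (r+1) → n ≤ r + 1 ∧ u 0 = p ∧ u n = q a ∧
          ∀ t < n, Arr R (u t) (u (t+1)) ∧ CW a.1 ∈ u t ∧ CW a.1 ∈ u (t+1) := by
      intro a
      by_cases ha : q a ∈ Clu R CW p a.1 (r+1)
      · obtain ⟨n, hn, u, h1, h2, h3⟩ := ha
        exact ⟨n, u, fun _ => ⟨hn, h1, h2, h3⟩⟩
      · exact ⟨0, fun _ => p, fun h => absurd h ha⟩
    choose n u hu using hch
    obtain ⟨n0, hn0, hn⟩ := ev_pigeon V3 (Set.finite_Iic (r+1)) n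
      (hxq.mono fun a ha => (hu a ha.2).1)
    have hn0' : n0 ≤ r + 1 := hn0
    -- the basic property
    have hgood : ∀ᶠ a in (V3 : Filter (ℕ × (ℕ × ℕ))), u a 0 = p ∧ u a n0 = q a ∧
        ∀ t < n0, Arr R (u a t) (u a (t+1)) ∧ CW a.1 ∈ u a t ∧ CW a.1 ∈ u a (t+1) := by
      filter_upwards [hxq, hn] with a h1 h2
      have h3 := (hu a h1.2).2
      rw [h2] at h3
      exact h3
    have hCall : ∀ᶠ a in (V3 : Filter (ℕ × (ℕ × ℕ))), ∀ t ≤ n0, CW ir ∈ u a t := by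
      filter_upwards [hgood, V3_ge ir] with a h1 h2 t ht
      cases t with
      | zero =>
        rw [h1.1]
        exact hpK ir
      | succ t => exact Filter.mem_of_superset (h1.2.2 t ht).2.2 (hmono ir a.1 h2)
    have hDex : ∀ t, ∃ D : Set W, t < n0 → ∀ᶠ a in (V3 : Filter (ℕ × (ℕ × ℕ))),
        DD R (u a t) ∩ CW ir = D := by
      intro t
      by_cases ht : t < n0
      · obtain ⟨D, _, hD⟩ := ev_pigeon V3 hir (fun a => DD R (u a t) ∩ CW ir) (by
          filter_upwards [hgood, V3_ge ir] with a h1 h2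
          refine ⟨u a t, ⟨t, by omega, u a, h1.1, rfl, ?_⟩, rfl⟩
          intro t' ht'
          obtain ⟨h3, h4, h5⟩ := h1.2.2 t' (by omega)
          exact ⟨h3, Filter.mem_of_superset h4 (hmono ir a.1 h2),
            Filter.mem_of_superset h5 (hmono ir a.1 h2)⟩)
        exact ⟨D, fun _ => hD⟩
      · exact ⟨∅, fun h => absurd h ht⟩
    choose D hD using hDex
    -- the way back
    have hbindK : ∀ v : ℕ × (ℕ × ℕ) → Ultrafilter W,
        (∀ᶠ a in (V3 : Filter (ℕ × (ℕ × ℕ))), v a ∈ {q : Ultrafilter W | CW a.1 ∈ q}) →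
        V3.bind v ∈ {q : Ultrafilter W | ∀ i, CW i ∈ q} := by
      intro v hv i
      show ∀ᶠ a in (V3 : Filter (ℕ × (ℕ × ℕ))), CW i ∈ v a
      filter_upwards [hv, V3_ge i] with a h1 h2
      exact Filter.mem_of_superset h1 (hmono i a.1 h2)
    have hr1 : RT R {q | ∀ i, CW i ∈ q} p (V3.bind q) := by
      have h1 := lim_reach hG.1 V3 (fun _ => p) q (fun a => {q : Ultrafilter W | CW a.1 ∈ q})
        {q : Ultrafilter W | ∀ i, CW i ∈ q} hbindK (by
          filter_upwards [hgood] with a ha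
          have h2 := rt_of_path (R := R) (T := {q : Ultrafilter W | CW a.1 ∈ q}) n0 (u a)
            (fun t ht => ha.2.2 t ht)
          rw [ha.1, ha.2.1] at h2
          exact h2)
      rw [bind_constU] at h1
      exact h1
    have hxK : ∀ i, CW i ∈ V3.map x := by
      intro i
      show ∀ᶠ a in (V3 : Filter (ℕ × (ℕ × ℕ))), x a ∈ CW i
      filter_upwards [hxq, V3_ge i] with a h1 h2
      exact hmono i a.1 h2 h1.1
    have harr : Arr R (V3.bind q) (V3.map x) := by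
      intro P hP Q hQ
      have hP' : ∀ᶠ a in (V3 : Filter (ℕ × (ℕ × ℕ))), P ∈ q a := hP
      have hQ' : ∀ᶠ a in (V3 : Filter (ℕ × (ℕ × ℕ))), x a ∈ Q := hQ
      obtain ⟨a, ⟨h1, h2⟩, h3⟩ := ((hP'.and hQ').and hdiag).exists
      obtain ⟨b, h4, h5⟩ := (hQ'.and (ev_dec V3 (fun b => x b ∈ DD R (q a)))).exists
      have h1' : ∀ᶠ y in (q a : Filter W), y ∈ P := h1
      have key : ∀ w w' : W, w ∈ Q → w' ∈ Q → w ∈ DD R (q a) → w' ∉ DD R (q a) →
          (∃ x ∈ P, ∃ y ∈ Q, R x y) ∧ ∃ x ∈ P, ∃ y ∈ Q, ¬ R x y := by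
        intro w w' hw hw' hD hD'
        have g1 : ∀ᶠ y in (q a : Filter W), R y w := hD
        have g2 : ∀ᶠ y in (q a : Filter W), ¬ R y w' := by
          rw [← ev_not]
          exact hD'
        obtain ⟨y, h6, h7⟩ := (h1'.and g1).exists
        obtain ⟨y', h8, h9⟩ := (h1'.and g2).exists
        exact ⟨⟨y, h6, w, hw, h7⟩, ⟨y', h8, w', hw', h9⟩⟩
      rw [← h5] at h3
      by_cases h6 : x a ∈ DD R (q a)
      · have h7 : x b ∉ DD R (q a) := fun h => h3 ⟨fun _ => h, fun _ => h6⟩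
        exact key (x a) (x b) h2 h4 h6 h7
      · have h7 : x b ∈ DD R (q a) := by
          by_contra h
          exact h3 ⟨fun h8 => absurd h8 h6, fun h8 => absurd h8 h⟩
        exact key (x b) (x a) h4 h2 h7 h6
    have hr2 : RT R {q | ∀ i, CW i ∈ q} p (V3.map x) :=
      Relation.ReflTransGen.tail hr1 ⟨harr, rtK_mem hpK hr1, hxK⟩
    have hr3 : Relation.ReflTransGen (Arr R) (V3.map x) p :=
      rtg_mono (fun _ _ h => h.1) (hp _ hr2)
    exact coreA hG V3 x q p n0 u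
      (hgood.mono fun a ha => ⟨ha.1, ha.2.1, fun t ht => (ha.2.2 t ht).1⟩) (CW ir) hCall D
      hD hdiag hr3

end KD
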