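import Pool.Agent.KDir.Stepa

set_option autoImplicit false

namespace KD

open Filter KBT

variable {W : Type*} {R : W → W → Prop}

theorem rt_sub_clu {m : ℕ} (hX : ¬ XP R m) (CW : ℕ → Set W) (p : Ultrafilter W) (i : ℕ)
    {q : Ultrafilter W} (h : RT R {q | CW i ∈ q} p q) : q ∈ Clu R CW p i m := by
  obtain ⟨n, hn, u, h1, h2, h3, _⟩ := short hX _ h
  exact ⟨n, hn, u, h1, h2, h3⟩

/-- Step B: the traces are definable. -/
theorem stepB {m : ℕ} (hG : Good R m) (CW : ℕ → Set W) (hmono : ∀ i j, i ≤ j → CW j ⊆ CW i)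
    (p : Ultrafilter W) (hpK : ∀ i, CW i ∈ p)
    (hp : ∀ q, RT R {q | ∀ i, CW i ∈ q} p q → RT R {q | ∀ i, CW i ∈ q} q p) :
    ∃ i, {D | ∃ q, RT R {q | CW i ∈ q} p q ∧ D = DD R q ∩ CW i}.Finite ∧
      ∃ S : Finset W, ∀ q, RT R {q | CW i ∈ q} p q → ∀ s ∈ CW i, ∀ s' ∈ CW i,
        (∀ t ∈ S, (R t s ↔ R t s')) → (s ∈ DD R q ↔ s' ∈ DD R q) := by
  classical
  obtain ⟨im, him⟩ := stepA hG CW hmono p hpK hp m
  have hRTmono : ∀ i j, i ≤ j → ∀ q, RT R {q | CW j ∈ q} p q → RT R {q | CW i ∈ q} p q := by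
    intro i j hij q hq
    exact rtg_mono (fun a b hab => ⟨hab.1, Filter.mem_of_superset hab.2.1 (hmono i j hij),
      Filter.mem_of_superset hab.2.2 (hmono i j hij)⟩) hq
  have hfin : ∀ i, im ≤ i → {D | ∃ q, RT R {q | CW i ∈ q} p q ∧ D = DD R q ∩ CW i}.Finite := by
    intro i hi
    refine (him.image (fun D => D ∩ CW i)).subset ?_
    rintro D ⟨q, hq, rfl⟩
    refine ⟨DD R q ∩ CW im, ⟨q, rt_sub_clu hG.1 CW p im (hRTmono im i hi q hq), rfl⟩, ?_⟩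
    dsimp only
    rw [Set.inter_assoc, Set.inter_eq_self_of_subset_right (hmono im i hi)]
  by_contra hcon
  have hch : ∀ c : ℕ × Finset W, ∃ (q : Ultrafilter W) (s s' : W),
      RT R {q | CW (im + c.1) ∈ q} p q ∧ s ∈ CW (im + c.1) ∧ s' ∈ CW (im + c.1) ∧
      (∀ t ∈ c.2, (R t s ↔ R t s')) ∧ s ∈ DD R q ∧ s' ∉ DD R q := by
    intro c
    by_contra hc
    apply hcon
    refine ⟨im + c.1, hfin _ (Nat.le_add_right _ _), c.2, ?_⟩
    intro q hq s hs s' hs' ht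
    by_contra h1
    by_cases h2 : s ∈ DD R q
    · have h3 : s' ∉ DD R q := fun h => h1 ⟨fun _ => h, fun _ => h2⟩
      exact hc ⟨q, s, s', hq, hs, hs', ht, h2, h3⟩
    · have h3 : s' ∈ DD R q := by
        by_contra h
        exact h1 ⟨fun h8 => absurd h8 h2, fun h8 => absurd h8 h⟩
      exact hc ⟨q, s', s, hq, hs', hs, fun t h => (ht t h).symm, h3, h2⟩
  choose q s s' hq hs hs' hss hsD hsD' using hch
  set 𝒬 : Ultrafilter (ℕ × Finset W) := Ultrafilter.of atTop with h𝒬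
  have hle : (𝒬 : Filter (ℕ × Finset W)) ≤ atTop := Ultrafilter.of_le atTop
  have hge : ∀ i, ∀ᶠ c in (𝒬 : Filter (ℕ × Finset W)), i ≤ c.1 := by
    intro i
    apply hle
    filter_upwards [eventually_ge_atTop ((i, ∅) : ℕ × Finset W)] with c hc
    exact hc.1
  have hin : ∀ t : W, ∀ᶠ c in (𝒬 : Filter (ℕ × Finset W)), t ∈ c.2 := by
    intro t
    apply hle
    filter_upwards [eventually_ge_atTop ((0, {t}) : ℕ × Finset W)] with c hc
    exact hc.2 (Finset.mem_singleton_self _)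
  have hbindK : ∀ v : ℕ × Finset W → Ultrafilter W,
      (∀ᶠ c in (𝒬 : Filter (ℕ × Finset W)), v c ∈ {q : Ultrafilter W | CW (im + c.1) ∈ q}) →
      𝒬.bind v ∈ {q : Ultrafilter W | ∀ i, CW i ∈ q} := by
    intro v hv i
    show ∀ᶠ c in (𝒬 : Filter (ℕ × Finset W)), CW i ∈ v c
    filter_upwards [hv, hge i] with a h1 h2
    exact Filter.mem_of_superset h1 (hmono i _ (by omega))
  have hr1 : RT R {q | ∀ i, CW i ∈ q} p (𝒬.bind q) := by
    have h1 := lim_reach hG.1 𝒬 (fun _ => p) q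
      (fun c => {q : Ultrafilter W | CW (im + c.1) ∈ q})
      {q : Ultrafilter W | ∀ i, CW i ∈ q} hbindK (Eventually.of_forall fun c => hq c)
    rw [bind_constU] at h1
    exact h1
  have hσK : ∀ (f : ℕ × Finset W → W), (∀ c, f c ∈ CW (im + c.1)) → ∀ i, CW i ∈ 𝒬.map f := by
    intro f hf i
    show ∀ᶠ c in (𝒬 : Filter (ℕ × Finset W)), f c ∈ CW i
    filter_upwards [hge i] with c hc
    exact hmono i _ (by omega) (hf c)
  have hDlt : Dlt R (𝒬.bind q) (𝒬.map s) ↔ Dlt R (𝒬.bind q) (𝒬.map s') := by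
    unfold Dlt
    refine eventually_congr (Eventually.of_forall fun x => ?_)
    show (∀ᶠ c in (𝒬 : Filter (ℕ × Finset W)), R x (s c)) ↔
      ∀ᶠ c in (𝒬 : Filter (ℕ × Finset W)), R x (s' c)
    refine eventually_congr ?_
    filter_upwards [hin x] with c hc
    exact hss c x hc
  obtain ⟨D, _, hD⟩ := ev_pigeon 𝒬 (hfin im le_rfl) (fun c => DD R (q c) ∩ CW im)
    (Eventually.of_forall fun c => ⟨q c, hRTmono im _ (Nat.le_add_right _ _) _ (hq c), rfl⟩)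
  have hDq : ∀ w ∈ CW im, (w ∈ DD R (𝒬.bind q) ↔ w ∈ D) := by
    intro w hw
    have h1 : w ∈ DD R (𝒬.bind q) ↔ ∀ᶠ c in (𝒬 : Filter (ℕ × Finset W)), w ∈ DD R (q c) :=
      Iff.rfl
    have h2 : (∀ᶠ c in (𝒬 : Filter (ℕ × Finset W)), w ∈ DD R (q c)) ↔
        ∀ᶠ _c in (𝒬 : Filter (ℕ × Finset W)), w ∈ D := by
      refine eventually_congr ?_
      filter_upwards [hD] with c hc
      rw [← hc]
      exact ⟨fun h => ⟨h, hw⟩, fun h => h.1⟩
    rw [h1, h2, eventually_const]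
  have hDgt : Dgt R (𝒬.bind q) (𝒬.map s) := by
    show ∀ᶠ c in (𝒬 : Filter (ℕ × Finset W)), s c ∈ DD R (𝒬.bind q)
    filter_upwards [hD] with c hc
    have h1 : s c ∈ CW im := hmono im _ (Nat.le_add_right _ _) (hs c)
    rw [hDq _ h1, ← hc]
    exact ⟨hsD c, h1⟩
  have hDgt' : ¬ Dgt R (𝒬.bind q) (𝒬.map s') := by
    intro h
    have h' : ∀ᶠ c in (𝒬 : Filter (ℕ × Finset W)), s' c ∈ DD R (𝒬.bind q) := h
    obtain ⟨c, h1, h2⟩ := (h'.and hD).exists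
    have h3 : s' c ∈ CW im := hmono im _ (Nat.le_add_right _ _) (hs' c)
    rw [hDq _ h3, ← h2] at h1
    exact hsD' c h1.1
  have key : ∀ τ : Ultrafilter W, (∀ i, CW i ∈ τ) → ¬ Hh R (𝒬.bind q) τ := by
    intro τ hτ hH
    have h1 : RT R {q | ∀ i, CW i ∈ q} p τ :=
      Relation.ReflTransGen.tail hr1 ⟨arr_of_hh hH, rtK_mem hpK hr1, hτ⟩
    have h2 : RT R {q | ∀ i, CW i ∈ q} τ (𝒬.bind q) := Relation.ReflTransGen.trans (hp _ h1) hr1
    exact hf hG (rtg_mono (fun _ _ h => h.1) h2) hH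
  by_cases h1 : Dlt R (𝒬.bind q) (𝒬.map s)
  · refine key (𝒬.map s') (hσK s' hs') ?_
    intro h2
    exact hDgt' (h2.mp (hDlt.mp h1))
  · refine key (𝒬.map s) (hσK s hs) ?_
    intro h2
    exact h1 (h2.mpr hDgt)

end KD
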