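import Pool.Agent.KDir.Defs
import Pool.Agent.KBT.Dec

set_option autoImplicit false

namespace KD

open Filter KBT

variable {W : Type*} {R : W → W → Prop}

theorem ev_iff_of {α : Type*} (𝒰 : Ultrafilter α) (P : α → Prop) (v : Prop)
    (h : (∀ᶠ a in (𝒰 : Filter α), P a) ↔ v) : ∀ᶠ a in (𝒰 : Filter α), (P a ↔ v) := by
  filter_upwards [ev_dec 𝒰 P] with a ha
  rw [ha, h]

/-- Exceptional pairs give nontrivial pairs of types. -/
theorem arr_of_eg {J : Type*} (𝒥 : Ultrafilter J) {f g : J → W} (h : Eg 𝒥 R f g) :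
    Arr R (𝒥.map f) (𝒥.map g) := by
  intro P hP Q hQ
  have hP' : ∀ᶠ j in (𝒥 : Filter J), f j ∈ P := hP
  have hQ' : ∀ᶠ j in (𝒥 : Filter J), g j ∈ Q := hQ
  have h1 : ∃ x ∈ P, ∃ y ∈ Q, (R x y ↔ ∀ᶠ j in (𝒥 : Filter J), R (f j) (g j)) := by
    obtain ⟨j, ⟨h1, h2⟩, h3⟩ := ((hP'.and hQ').and
      (ev_dec 𝒥 (fun j => R (f j) (g j)))).exists
    exact ⟨f j, h1, g j, h2, h3⟩
  have h2 : ∃ x ∈ P, ∃ y ∈ Q, (R x y ↔ Dgt R (𝒥.map f) (𝒥.map g)) := by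
    have e := ev_dec2 𝒥 𝒥 (fun j i => R (f i) (g j))
    obtain ⟨j, h1, h2⟩ := (hQ'.and e).exists
    obtain ⟨i, h3, h4⟩ := (hP'.and h2).exists
    exact ⟨f i, h3, g j, h1, h4⟩
  obtain ⟨x, hx, y, hy, hxy⟩ := h1
  obtain ⟨x', hx', y', hy', hxy'⟩ := h2
  unfold Eg at h
  by_cases hv : ∀ᶠ j in (𝒥 : Filter J), R (f j) (g j)
  · refine ⟨⟨x, hx, y, hy, hxy.mpr hv⟩, ⟨x', hx', y', hy', fun h5 => h ?_⟩⟩
    exact ⟨fun _ => hxy'.mp h5, fun _ => hv⟩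
  · refine ⟨⟨x', hx', y', hy', ?_⟩, ⟨x, hx, y, hy, fun h5 => hv (hxy.mp h5)⟩⟩
    rw [hxy']
    by_contra h6
    exact h ⟨fun h7 => absurd h7 hv, fun h7 => absurd h7 h6⟩

/-- Half graphs give nontrivial pairs. -/
theorem arr_of_hh {p q : Ultrafilter W} (h : Hh R p q) : Arr R p q := by
  intro P hP Q hQ
  have hP' : ∀ᶠ x in (p : Filter W), x ∈ P := hP
  have hQ' : ∀ᶠ y in (q : Filter W), y ∈ Q := hQ
  have h1 : ∃ x ∈ P, ∃ y ∈ Q, (R x y ↔ Dlt R p q) := by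
    obtain ⟨x, h1, h2⟩ := (hP'.and (ev_dec2 p q (fun x y => R x y))).exists
    obtain ⟨y, h3, h4⟩ := (hQ'.and h2).exists
    exact ⟨x, h1, y, h3, h4⟩
  have h2 : ∃ x ∈ P, ∃ y ∈ Q, (R x y ↔ Dgt R p q) := by
    obtain ⟨y, h1, h2⟩ := (hQ'.and (ev_dec2 q p (fun y x => R x y))).exists
    obtain ⟨x, h3, h4⟩ := (hP'.and h2).exists
    exact ⟨x, h3, y, h1, h4⟩
  obtain ⟨x, hx, y, hy, hxy⟩ := h1
  obtain ⟨x', hx', y', hy', hxy'⟩ := h2
  unfold Hh at h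
  by_cases hv : Dlt R p q
  · refine ⟨⟨x, hx, y, hy, hxy.mpr hv⟩, ⟨x', hx', y', hy', fun h5 => h ?_⟩⟩
    exact ⟨fun _ => hxy'.mp h5, fun _ => hv⟩
  · refine ⟨⟨x', hx', y', hy', ?_⟩, ⟨x, hx, y, hy, fun h5 => hv (hxy.mp h5)⟩⟩
    rw [hxy']
    by_contra h6
    exact h ⟨fun h7 => absurd h7 hv, fun h7 => absurd h7 h6⟩

/-- A family of sets with the finite intersection property. -/
theorem fip {K Γ : Type*} (S : Γ → Set K) (h : ∀ F : Finset Γ, ∃ k, ∀ γ ∈ F, k ∈ S γ) :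
    ∃ 𝒦 : Ultrafilter K, ∀ γ, ∀ᶠ k in (𝒦 : Filter K), k ∈ S γ := by
  classical
  obtain ⟨F, hF⟩ := Ultrafilter.exists_ultrafilter_of_finite_inter_nonempty (Set.range S) (by
    intro T hT
    have hch : ∀ U : Set K, ∀ hU : U ∈ T, ∃ γ, S γ = U := fun U hU => hT hU
    choose γ hγ using hch
    have hex := h (T.attach.image (fun U : {U // U ∈ T} => γ U.1 U.2))
    obtain ⟨k, hk⟩ := hex
    refine ⟨k, ?_⟩
    intro U hU
    have hU' : U ∈ T := hU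
    have := hk (γ U hU') (Finset.mem_image.mpr ⟨⟨U, hU'⟩, Finset.mem_attach _ _, rfl⟩)
    rwa [hγ U hU'] at this)
  exact ⟨F, fun γ => hF ⟨γ, rfl⟩⟩

/-- An ultrafilter on pairs with given marginals. -/
theorem joint {p q : Ultrafilter W} (h : Arr R p q) :
    ∃ 𝒥 : Ultrafilter (W × W), 𝒥.map Prod.fst = p ∧ 𝒥.map Prod.snd = q ∧
      ¬ ((∀ᶠ j in (𝒥 : Filter (W × W)), R j.1 j.2) ↔ Dgt R p q) := by
  classical
  let E : Set (W × W) := {j | ¬ (R j.1 j.2 ↔ Dgt R p q)}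
  obtain ⟨𝒥, h𝒥⟩ := fip (Γ := {P : Set W // P ∈ p} × {Q : Set W // Q ∈ q})
    (fun γ => {j : W × W | (j.1 ∈ γ.1.1 ∧ j.2 ∈ γ.2.1) ∧ j ∈ E}) (by
      intro F
      have hP : (⋂ γ ∈ F, γ.1.1 : Set W) ∈ p := by
        rw [← Ultrafilter.mem_coe, Filter.biInter_finset_mem]
        exact fun γ _ => γ.1.2
      have hQ : (⋂ γ ∈ F, γ.2.1 : Set W) ∈ q := by
        rw [← Ultrafilter.mem_coe, Filter.biInter_finset_mem]
        exact fun γ _ => γ.2.2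
      obtain ⟨⟨x, hx, y, hy, hxy⟩, ⟨x', hx', y', hy', hxy'⟩⟩ := h _ hP _ hQ
      rw [Set.mem_iInter₂] at hx hy hx' hy'
      by_cases hv : Dgt R p q
      · refine ⟨(x', y'), fun γ hγ => ⟨⟨hx' γ hγ, hy' γ hγ⟩, ?_⟩⟩
        intro h5
        exact hxy' (h5.mpr hv)
      · refine ⟨(x, y), fun γ hγ => ⟨⟨hx γ hγ, hy γ hγ⟩, ?_⟩⟩
        intro h5
        exact hv (h5.mp hxy))
  refine ⟨𝒥, ?_, ?_, ?_⟩
  · refine Ultrafilter.eq_of_le ?_
    intro P hP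
    have h1 := h𝒥 (⟨P, hP⟩, ⟨Set.univ, Filter.univ_mem⟩)
    exact h1.mono fun j hj => hj.1.1
  · refine Ultrafilter.eq_of_le ?_
    intro Q hQ
    have h1 := h𝒥 (⟨Set.univ, Filter.univ_mem⟩, ⟨Q, hQ⟩)
    exact h1.mono fun j hj => hj.1.2
  · have h1 := h𝒥 (⟨Set.univ, Filter.univ_mem⟩, ⟨Set.univ, Filter.univ_mem⟩)
    intro h2
    obtain ⟨j, hj1, hj2⟩ := (h1.and (ev_dec 𝒥 (fun j => R j.1 j.2))).exists
    exact hj1.2 (hj2.trans h2)

/-- Amalgamation over a common element. -/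
theorem amalg {I J ι : Type*} (𝒲 : Ultrafilter I) (z : I → W) (𝒥 : ι → Ultrafilter J)
    (za : ι → J → W) (h : ∀ a, (𝒥 a).map (za a) = 𝒲.map z) :
    ∃ 𝒦 : Ultrafilter (I × (ι → J)), 𝒦.map Prod.fst = 𝒲 ∧
      (∀ a, 𝒦.map (fun k => k.2 a) = 𝒥 a) ∧
      ∀ a, ∀ᶠ k in (𝒦 : Filter (I × (ι → J))), z k.1 = za a (k.2 a) := by
  classical
  let S : ({M : Set I // M ∈ 𝒲} ⊕ (Σ a : ι, {M : Set J // M ∈ 𝒥 a})) → Set (I × (ι → J)) :=
    fun γ => match γ with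
      | Sum.inl M => {k | k.1 ∈ M.1}
      | Sum.inr ⟨a, M⟩ => {k | k.2 a ∈ M.1 ∧ z k.1 = za a (k.2 a)}
  obtain ⟨𝒦, h𝒦⟩ := fip S (by
    intro F
    let MI : Set I := {i | ∀ γ ∈ F, ∀ M : {M : Set I // M ∈ 𝒲}, γ = Sum.inl M → i ∈ M.1}
    let MJ : ι → Set J := fun a => {j | ∀ γ ∈ F, ∀ M : {M : Set J // M ∈ 𝒥 a},
      γ = Sum.inr ⟨a, M⟩ → j ∈ M.1}
    have hMI : ∀ᶠ i in (𝒲 : Filter I), i ∈ MI := by
      show ∀ᶠ i in (𝒲 : Filter I), ∀ γ ∈ F, ∀ M : {M : Set I // M ∈ 𝒲}, γ = Sum.inl M → i ∈ M.1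
      rw [eventually_all_finset]
      intro γ _
      rcases γ with M | M
      · have : ∀ᶠ i in (𝒲 : Filter I), i ∈ M.1 := M.2
        filter_upwards [this] with i hi M' hM'
        rw [← Sum.inl.inj hM']
        exact hi
      · exact Eventually.of_forall fun i M' hM' => by cases hM'
    have hMJ : ∀ a, ∀ᶠ j in (𝒥 a : Filter J), j ∈ MJ a := by
      intro a
      show ∀ᶠ j in (𝒥 a : Filter J), ∀ γ ∈ F, ∀ M : {M : Set J // M ∈ 𝒥 a},
        γ = Sum.inr ⟨a, M⟩ → j ∈ M.1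
      rw [eventually_all_finset]
      intro γ _
      rcases γ with M | ⟨b, M⟩
      · exact Eventually.of_forall fun i M' hM' => by cases hM'
      · by_cases hb : b = a
        · subst hb
          have : ∀ᶠ i in (𝒥 b : Filter J), i ∈ M.1 := M.2
          filter_upwards [this] with i hi M' hM'
          have h3 := Sum.inr.inj hM'
          have h4 : M = M' := by
            simpa using h3
          rw [← h4]
          exact hi
        · refine Eventually.of_forall fun i M' hM' => ?_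
          have h3 := congrArg Sigma.fst (Sum.inr.inj hM')
          exact absurd h3 hb
    -- the finitely many indices
    let FA : Finset ι := F.biUnion (fun γ => match γ with
      | Sum.inl _ => ∅
      | Sum.inr ⟨a, _⟩ => {a})
    have hw : ∀ᶠ w in ((𝒲.map z : Ultrafilter W) : Filter W), (∃ i ∈ MI, z i = w) ∧
        ∀ a ∈ FA, ∃ j ∈ MJ a, za a j = w := by
      refine Filter.Eventually.and ?_ ?_
      · rw [ev_map]
        filter_upwards [hMI] with i hi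
        exact ⟨i, hi, rfl⟩
      · rw [eventually_all_finset]
        intro a _
        rw [← h a, ev_map]
        filter_upwards [hMJ a] with j hj
        exact ⟨j, hj, rfl⟩
    obtain ⟨w, ⟨i, hi, hzi⟩, hj⟩ := hw.exists
    have hJ : ∀ a, ∃ j : J, a ∈ FA → j ∈ MJ a ∧ za a j = w := by
      intro a
      by_cases ha : a ∈ FA
      · obtain ⟨j, h1, h2⟩ := hj a ha
        exact ⟨j, fun _ => ⟨h1, h2⟩⟩
      · obtain ⟨j, _⟩ := (hMJ a).exists
        exact ⟨j, fun h' => absurd h' ha⟩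
    choose jj hjj using hJ
    refine ⟨(i, jj), ?_⟩
    intro γ hγ
    rcases γ with M | ⟨a, M⟩
    · exact hi _ hγ M rfl
    · have ha : a ∈ FA := by
        rw [Finset.mem_biUnion]
        exact ⟨_, hγ, by simp⟩
      obtain ⟨h1, h2⟩ := hjj a ha
      exact ⟨h1 _ hγ M rfl, hzi.trans h2.symm⟩)
  refine ⟨𝒦, ?_, ?_, ?_⟩
  · refine Ultrafilter.eq_of_le ?_
    intro M hM
    exact h𝒦 (Sum.inl ⟨M, hM⟩)
  · intro a
    refine Ultrafilter.eq_of_le ?_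
    intro M hM
    exact (h𝒦 (Sum.inr ⟨a, ⟨M, hM⟩⟩)).mono fun k hk => hk.1
  · intro a
    exact (h𝒦 (Sum.inr ⟨a, ⟨Set.univ, Filter.univ_mem⟩⟩)).mono fun k hk => hk.2

theorem Eg_congr {J : Type*} (𝒥 : Ultrafilter J) {f f' g g' : J → W}
    (hf : f =ᶠ[(𝒥 : Filter J)] f') (hg : g =ᶠ[(𝒥 : Filter J)] g') :
    Eg 𝒥 R f g ↔ Eg 𝒥 R f' g' := by
  have h1 : (∀ᶠ j in (𝒥 : Filter J), R (f j) (g j)) ↔ ∀ᶠ j in (𝒥 : Filter J), R (f' j) (g' j) := by
    refine eventually_congr ?_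
    filter_upwards [hf, hg] with j h1 h2
    rw [h1, h2]
  have h2 : 𝒥.map f = 𝒥.map f' := by
    apply Ultrafilter.coe_injective
    rw [Ultrafilter.coe_map, Ultrafilter.coe_map]
    exact Filter.map_congr hf
  have h3 : 𝒥.map g = 𝒥.map g' := by
    apply Ultrafilter.coe_injective
    rw [Ultrafilter.coe_map, Ultrafilter.coe_map]
    exact Filter.map_congr hg
  unfold Eg
  rw [h1, h2, h3]

theorem marg_eg {J K : Type*} (𝒥 : Ultrafilter J) (𝒦 : Ultrafilter K) (φ : K → J)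
    (hφ : 𝒦.map φ = 𝒥) (f g : J → W) : Eg 𝒦 R (f ∘ φ) (g ∘ φ) ↔ Eg 𝒥 R f g := by
  subst hφ
  rfl

theorem marg_connG {J K : Type*} (𝒥 : Ultrafilter J) (𝒦 : Ultrafilter K) (φ : K → J)
    (hφ : 𝒦.map φ = 𝒥) {f g : J → W} (h : ConnG 𝒥 R f g) : ConnG 𝒦 R (f ∘ φ) (g ∘ φ) := by
  unfold ConnG at *
  induction h with
  | refl => exact Relation.ReflTransGen.refl
  | @tail b c _ hbc ih =>
    refine ih.tail ?_
    rcases hbc with h1 | h1
    · exact Or.inl ((marg_eg 𝒥 𝒦 φ hφ b c).mpr h1)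
    · right
      subst hφ
      exact h1

theorem connG_cases {J : Type*} (𝒥 : Ultrafilter J) {f g : J → W} (h : ConnG 𝒥 R f g) :
    f =ᶠ[(𝒥 : Filter J)] g ∨ Relation.TransGen (Eg 𝒥 R) f g := by
  unfold ConnG at h
  induction h with
  | refl => exact Or.inl (EventuallyEq.refl _ _)
  | @tail b c _ hbc ih =>
    rcases hbc with h1 | h1
    · rcases ih with h2 | h2
      · exact Or.inr (Relation.TransGen.single ((Eg_congr 𝒥 h2 (EventuallyEq.refl _ _)).mpr h1))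
      · exact Or.inr (h2.tail h1)
    · rcases ih with h2 | h2
      · exact Or.inl (h2.trans h1)
      · right
        cases h2 with
        | single h3 =>
          exact Relation.TransGen.single ((Eg_congr 𝒥 (EventuallyEq.refl _ _) h1).mp h3)
        | tail h3 h4 =>
          exact h3.tail ((Eg_congr 𝒥 (EventuallyEq.refl _ _) h1).mp h4)

theorem connG_trans {J : Type*} (𝒥 : Ultrafilter J) {f g k : J → W}
    (h1 : ConnG 𝒥 R f g) (h2 : ConnG 𝒥 R g k) : ConnG 𝒥 R f k :=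
  Relation.ReflTransGen.trans h1 h2

theorem connG_of_eg {J : Type*} (𝒥 : Ultrafilter J) {f g : J → W}
    (h1 : Eg 𝒥 R f g) : ConnG 𝒥 R f g :=
  Relation.ReflTransGen.single (Or.inl h1)

theorem connG_of_eq {J : Type*} (𝒥 : Ultrafilter J) {f g : J → W}
    (h1 : f =ᶠ[(𝒥 : Filter J)] g) : ConnG 𝒥 R f g :=
  Relation.ReflTransGen.single (Or.inr h1)

end KD
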